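import Mathlib

/-!
# The gadget on the line, for an arbitrary condition `T`

Parameters: bits `b`, switches `d`, carriers `u`, coordinates `X`, witnesses `Z`.
-/

set_option autoImplicit false

namespace Pool.Agent.Lib.MP_77492d_lc.Abs35

variable {a k c : ℕ}

/-- membership of the point `t` in the set with the parameters `b`, `d`, `u`, `X`, `Z` -/
def LineP (T : (Fin a → ℝ) → (Fin k → ℝ) → (Fin c → ℝ) → Prop) (t : ℝ) (b : Fin k → ℝ)
    (d u : Fin (a + 1) → ℝ) (X : Fin a → ℝ) (Z : Fin c → ℝ) : Prop :=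
  (∀ i, b i = 0 ∨ b i = 1) ∧
    (∀ j : Fin (a + 1), ((j : ℕ) : ℝ) < u j ∧ u j < (j : ℕ) + 1) ∧
    ((∃ j, d j ≠ 1) ∨
      ((∀ j : Fin a, X j * ((u j.castSucc - (j : ℕ)) * ((j : ℕ) + 1 - u j.castSucc)) =
        2 * (u j.castSucc - (j : ℕ)) - 1) ∧ T X b Z)) ∧
    ((∃ i : Fin k, b i = 1 ∧ t = ((i : ℕ) : ℝ)) ∨ ∃ j, d j = 1 ∧ t = u j)

/-- every real number is `(2 s - 1) / (s (1 - s))` for some `s` in `(0, 1)` -/
theorem exists_frac (X : ℝ) : ∃ s : ℝ, 0 < s ∧ s < 1 ∧ X * (s * (1 - s)) = 2 * s - 1 := by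
  have hc : ContinuousOn (fun s : ℝ => 2 * s - 1 - X * (s * (1 - s))) (Set.Icc 0 1) := by
    fun_prop
  have h0 : (0 : ℝ) ∈ Set.Ioo ((fun s : ℝ => 2 * s - 1 - X * (s * (1 - s))) 0)
      ((fun s : ℝ => 2 * s - 1 - X * (s * (1 - s))) 1) := by
    constructor <;> norm_num
  obtain ⟨s, hs, h⟩ := intermediate_value_Ioo zero_le_one hc h0
  exact ⟨s, hs.1, hs.2, by simp only at h; linarith⟩

theorem slot_unique {u : ℝ} {i j : ℕ} (h1 : (i : ℝ) < u) (h2 : u < i + 1) (h3 : (j : ℝ) < u)
    (h4 : u < j + 1) : i = j := by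
  have h5 : (i : ℝ) < j + 1 := h1.trans h4
  have h6 : (j : ℝ) < i + 1 := h3.trans h2
  have h7 : i < j + 1 := by exact_mod_cast h5
  have h8 : j < i + 1 := by exact_mod_cast h6
  omega

theorem not_int {u : ℝ} {i j : ℕ} (h1 : (j : ℝ) < u) (h2 : u < j + 1) (h : u = i) : False := by
  rw [h] at h1 h2
  have h3 : j < i := by exact_mod_cast h1
  have h4 : i < j + 1 := by exact_mod_cast h2
  omega

/-- the possible points of a set with the carriers `u` -/
def pts (u : Fin (a + 1) → ℝ) : Fin k ⊕ Fin (a + 1) → ℝ :=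
  Sum.elim (fun i => ((i : ℕ) : ℝ)) u

theorem pts_injective {u : Fin (a + 1) → ℝ}
    (hu : ∀ j : Fin (a + 1), ((j : ℕ) : ℝ) < u j ∧ u j < (j : ℕ) + 1) :
    Function.Injective (pts (k := k) u) := by
  rintro (i | j) (i' | j') h1
  · simp only [pts, Sum.elim_inl, Nat.cast_inj] at h1
    rw [Fin.ext h1]
  · simp only [pts, Sum.elim_inl, Sum.elim_inr] at h1
    exact (not_int (hu j').1 (hu j').2 h1.symm).elim
  · simp only [pts, Sum.elim_inl, Sum.elim_inr] at h1
    exact (not_int (hu j).1 (hu j).2 h1).elim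
  · simp only [pts, Sum.elim_inr] at h1
    rw [Fin.ext (slot_unique (hu j).1 (hu j).2 (h1 ▸ (hu j').1) (h1 ▸ (hu j').2))]

theorem mem_pts {T : (Fin a → ℝ) → (Fin k → ℝ) → (Fin c → ℝ) → Prop} {t : ℝ} {b : Fin k → ℝ}
    {d u : Fin (a + 1) → ℝ} {X : Fin a → ℝ} {Z : Fin c → ℝ} (h : LineP T t b d u X Z) :
    ∃ e, pts (k := k) u e = t := by
  rcases h.2.2.2 with ⟨i, -, hi⟩ | ⟨j, -, hj⟩
  · exact ⟨.inl i, hi.symm⟩
  · exact ⟨.inr j, hj.symm⟩

/-- a set has at most `k + (a + 1)` points -/
theorem card_set {T : (Fin a → ℝ) → (Fin k → ℝ) → (Fin c → ℝ) → Prop} {b : Fin k → ℝ}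
    {d u : Fin (a + 1) → ℝ} {X : Fin a → ℝ} {Z : Fin c → ℝ} :
    {t | LineP T t b d u X Z}.Finite ∧ {t | LineP T t b d u X Z}.ncard ≤ k + (a + 1) := by
  classical
  have h : {t | LineP T t b d u X Z} ⊆ ((Finset.univ.image (pts (k := k) u) : Finset ℝ) :
      Set ℝ) := by
    intro x hx
    obtain ⟨e, he⟩ := mem_pts hx
    exact Finset.mem_coe.2 (Finset.mem_image.2 ⟨e, Finset.mem_univ _, he⟩)
  refine ⟨(Finset.finite_toSet _).subset h, (Set.ncard_le_ncard h (Finset.finite_toSet _)).trans ?_⟩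
  rw [Set.ncard_coe_finset]
  refine Finset.card_image_le.trans (le_of_eq ?_)
  rw [Finset.card_univ, Fintype.card_sum, Fintype.card_fin, Fintype.card_fin]

/-- the bits as real numbers -/
def bits (β : Fin k → Bool) (i : Fin k) : ℝ := if β i = true then 1 else 0

theorem abs_line (T : (Fin a → ℝ) → (Fin k → ℝ) → (Fin c → ℝ) → Prop) :
    (∃ P : Finset ℝ, P.card = k + (a + 1) ∧ ∀ P' ⊆ P, ∃ (b : Fin k → ℝ) (d u : Fin (a + 1) → ℝ)
      (X : Fin a → ℝ) (Z : Fin c → ℝ), ∀ t ∈ P, LineP T t b d u X Z ↔ t ∈ P') ↔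
      ∃ X, ∀ β : Fin k → Bool, ∃ Z, T X (bits β) Z := by
  classical
  constructor
  · rintro ⟨P, hP, h⟩
    -- the whole set
    obtain ⟨b, d, u, X, Z, hy⟩ := h P subset_rfl
    have hne : P.Nonempty := Finset.card_pos.1 (by omega)
    obtain ⟨x0, hx0⟩ := hne
    have hslot : ∀ j : Fin (a + 1), ((j : ℕ) : ℝ) < u j ∧ u j < (j : ℕ) + 1 :=
      ((hy x0 hx0).2 hx0).2.1
    have hPe : Finset.univ.image (pts (k := k) u) = P := by
      symm
      apply Finset.eq_of_subset_of_card_le
      · intro x hx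
        obtain ⟨e, he⟩ := mem_pts ((hy x hx).2 hx)
        exact Finset.mem_image.2 ⟨e, Finset.mem_univ _, he⟩
      · refine Finset.card_image_le.trans ?_
        rw [Finset.card_univ, Fintype.card_sum, Fintype.card_fin, Fintype.card_fin, hP]
    have hin : ∀ e, pts (k := k) u e ∈ P := fun e => by
      rw [← hPe]
      exact Finset.mem_image_of_mem _ (Finset.mem_univ _)
    have hinj := pts_injective (k := k) hslot
    refine ⟨fun j => (2 * (u j.castSucc - (j : ℕ)) - 1) /
      ((u j.castSucc - (j : ℕ)) * ((j : ℕ) + 1 - u j.castSucc)), fun β => ?_⟩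
    -- the subset of `β`
    obtain ⟨b', d', u', X', Z', hy'⟩ := h ((Finset.univ.filter fun e : Fin k ⊕ Fin (a + 1) =>
        Sum.elim (fun i => β i = true) (fun _ => True) e).image (pts (k := k) u)) (by
      intro x hx
      obtain ⟨e, -, rfl⟩ := Finset.mem_image.1 hx
      exact hin e)
    have hsel : ∀ e, pts (k := k) u e ∈ ((Finset.univ.filter fun e : Fin k ⊕ Fin (a + 1) =>
        Sum.elim (fun i => β i = true) (fun _ => True) e).image (pts (k := k) u)) ↔
        Sum.elim (fun i => β i = true) (fun _ => True) e := by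
      intro e
      constructor
      · intro he
        obtain ⟨e', he', hee⟩ := Finset.mem_image.1 he
        rw [← hinj hee]
        exact (Finset.mem_filter.1 he').2
      · intro he
        exact Finset.mem_image_of_mem _ (Finset.mem_filter.2 ⟨Finset.mem_univ _, he⟩)
    have hL : ∀ e, LineP T (pts (k := k) u e) b' d' u' X' Z' ↔
        Sum.elim (fun i => β i = true) (fun _ => True) e := fun e => by
      rw [hy' _ (hin e), hsel]
    have h0 := (hL (.inr 0)).2 trivial
    have hslot' := h0.2.1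
    have hon : ∀ j, d' j = 1 ∧ u' j = u j := by
      intro j
      have h1 := (hL (.inr j)).2 trivial
      rcases h1.2.2.2 with ⟨i, -, hi⟩ | ⟨j', hj', hj⟩
      · exact (not_int (hslot j).1 (hslot j).2 hi).elim
      · simp only [pts, Sum.elim_inr] at hj
        have : j = j' := Fin.ext (slot_unique (hslot j).1 (hslot j).2 (hj ▸ (hslot' j').1)
          (hj ▸ (hslot' j').2))
        subst this
        exact ⟨hj', hj.symm⟩
    have hΦ := h0.2.2.1.resolve_left (by rintro ⟨j, hj⟩; exact hj (hon j).1)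
    refine ⟨Z', ?_⟩
    have hX : X' = fun j : Fin a => (2 * (u j.castSucc - (j : ℕ)) - 1) /
        ((u j.castSucc - (j : ℕ)) * ((j : ℕ) + 1 - u j.castSucc)) := by
      funext j
      have h1 := hΦ.1 j
      have h2 := hslot j.castSucc
      rw [(hon j.castSucc).2] at h1
      simp only [Fin.val_castSucc] at h2
      rw [eq_div_iff (mul_ne_zero (by linarith) (by linarith))]
      exact h1
    have hB : b' = bits β := by
      funext i
      have h1 := hL (.inl i)
      simp only [pts, Sum.elim_inl] at h1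
      by_cases hβ : β i = true
      · rw [bits, if_pos hβ]
        have h2 := (h1.2 hβ).2.2.2
        rcases h2 with ⟨i', hi', hi⟩ | ⟨j, -, hj⟩
        · have : i = i' := Fin.ext (by exact_mod_cast hi)
          exact this ▸ hi'
        · exact (not_int (hslot' j).1 (hslot' j).2 hj.symm).elim
      · rw [bits, if_neg hβ]
        rcases h0.1 i with h2 | h2
        · exact h2
        · exact (hβ (h1.1 ⟨h0.1, h0.2.1, h0.2.2.1, Or.inl ⟨i, h2, rfl⟩⟩)).elim
    have h3 := hΦ.2
    rw [hX, hB] at h3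
    exact h3
  · rintro ⟨X, hX⟩
    choose s hs0 hs1 hs using fun j : Fin (a + 1) =>
      exists_frac (if h : (j : ℕ) < a then X ⟨j, h⟩ else 0)
    set u : Fin (a + 1) → ℝ := fun j => (j : ℕ) + s j with hu
    have hslot : ∀ j : Fin (a + 1), ((j : ℕ) : ℝ) < u j ∧ u j < (j : ℕ) + 1 := fun j =>
      ⟨by simp only [hu]; linarith [hs0 j], by simp only [hu]; linarith [hs1 j]⟩
    have hinj := pts_injective (k := k) hslot
    refine ⟨Finset.univ.image (pts (k := k) u), ?_, ?_⟩
    · rw [Finset.card_image_of_injective _ hinj, Finset.card_univ, Fintype.card_sum,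
        Fintype.card_fin, Fintype.card_fin]
    · intro P' hP'
      obtain ⟨Z, hZ⟩ := hX fun i => decide (pts (k := k) u (.inl i) ∈ P')
      refine ⟨bits fun i => decide (pts (k := k) u (.inl i) ∈ P'),
        fun j => if pts (k := k) u (.inr j) ∈ P' then 1 else 0, u, X, Z, fun x hx => ?_⟩
      obtain ⟨e, -, rfl⟩ := Finset.mem_image.1 hx
      have hcond : (∃ j : Fin (a + 1), (if pts (k := k) u (.inr j) ∈ P' then (1 : ℝ) else 0) ≠ 1) ∨
          ((∀ j : Fin a, X j * ((u j.castSucc - (j : ℕ)) * ((j : ℕ) + 1 - u j.castSucc)) =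
            2 * (u j.castSucc - (j : ℕ)) - 1) ∧
          T X (bits fun i => decide (pts (k := k) u (.inl i) ∈ P')) Z) := by
        right
        refine ⟨fun j => ?_, hZ⟩
        have h1 := hs j.castSucc
        have h0 : ((j.castSucc : Fin (a + 1)) : ℕ) < a := j.2
        rw [dif_pos h0] at h1
        have h2 : u j.castSucc - (j : ℕ) = s j.castSucc := by
          simp only [hu, Fin.val_castSucc]; ring
        have h3 : ((j : ℕ) : ℝ) + 1 - u j.castSucc = 1 - s j.castSucc := by
          simp only [hu, Fin.val_castSucc]; ring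
        rw [h2, h3]
        exact h1
      constructor
      · rintro ⟨-, -, -, ⟨i, hi, ht⟩ | ⟨j, hj, ht⟩⟩
        · have he : pts (k := k) u e = pts (k := k) u (.inl i) := ht
          rw [he]
          by_contra hne
          rw [bits, if_neg (by simpa using hne)] at hi
          exact zero_ne_one hi
        · have he : pts (k := k) u e = pts (k := k) u (.inr j) := ht
          rw [he]
          by_contra hne
          exact zero_ne_one ((if_neg hne).symm.trans hj)
      · intro he
        refine ⟨fun i => ?_, hslot, hcond, ?_⟩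
        · by_cases hi : pts (k := k) u (.inl i) ∈ P'
          · exact Or.inr (if_pos (by simpa using hi))
          · exact Or.inl (if_neg (by simpa using hi))
        · rcases e with i | j
          · exact Or.inl ⟨i, if_pos (by simpa using he), rfl⟩
          · exact Or.inr ⟨j, if_pos he, rfl⟩

end Pool.Agent.Lib.MP_77492d_lc.Abs35
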