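import Pool.Agent.Lib.MP_77492d_lc.Defs

set_option autoImplicit false

/-!
# Renaming of variables, big conjunctions and disjunctions, and their codes
-/

namespace Pool.Agent.Lib.MP_77492d_lc

open Pool.Agent.Lib.PT

variable {V W : Type}

/-- Renaming of variables. -/
def Term.map (f : V → W) : Term V → Term W
  | .const c => .const c
  | .var v => .var (f v)
  | .add s t => .add (s.map f) (t.map f)
  | .mul s t => .mul (s.map f) (t.map f)

/-- Renaming of variables. -/
def Form.map (f : V → W) : Form V → Form W
  | .eq s t => .eq (s.map f) (t.map f)
  | .lt s t => .lt (s.map f) (t.map f)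
  | .not A => .not (A.map f)
  | .and A B => .and (A.map f) (B.map f)
  | .or A B => .or (A.map f) (B.map f)

theorem Term.val_map (f : V → W) (a : W → ℝ) (t : Term V) :
    (t.map f).val a = t.val (fun v => a (f v)) := by
  induction t with
  | const c => rfl
  | var v => rfl
  | add s t hs ht => simp only [Term.map, Term.val, hs, ht]
  | mul s t hs ht => simp only [Term.map, Term.val, hs, ht]

theorem Form.holds_map (f : V → W) (a : W → ℝ) (A : Form V) :
    (A.map f).Holds a ↔ A.Holds (fun v => a (f v)) := by
  induction A with
  | eq s t => simp only [Form.map, Form.Holds, Term.val_map]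
  | lt s t => simp only [Form.map, Form.Holds, Term.val_map]
  | not A h => simp only [Form.map, Form.Holds, h]
  | and A B h h' => simp only [Form.map, Form.Holds, h, h']
  | or A B h h' => simp only [Form.map, Form.Holds, h, h']

/-- The letters of the variables. -/
def isVar : Letter → Bool
  | .sX | .eX | .sY | .eY | .sZ | .eZ => true
  | _ => false

/-- The letters of the three numbers. -/
def isD : Letter → Bool
  | .d1 | .d2 | .d3 => true
  | _ => false

theorem flatMap_fix {g : Letter → List Letter} {l : List Letter} (h : ∀ a ∈ l, g a = [a]) :
    l.flatMap g = l := by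
  induction l with
  | nil => rfl
  | cons x l ih =>
    rw [List.flatMap_cons, h x List.mem_cons_self, ih fun a ha => h a (List.mem_cons_of_mem _ ha)]
    rfl

theorem mem_intCode {c : ℤ} {a : Letter} (h : a ∈ intCode c) : isVar a = false ∧ isD a = false := by
  rw [intCode, List.mem_cons, List.mem_append, List.mem_map, List.mem_singleton] at h
  rcases h with h | ⟨b, _, h⟩ | h
  · rw [h]; split_ifs <;> exact ⟨rfl, rfl⟩
  · rw [← h]; split_ifs <;> exact ⟨rfl, rfl⟩
  · rw [h]; exact ⟨rfl, rfl⟩

theorem Term.code_map {cv : V → List Letter} {cw : W → List Letter} {f : V → W}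
    {g : Letter → List Letter} (hg : ∀ a, isVar a = false → g a = [a])
    (hv : ∀ v, (cv v).flatMap g = cw (f v)) (t : Term V) :
    (t.code cv).flatMap g = (t.map f).code cw := by
  induction t with
  | const c => exact flatMap_fix fun a ha => hg a (mem_intCode ha).1
  | var v => exact hv v
  | add s t hs ht =>
    simp only [Term.code, Term.map, List.flatMap_cons, List.flatMap_append, hs, ht,
      hg Letter.plus rfl, List.singleton_append]
  | mul s t hs ht =>
    simp only [Term.code, Term.map, List.flatMap_cons, List.flatMap_append, hs, ht,
      hg Letter.times rfl, List.singleton_append]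

theorem Form.code_map {cv : V → List Letter} {cw : W → List Letter} {f : V → W}
    {g : Letter → List Letter} (hg : ∀ a, isVar a = false → g a = [a])
    (hv : ∀ v, (cv v).flatMap g = cw (f v)) (A : Form V) :
    (A.code cv).flatMap g = (A.map f).code cw := by
  induction A with
  | eq s t =>
    simp only [Form.code, Form.map, List.flatMap_cons, List.flatMap_append,
      Term.code_map hg hv, hg Letter.eq rfl, List.singleton_append]
  | lt s t =>
    simp only [Form.code, Form.map, List.flatMap_cons, List.flatMap_append,
      Term.code_map hg hv, hg Letter.lt rfl, List.singleton_append]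
  | not A h =>
    simp only [Form.code, Form.map, List.flatMap_cons, h, hg Letter.not rfl,
      List.singleton_append]
  | and A B h h' =>
    simp only [Form.code, Form.map, List.flatMap_cons, List.flatMap_append, h, h',
      hg Letter.and rfl, List.singleton_append]
  | or A B h h' =>
    simp only [Form.code, Form.map, List.flatMap_cons, List.flatMap_append, h, h',
      hg Letter.or rfl, List.singleton_append]

theorem Term.isD_code {cv : V → List Letter} (hv : ∀ v, ∀ a ∈ cv v, isD a = false) (t : Term V) :
    ∀ a ∈ t.code cv, isD a = false := by
  induction t with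
  | const c => exact fun a ha => (mem_intCode ha).2
  | var v => exact hv v
  | add s t hs ht =>
    intro a ha
    rw [Term.code, List.mem_cons, List.mem_append] at ha
    rcases ha with rfl | ha | ha
    · rfl
    · exact hs a ha
    · exact ht a ha
  | mul s t hs ht =>
    intro a ha
    rw [Term.code, List.mem_cons, List.mem_append] at ha
    rcases ha with rfl | ha | ha
    · rfl
    · exact hs a ha
    · exact ht a ha

theorem Form.isD_code {cv : V → List Letter} (hv : ∀ v, ∀ a ∈ cv v, isD a = false) (A : Form V) :
    ∀ a ∈ A.code cv, isD a = false := by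
  induction A with
  | eq s t =>
    intro a ha
    rw [Form.code, List.mem_cons, List.mem_append] at ha
    rcases ha with rfl | ha | ha
    · rfl
    · exact Term.isD_code hv s a ha
    · exact Term.isD_code hv t a ha
  | lt s t =>
    intro a ha
    rw [Form.code, List.mem_cons, List.mem_append] at ha
    rcases ha with rfl | ha | ha
    · rfl
    · exact Term.isD_code hv s a ha
    · exact Term.isD_code hv t a ha
  | not A h =>
    intro a ha
    rw [Form.code, List.mem_cons] at ha
    rcases ha with rfl | ha
    · rfl
    · exact h a ha
  | and A B h h' =>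
    intro a ha
    rw [Form.code, List.mem_cons, List.mem_append] at ha
    rcases ha with rfl | ha | ha
    · rfl
    · exact h a ha
    · exact h' a ha
  | or A B h h' =>
    intro a ha
    rw [Form.code, List.mem_cons, List.mem_append] at ha
    rcases ha with rfl | ha | ha
    · rfl
    · exact h a ha
    · exact h' a ha

theorem isD_vX (i : ℕ) : ∀ a ∈ vX i, isD a = false := by
  intro a ha
  rw [vX, List.mem_append, List.mem_singleton] at ha
  rcases ha with ha | rfl
  · rw [List.eq_of_mem_replicate ha]; rfl
  · rfl

theorem isD_vY (i : ℕ) : ∀ a ∈ vY i, isD a = false := by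
  intro a ha
  rw [vY, List.mem_append, List.mem_singleton] at ha
  rcases ha with ha | rfl
  · rw [List.eq_of_mem_replicate ha]; rfl
  · rfl

theorem isD_vZ (i : ℕ) : ∀ a ∈ vZ i, isD a = false := by
  intro a ha
  rw [vZ, List.mem_append, List.mem_singleton] at ha
  rcases ha with ha | rfl
  · rw [List.eq_of_mem_replicate ha]; rfl
  · rfl

/-! ### Reading the three numbers and the formula -/

/-- The number of occurrences of a letter. -/
def cnt (x : Letter) (w : List Letter) : ℕ := (w.filter fun a => decide (a = x)).length

/-- The word without the letters of the three numbers. -/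
def body (w : List Letter) : List Letter := w.filter fun a => !(isD a)

theorem cnt_append (x : Letter) (u w : List Letter) : cnt x (u ++ w) = cnt x u + cnt x w := by
  simp only [cnt, List.filter_append, List.length_append]

theorem body_append (u w : List Letter) : body (u ++ w) = body u ++ body w := by
  simp only [body, List.filter_append]

theorem cnt_replicate (x y : Letter) (n : ℕ) :
    cnt x (List.replicate n y) = if y = x then n else 0 := by
  by_cases h : y = x
  · rw [if_pos h, cnt, List.filter_eq_self.2, List.length_replicate]
    intro a ha
    rw [List.eq_of_mem_replicate ha, h]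
    simp
  · rw [if_neg h, cnt, List.filter_eq_nil_iff.2, List.length_nil]
    intro a ha
    rw [List.eq_of_mem_replicate ha]
    simpa using h

theorem cnt_zero {x : Letter} (hx : isD x = true) {w : List Letter}
    (h : ∀ a ∈ w, isD a = false) : cnt x w = 0 := by
  rw [cnt, List.filter_eq_nil_iff.2, List.length_nil]
  intro a ha
  have := h a ha
  simp only [decide_eq_true_eq]
  rintro rfl
  rw [hx] at this
  exact absurd this (by decide)

theorem body_eq {w : List Letter} (h : ∀ a ∈ w, isD a = false) : body w = w := by
  rw [body, List.filter_eq_self]
  intro a ha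
  rw [h a ha]
  rfl

theorem body_dims (a b c : ℕ) : body (dims a b c) = [] := by
  rw [body, List.filter_eq_nil_iff]
  intro x hx
  rw [dims, List.mem_append, List.mem_append] at hx
  rcases hx with (hx | hx) | hx <;> rw [List.eq_of_mem_replicate hx] <;> decide

theorem read {a b c : ℕ} {w : List Letter} (h : ∀ a ∈ w, isD a = false) :
    cnt .d1 (dims a b c ++ w) = a ∧ cnt .d2 (dims a b c ++ w) = b ∧
      cnt .d3 (dims a b c ++ w) = c ∧ body (dims a b c ++ w) = w := by
  refine ⟨?_, ?_, ?_, ?_⟩
  · rw [dims, cnt_append, cnt_append, cnt_append, cnt_replicate, cnt_replicate, cnt_replicate,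
      cnt_zero rfl h]
    simp
  · rw [dims, cnt_append, cnt_append, cnt_append, cnt_replicate, cnt_replicate, cnt_replicate,
      cnt_zero rfl h]
    simp
  · rw [dims, cnt_append, cnt_append, cnt_append, cnt_replicate, cnt_replicate, cnt_replicate,
      cnt_zero rfl h]
    simp
  · rw [body_append, body_dims, body_eq h]
    rfl

/-! ### Big conjunctions and disjunctions -/

/-- A true formula. -/
def tt : Form V := .eq (.const 0) (.const 0)

/-- A false formula. -/
def ff : Form V := .eq (.const 0) (.const 1)

theorem holds_tt (a : V → ℝ) : (tt : Form V).Holds a := rfl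

theorem not_holds_ff (a : V → ℝ) : ¬ (ff : Form V).Holds a := by
  intro h
  have h' : ((0 : ℤ) : ℝ) = ((1 : ℤ) : ℝ) := h
  norm_num at h'

/-- The code of `tt`. -/
def ttc : List Letter := Letter.eq :: (intCode 0 ++ intCode 0)

/-- The code of `ff`. -/
def ffc : List Letter := Letter.eq :: (intCode 0 ++ intCode 1)

/-- The conjunction of the formulas of a list. -/
def bigAnd (L : List (Form V)) : Form V := L.foldr Form.and tt

/-- The disjunction of the formulas of a list. -/
def bigOr (L : List (Form V)) : Form V := L.foldr Form.or ff

theorem holds_bigAnd (a : V → ℝ) (L : List (Form V)) :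
    (bigAnd L).Holds a ↔ ∀ A ∈ L, A.Holds a := by
  induction L with
  | nil => simp only [bigAnd, List.foldr_nil, holds_tt, List.not_mem_nil, false_imp_iff,
      implies_true]
  | cons A L ih =>
    rw [List.forall_mem_cons, ← ih]
    rfl

theorem holds_bigOr (a : V → ℝ) (L : List (Form V)) :
    (bigOr L).Holds a ↔ ∃ A ∈ L, A.Holds a := by
  induction L with
  | nil => simp only [bigOr, List.foldr_nil, not_holds_ff, List.not_mem_nil, false_and,
      exists_false]
  | cons A L ih =>
    rw [List.exists_mem_cons_iff, ← ih]
    rfl

theorem code_bigAnd (cv : V → List Letter) (L : List (Form V)) :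
    (bigAnd L).code cv = (L.flatMap fun A => Letter.and :: A.code cv) ++ ttc := by
  induction L with
  | nil => rfl
  | cons A L ih =>
    rw [List.flatMap_cons, List.append_assoc, ← ih]
    rfl

theorem code_bigOr (cv : V → List Letter) (L : List (Form V)) :
    (bigOr L).code cv = (L.flatMap fun A => Letter.or :: A.code cv) ++ ffc := by
  induction L with
  | nil => rfl
  | cons A L ih =>
    rw [List.flatMap_cons, List.append_assoc, ← ih]
    rfl

theorem flatMap_finRange {β : Type} (n : ℕ) (f : ℕ → List β) :
    (List.finRange n).flatMap (fun i => f i.1) = (List.range n).flatMap f := by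
  rw [← List.map_coe_finRange_eq_range, List.flatMap_map]

/-- Numerals. -/
def num : ℕ → Term V
  | 0 => .const 0
  | j + 1 => .add (num j) (.const 1)

/-- The code of a numeral. -/
def numc (j : ℕ) : List Letter :=
  List.replicate j Letter.plus ++ (intCode 0 ++ (List.range j).flatMap fun _ => intCode 1)

theorem val_num (a : V → ℝ) (j : ℕ) : (num j : Term V).val a = j := by
  induction j with
  | zero => simp [num, Term.val]
  | succ j ih => simp [num, Term.val, ih]

theorem code_num (cv : V → List Letter) (j : ℕ) : (num j : Term V).code cv = numc j := by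
  induction j with
  | zero => simp [num, Term.code, numc]
  | succ j ih =>
    rw [num, Term.code, ih, numc, numc, List.range_succ, List.flatMap_append,
      List.replicate_succ]
    simp [Term.code]

/-! ### Polynomial time -/

/-- The number of a letter. -/
def Letter.idx : Letter → ℕ
  | .d1 => 0 | .d2 => 1 | .d3 => 2 | .sX => 3 | .eX => 4 | .sY => 5 | .eY => 6 | .sZ => 7
  | .eZ => 8 | .pos => 9 | .neg => 10 | .b0 => 11 | .b1 => 12 | .stop => 13 | .plus => 14
  | .times => 15 | .eq => 16 | .lt => 17 | .not => 18 | .and => 19 | .or => 20

theorem idx_injective : Function.Injective Letter.idx := by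
  intro a b h
  cases a <;> cases b <;> first | rfl | exact absurd h (by decide)

instance : Enc Letter := ⟨fun a => tr a.idx⟩

theorem tr_letter_injective : Function.Injective (tr : Letter → T) :=
  fun _ _ h => idx_injective (EncInj.inj (α := ℕ) h)

instance : EncInj Letter := ⟨fun _ _ h => tr_letter_injective h⟩

@[fun_prop] theorem ptime_cnt {α : Type} [Enc α] {f : α → List Letter} (x : Letter)
    (hf : PTime f) : PTime fun a => cnt x (f a) :=
  PTime.length (PTime.filter (f := fun _ b => decide (b = x)) hf
    ((PTime.finite fun b : Letter => decide (b = x)).comp PTime.snd))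

@[fun_prop] theorem ptime_body {α : Type} [Enc α] {f : α → List Letter}
    (hf : PTime f) : PTime fun a => body (f a) :=
  PTime.filter (f := fun _ b => !(isD b)) hf ((PTime.finite fun b => !(isD b)).comp PTime.snd)

@[fun_prop] theorem ptime_vX {α : Type} [Enc α] {f : α → ℕ}
    (hf : PTime f) : PTime fun a => vX (f a) := by
  unfold vX
  fun_prop

@[fun_prop] theorem ptime_vY {α : Type} [Enc α] {f : α → ℕ}
    (hf : PTime f) : PTime fun a => vY (f a) := by
  unfold vY
  fun_prop

@[fun_prop] theorem ptime_vZ {α : Type} [Enc α] {f : α → ℕ}
    (hf : PTime f) : PTime fun a => vZ (f a) := by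
  unfold vZ
  fun_prop

@[fun_prop] theorem ptime_dims {α : Type} [Enc α] {f g h : α → ℕ}
    (hf : PTime f) (hg : PTime g) (hh : PTime h) : PTime fun a => dims (f a) (g a) (h a) := by
  unfold dims
  fun_prop

@[fun_prop] theorem ptime_numc {α : Type} [Enc α] {f : α → ℕ}
    (hf : PTime f) : PTime fun a => numc (f a) := by
  unfold numc
  have h : PTime fun a => (List.range (f a)).flatMap fun _ => intCode 1 :=
    PTime.flatMap (f := fun _ _ => intCode 1) (by fun_prop) (by fun_prop)
  fun_prop

end Pool.Agent.Lib.MP_77492d_lc
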