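import Pool.Agent.Lib.MP_77492d_lc.Test36

/-!
# The statement for one code in purely existential form
-/

set_option autoImplicit false

namespace Pool.Agent.Lib.MP_77492d_lc.Cf

open Module

/-- The alternative for systems of linear equations. -/
theorem fredholm {κ : Type} [Fintype κ] {n : ℕ} (a : κ → Fin n → ℝ) (b : κ → ℝ) :
    (¬ ∃ x : Fin n → ℝ, ∀ r, ∑ i, a r i * x i = b r) ↔
      ∃ w : κ → ℝ, (∀ i, ∑ r, w r * a r i = 0) ∧ ∑ r, w r * b r = 1 := by
  classical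
  constructor
  · intro h
    set g : κ ⊕ κ → Motz.Con n := Sum.elim (fun r => ⟨fun i => a r i, -b r, False⟩)
      (fun r => ⟨fun i => -a r i, b r, False⟩) with hg
    have hno : ¬ ∃ x : Fin n → ℝ, ∀ y, (g y).Sat x := by
      rintro ⟨x, hx⟩
      refine h ⟨x, fun r => ?_⟩
      have h1 := (hx (.inl r)).1
      have h2 := (hx (.inr r)).1
      simp only [hg, Sum.elim_inl, Sum.elim_inr, neg_mul, Finset.sum_neg_distrib] at h1 h2
      linarith
    obtain ⟨μ, hμ0, hμv, hμc⟩ := (Motz.motzkin g).1 hno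
    have hc : ∑ y, μ y * (g y).c < 0 := by
      rcases hμc with h1 | ⟨-, y, hy, -⟩
      · exact h1
      · rcases y with r | r
        · exact hy.elim
        · exact hy.elim
    rw [Fintype.sum_sum_type] at hc
    simp only [hg, Sum.elim_inl, Sum.elim_inr] at hc
    have hpos : 0 < ∑ r, (μ (.inl r) - μ (.inr r)) * b r := by
      simp only [sub_mul, Finset.sum_sub_distrib]
      simp only [mul_neg, Finset.sum_neg_distrib] at hc
      linarith
    refine ⟨fun r => (∑ r, (μ (.inl r) - μ (.inr r)) * b r)⁻¹ * (μ (.inl r) - μ (.inr r)),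
      fun i => ?_, ?_⟩
    · have h1 := hμv i
      rw [Fintype.sum_sum_type] at h1
      simp only [hg, Sum.elim_inl, Sum.elim_inr, mul_neg, Finset.sum_neg_distrib] at h1
      simp only [mul_assoc]
      rw [← Finset.mul_sum]
      have h2 : ∑ r, (μ (.inl r) - μ (.inr r)) * a r i = 0 := by
        simp only [sub_mul, Finset.sum_sub_distrib]
        linarith
      rw [h2, mul_zero]
    · simp only [mul_assoc]
      rw [← Finset.mul_sum]
      exact inv_mul_cancel₀ hpos.ne'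
  · rintro ⟨w, h1, h2⟩ ⟨x, hx⟩
    have h3 : ∑ r, w r * b r = ∑ i, x i * ∑ r, w r * a r i := by
      simp only [← hx, Finset.mul_sum]
      rw [Finset.sum_comm]
      exact Finset.sum_congr rfl fun i _ => Finset.sum_congr rfl fun r _ => by ring
    simp only [h1, mul_zero, Finset.sum_const_zero] at h3
    rw [h3] at h2
    exact zero_ne_one h2

/-- a bit as a real number -/
def bit (b : Bool) : ℝ := if b = true then 1 else 0

section

variable {N m l : ℕ}

/-- the conditions on the multipliers, as equations -/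
def LamE (d : Fin N → Fin l → ℝ) (S T : Fin N → Bool) (lam : Fin N → ℝ) : Prop :=
  (∀ t, (1 - bit (S t)) * lam t = 0) ∧ (∀ t, bit (T t) * lam t = bit (T t)) ∧
    ∀ q, ∑ t, lam t * d t q = 0

/-- a certificate that there are no multipliers -/
def LamC (d : Fin N → Fin l → ℝ) (S T : Fin N → Bool) (w1 w2 : Fin N → ℝ) (w3 : Fin l → ℝ) : Prop :=
  (∀ t, (1 - bit (S t)) * w1 t + bit (T t) * w2 t + ∑ q, w3 q * d t q = 0) ∧
    ∑ t, bit (T t) * w2 t = 1

/-- the conditions on a ray -/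
def RayE (c : Fin N → Fin (m + 1) → ℝ) (lam : Fin (m + 1) → Fin N → ℝ)
    (C : Fin (m + 1) → Fin (m + 1) → Bool) (p n : Bool) (e : Fin (m + 1) → ℝ) : Prop :=
  (∀ k : Fin m, ∑ i, (∑ t, lam k.castSucc t * c t i + bit (C k.castSucc i)) * e i = 0) ∧
    ∑ i, (∑ t, lam (Fin.last m) t * c t i + bit (C (Fin.last m) i)) * e i = bit p - bit n

/-- a certificate that there is no ray -/
def RayC (c : Fin N → Fin (m + 1) → ℝ) (lam : Fin (m + 1) → Fin N → ℝ)
    (C : Fin (m + 1) → Fin (m + 1) → Bool) (p n : Bool) (w : Fin (m + 1) → ℝ) : Prop :=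
  (∀ i, ∑ k, w k * (∑ t, lam k t * c t i + bit (C k i)) = 0) ∧
    w (Fin.last m) * (bit p - bit n) = 1

theorem lamE_iff (d : Fin N → Fin l → ℝ) (S T : Fin N → Bool) (lam : Fin N → ℝ) :
    Lam d S T lam ↔ LamE d S T lam := by
  refine and_congr (forall_congr' fun t => ?_) (and_congr (forall_congr' fun t => ?_) Iff.rfl)
  · cases S t <;> simp [bit]
  · cases T t <;> simp [bit]

theorem lamC_iff (d : Fin N → Fin l → ℝ) (S T : Fin N → Bool) :
    (¬ ∃ lam, Lam d S T lam) ↔ ∃ w1 w2 w3, LamC d S T w1 w2 w3 := by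
  classical
  have h0 : (∃ lam, Lam d S T lam) ↔ ∃ lam : Fin N → ℝ, ∀ r : Fin N ⊕ (Fin N ⊕ Fin l),
      ∑ t, (Sum.elim (fun t' t => if t = t' then 1 - bit (S t) else 0)
        (Sum.elim (fun t' t => if t = t' then bit (T t) else 0) fun q t => d t q) :
          Fin N ⊕ (Fin N ⊕ Fin l) → Fin N → ℝ) r t * lam t =
        (Sum.elim (fun _ => 0) (Sum.elim (fun t => bit (T t)) fun _ => 0) :
          Fin N ⊕ (Fin N ⊕ Fin l) → ℝ) r := by
    refine exists_congr fun lam => ?_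
    rw [lamE_iff]
    constructor
    · rintro ⟨h1, h2, h3⟩ (t | t | q)
      · simpa only [Sum.elim_inl, ite_mul, zero_mul, Finset.sum_ite_eq', Finset.mem_univ,
          if_true] using h1 t
      · simpa only [Sum.elim_inl, Sum.elim_inr, ite_mul, zero_mul, Finset.sum_ite_eq',
          Finset.mem_univ, if_true] using h2 t
      · simp only [Sum.elim_inr]
        rw [← h3 q]
        exact Finset.sum_congr rfl fun t _ => mul_comm _ _
    · intro h
      refine ⟨fun t => ?_, fun t => ?_, fun q => ?_⟩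
      · simpa only [Sum.elim_inl, ite_mul, zero_mul, Finset.sum_ite_eq', Finset.mem_univ,
          if_true] using h (.inl t)
      · simpa only [Sum.elim_inl, Sum.elim_inr, ite_mul, zero_mul, Finset.sum_ite_eq',
          Finset.mem_univ, if_true] using h (.inr (.inl t))
      · have h1 := h (.inr (.inr q))
        simp only [Sum.elim_inr] at h1
        rw [← h1]
        exact Finset.sum_congr rfl fun t _ => mul_comm _ _
  rw [h0, fredholm]
  have e1 : ∀ (w : Fin N ⊕ (Fin N ⊕ Fin l) → ℝ) (t : Fin N),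
      ∑ r, w r * (Sum.elim (fun t' t => if t = t' then 1 - bit (S t) else 0)
        (Sum.elim (fun t' t => if t = t' then bit (T t) else 0) fun q t => d t q) :
          Fin N ⊕ (Fin N ⊕ Fin l) → Fin N → ℝ) r t =
      (1 - bit (S t)) * w (.inl t) + bit (T t) * w (.inr (.inl t)) +
        ∑ q, w (.inr (.inr q)) * d t q := by
    intro w t
    rw [Fintype.sum_sum_type, Fintype.sum_sum_type]
    simp only [Sum.elim_inl, Sum.elim_inr, mul_ite, mul_zero, Finset.sum_ite_eq, Finset.mem_univ,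
      if_true]
    ring
  have e2 : ∀ (w : Fin N ⊕ (Fin N ⊕ Fin l) → ℝ),
      ∑ r, w r * (Sum.elim (fun _ => 0) (Sum.elim (fun t => bit (T t)) fun _ => 0) :
          Fin N ⊕ (Fin N ⊕ Fin l) → ℝ) r = ∑ t, bit (T t) * w (.inr (.inl t)) := by
    intro w
    rw [Fintype.sum_sum_type, Fintype.sum_sum_type]
    simp only [Sum.elim_inl, Sum.elim_inr, mul_zero, Finset.sum_const_zero, zero_add, add_zero]
    exact Finset.sum_congr rfl fun t _ => mul_comm _ _
  constructor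
  · rintro ⟨w, h1, h2⟩
    exact ⟨fun t => w (.inl t), fun t => w (.inr (.inl t)), fun q => w (.inr (.inr q)),
      fun t => by rw [← e1]; exact h1 t, by rw [← e2]; exact h2⟩
  · rintro ⟨w1, w2, w3, h1, h2⟩
    refine ⟨Sum.elim w1 (Sum.elim w2 w3), fun t => ?_, ?_⟩
    · rw [e1]; exact h1 t
    · rw [e2]; exact h2

theorem rayE_iff (c : Fin N → Fin (m + 1) → ℝ) (lam : Fin (m + 1) → Fin N → ℝ)
    (C : Fin (m + 1) → Fin (m + 1) → Bool) (p n : Bool) (e : Fin (m + 1) → ℝ) :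
    Ray c lam C p n e ↔ RayE c lam C p n e := by
  constructor
  · intro h
    refine ⟨fun k => ?_, ?_⟩
    · have := h k.castSucc
      rw [rhs, if_neg (Fin.castSucc_lt_last k).ne] at this
      exact this
    · have := h (Fin.last m)
      rw [rhs, if_pos rfl] at this
      exact this
  · rintro ⟨h1, h2⟩ k
    refine Fin.lastCases ?_ (fun k => ?_) k
    · rw [rhs, if_pos rfl]; exact h2
    · rw [rhs, if_neg (Fin.castSucc_lt_last k).ne]; exact h1 k

theorem rayC_iff (c : Fin N → Fin (m + 1) → ℝ) (lam : Fin (m + 1) → Fin N → ℝ)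
    (C : Fin (m + 1) → Fin (m + 1) → Bool) (p n : Bool) :
    (¬ ∃ e, Ray c lam C p n e) ↔ ∃ w, RayC c lam C p n w := by
  classical
  unfold Ray
  rw [fredholm]
  refine exists_congr fun w => and_congr Iff.rfl ?_
  have h1 : ∑ k, w k * rhs p n k = w (Fin.last m) * (bit p - bit n) := by
    rw [Finset.sum_eq_single (Fin.last m)]
    · rw [rhs, if_pos rfl]; rfl
    · intro k _ hk
      rw [rhs, if_neg hk, mul_zero]
    · intro h
      exact (h (Finset.mem_univ _)).elim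
  rw [h1]

/-- the statement for one code, in existential form -/
def ElE (c : Fin N → Fin (m + 1) → ℝ) (d : Fin N → Fin l → ℝ)
    (S T : Fin (m + 1) → Fin (m + 1) → Fin N → Bool)
    (C : Fin (m + 1) → Fin (m + 1) → Fin (m + 1) → Bool) (p n : Fin (m + 1) → Bool)
    (P : (Fin N → ℝ) → Prop) (w1 w2 : Fin N → ℝ) (w3 : Fin l → ℝ) (wr : Fin (m + 1) → ℝ)
    (lam : Fin (m + 1) → Fin (m + 1) → Fin N → ℝ) (e : Fin (m + 1) → Fin (m + 1) → ℝ)
    (Y : Fin m → ℝ) (Z : Fin l → ℝ) : Prop :=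
  (∃ j k, LamC d (S j k) (T j k) w1 w2 w3) ∨
    ((∀ j k, LamE d (S j k) (T j k) (lam j k)) ∧
      ((∃ j, RayC c (lam j) (C j) (p j) (n j) wr) ∨
        ((∀ j, RayE c (lam j) (C j) (p j) (n j) (e j)) ∧
          (∑ j, e j (Fin.last m) ≤ 0 ∨
            ((∀ i, (∑ j, e j (Fin.last m)) * Y i = ∑ j, e j i.castSucc) ∧ P (alp c d Y Z))))))

theorem el_iff (c : Fin N → Fin (m + 1) → ℝ) (d : Fin N → Fin l → ℝ)
    (S T : Fin (m + 1) → Fin (m + 1) → Fin N → Bool)
    (C : Fin (m + 1) → Fin (m + 1) → Fin (m + 1) → Bool) (p n : Fin (m + 1) → Bool)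
    (P : (Fin N → ℝ) → Prop) :
    El c d S T C p n P ↔ ∃ w1 w2 w3 wr lam e Y Z, ElE c d S T C p n P w1 w2 w3 wr lam e Y Z := by
  constructor
  · rintro (⟨j, k, h⟩ | ⟨lam, hlam, h⟩)
    · obtain ⟨w1, w2, w3, h1⟩ := (lamC_iff _ _ _).1 h
      exact ⟨w1, w2, w3, 0, 0, 0, 0, 0, Or.inl ⟨j, k, h1⟩⟩
    · have hlam' : ∀ j k, LamE d (S j k) (T j k) (lam j k) := fun j k =>
        (lamE_iff _ _ _ _).1 (hlam j k)
      rcases h with ⟨j, h⟩ | ⟨e, he, h⟩
      · obtain ⟨w, h1⟩ := (rayC_iff _ _ _ _ _).1 h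
        exact ⟨0, 0, 0, w, lam, 0, 0, 0, Or.inr ⟨hlam', Or.inl ⟨j, h1⟩⟩⟩
      · have he' : ∀ j, RayE c (lam j) (C j) (p j) (n j) (e j) := fun j =>
          (rayE_iff _ _ _ _ _ _).1 (he j)
        rcases h with h | ⟨Y, Z, h1, h2⟩
        · exact ⟨0, 0, 0, 0, lam, e, 0, 0, Or.inr ⟨hlam', Or.inr ⟨he', Or.inl h⟩⟩⟩
        · exact ⟨0, 0, 0, 0, lam, e, Y, Z, Or.inr ⟨hlam', Or.inr ⟨he', Or.inr ⟨h1, h2⟩⟩⟩⟩
  · rintro ⟨w1, w2, w3, wr, lam, e, Y, Z, ⟨j, k, h⟩ | ⟨hlam, h⟩⟩
    · exact Or.inl ⟨j, k, (lamC_iff _ _ _).2 ⟨w1, w2, w3, h⟩⟩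
    · refine Or.inr ⟨lam, fun j k => (lamE_iff _ _ _ _).2 (hlam j k), ?_⟩
      rcases h with ⟨j, h⟩ | ⟨he, h⟩
      · exact Or.inl ⟨j, (rayC_iff _ _ _ _ _).2 ⟨wr, h⟩⟩
      · refine Or.inr ⟨e, fun j => (rayE_iff _ _ _ _ _ _).2 (he j), ?_⟩
        rcases h with h | ⟨h1, h2⟩
        · exact Or.inl h
        · exact Or.inr ⟨Y, Z, h1, h2⟩

/-- **Test points, existential form.** -/
theorem test_iff' (c : Fin N → Fin (m + 1) → ℝ) (d : Fin N → Fin l → ℝ) (P : (Fin N → ℝ) → Prop)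
    (hP : ∀ v v' : Fin N → ℝ, (∀ t, SE (v t) (v' t)) → P v → P v') :
    (∀ Y : Fin m → ℝ, ∃ Z : Fin l → ℝ, P (alp c d Y Z)) ↔
      ∀ (S T : Fin (m + 1) → Fin (m + 1) → Fin N → Bool)
        (C : Fin (m + 1) → Fin (m + 1) → Fin (m + 1) → Bool) (p n : Fin (m + 1) → Bool),
        ∃ w1 w2 w3 wr lam e Y Z, ElE c d S T C p n P w1 w2 w3 wr lam e Y Z := by
  rw [test_iff c d P hP]
  simp only [el_iff]

end

end Pool.Agent.Lib.MP_77492d_lc.Cf
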