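import Pool.Agent.Lib.MP_77492d_lc.Motz35

/-!
# Conformal decomposition into elementary vectors, and test points for linear universal blocks
-/

set_option autoImplicit false

namespace Pool.Agent.Lib.MP_77492d_lc.Cf

open Module

section conf

variable {V : Type} [AddCommGroup V] [Module ℝ V] {ι : Type}

/-- the support of `v` is contained in the support of `u` -/
def Sb (f : ι → V →ₗ[ℝ] ℝ) (v u : V) : Prop := ∀ i, f i u = 0 → f i v = 0

/-- `v` is conformal to `u` -/
def Conf (f : ι → V →ₗ[ℝ] ℝ) (v u : V) : Prop := ∀ i, 0 ≤ f i v * f i u ∧ (f i u = 0 → f i v = 0)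

/-- elementary vectors -/
def Elem (f : ι → V →ₗ[ℝ] ℝ) (e : V) : Prop := e ≠ 0 ∧ ∀ v, Sb f v e → ∃ r : ℝ, v = r • e

theorem Conf.refl (f : ι → V →ₗ[ℝ] ℝ) (u : V) : Conf f u u :=
  fun _ => ⟨mul_self_nonneg _, fun h => h⟩

theorem Conf.trans {f : ι → V →ₗ[ℝ] ℝ} {w v u : V} (h : Conf f w v) (h' : Conf f v u) :
    Conf f w u := by
  intro i
  refine ⟨?_, fun hu => (h i).2 ((h' i).2 hu)⟩
  by_cases hv : f i v = 0
  · rw [(h i).2 hv, zero_mul]
  · have h1 := mul_nonneg (h i).1 (h' i).1
    have h2 : f i w * f i v * (f i v * f i u) = (f i w * f i u) * (f i v) ^ 2 := by ring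
    rw [h2] at h1
    by_contra hc
    push Not at hc
    have h3 : 0 < (f i v) ^ 2 := by positivity
    nlinarith

/-- the space of the vectors with support in the support of `u` -/
def Wu (f : ι → V →ₗ[ℝ] ℝ) (u : V) : Submodule ℝ V where
  carrier := {v | Sb f v u}
  zero_mem' := fun i _ => map_zero _
  add_mem' := fun {a b} ha hb i h => by rw [map_add, ha i h, hb i h, add_zero]
  smul_mem' := fun r v hv i h => by rw [map_smul, hv i h, smul_zero]

theorem mem_Wu {f : ι → V →ₗ[ℝ] ℝ} {u v : V} : v ∈ Wu f u ↔ Sb f v u := Iff.rfl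

variable [Finite ι]

theorem exists_elem (f : ι → V →ₗ[ℝ] ℝ) (hsep : ∀ v, (∀ i, f i v = 0) → v = 0) (u : V)
    (hu : u ≠ 0) : ∃ e, Elem f e ∧ Conf f e u := by
  classical
  obtain ⟨e, ⟨he0, heu⟩, hmin⟩ := WellFounded.has_min
    (measure (fun e : V => ({i | f i e ≠ 0} : Set ι).ncard)).wf {e | e ≠ 0 ∧ Conf f e u}
    ⟨u, hu, Conf.refl f u⟩
  refine ⟨e, ⟨he0, fun v hv => ?_⟩, heu⟩
  by_contra hno
  push Not at hno
  -- a vector with a positive ratio
  have key : ∀ w : V, Sb f w e → (∀ r : ℝ, w ≠ r • e) → (∃ i, 0 < f i w * f i e) → False := by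
    intro w hw hnw hpos
    obtain ⟨i0, hi0, hi0min⟩ := Set.exists_min_image {i | 0 < f i w * f i e}
      (fun i => f i e / f i w) (Set.toFinite _) hpos
    simp only [Set.mem_setOf_eq] at hi0 hi0min
    have hw0 : f i0 w ≠ 0 := fun h => by rw [h, zero_mul] at hi0; exact lt_irrefl _ hi0
    have he00 : f i0 e ≠ 0 := fun h => by rw [h, mul_zero] at hi0; exact lt_irrefl _ hi0
    set t := f i0 e / f i0 w with ht
    have htpos : 0 < t := by
      rw [ht, div_eq_mul_inv]
      have h1 : f i0 e * (f i0 w)⁻¹ = (f i0 w * f i0 e) * ((f i0 w)⁻¹) ^ 2 := by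
        field_simp
      rw [h1]
      positivity
    set e' := e - t • w with he'
    have hconf : Conf f e' e := by
      intro i
      have h1 : f i e' = f i e - t * f i w := by rw [he', map_sub, map_smul, smul_eq_mul]
      refine ⟨?_, fun h => by rw [h1, h, hw i h]; ring⟩
      rw [h1]
      by_cases hi : 0 < f i w * f i e
      · have h2 := hi0min i hi
        have hwi : f i w ≠ 0 := fun h => by rw [h, zero_mul] at hi; exact lt_irrefl _ hi
        have h3 : t * (f i w * f i e) ≤ f i e / f i w * (f i w * f i e) :=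
          mul_le_mul_of_nonneg_right h2 hi.le
        have h4 : f i e / f i w * (f i w * f i e) = f i e ^ 2 := by field_simp
        nlinarith
      · push Not at hi
        nlinarith [mul_self_nonneg (f i e), mul_nonpos_of_nonneg_of_nonpos htpos.le hi]
    have hne : e' ≠ 0 := by
      intro h
      refine hnw t⁻¹ ?_
      have h1 : e = t • w := sub_eq_zero.1 h
      rw [h1, smul_smul, inv_mul_cancel₀ htpos.ne', one_smul]
    refine hmin e' ⟨hne, hconf.trans heu⟩ ?_
    change ({i | f i e' ≠ 0} : Set ι).ncard < ({i | f i e ≠ 0} : Set ι).ncard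
    refine Set.ncard_lt_ncard ?_ (Set.toFinite _)
    refine ⟨fun i hi h => hi ((hconf i).2 h), fun h => ?_⟩
    have h1 : i0 ∈ {i | f i e ≠ 0} := he00
    have h2 := h h1
    apply h2
    rw [he', map_sub, map_smul, smul_eq_mul, ht]
    field_simp
    ring
  have hv0 : v ≠ 0 := fun h => hno 0 (by rw [h, zero_smul])
  have hex : ∃ i, f i v ≠ 0 := by
    by_contra h
    push Not at h
    exact hv0 (hsep v h)
  obtain ⟨i, hi⟩ := hex
  have hei : f i e ≠ 0 := fun h => hi (hv i h)
  rcases lt_or_gt_of_ne (mul_ne_zero hi hei) with h | h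
  · refine key (-v) (fun i hi => by rw [map_neg, hv i hi, neg_zero]) (fun r hr => ?_) ⟨i, ?_⟩
    · exact hno (-r) (by rw [neg_smul, ← hr, neg_neg])
    · rw [map_neg]; linarith
  · exact key v hv hno ⟨i, h⟩

theorem Elem.smul {f : ι → V →ₗ[ℝ] ℝ} {e : V} (h : Elem f e) {s : ℝ} (hs : s ≠ 0) :
    Elem f (s • e) := by
  refine ⟨smul_ne_zero hs h.1, fun v hv => ?_⟩
  obtain ⟨r, hr⟩ := h.2 v fun i hi => hv i (by rw [map_smul, hi, smul_zero])
  exact ⟨r * s⁻¹, by rw [smul_smul, mul_assoc, inv_mul_cancel₀ hs, mul_one, hr]⟩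

/-- conformal decomposition -/
theorem decomp [FiniteDimensional ℝ V] (f : ι → V →ₗ[ℝ] ℝ)
    (hsep : ∀ v, (∀ i, f i v = 0) → v = 0) (n : ℕ) : ∀ u : V, finrank ℝ (Wu f u) ≤ n →
    ∃ e : Fin n → V, (∀ j, e j = 0 ∨ Elem f (e j)) ∧ (∀ j, Conf f (e j) u) ∧ ∑ j, e j = u := by
  classical
  induction n with
  | zero =>
    intro u hu
    have h1 : Wu f u = ⊥ := Submodule.finrank_eq_zero.1 (Nat.le_zero.1 hu)
    have h2 : u ∈ Wu f u := fun i h => h
    rw [h1, Submodule.mem_bot] at h2
    exact ⟨Fin.elim0, fun j => j.elim0, fun j => j.elim0, by rw [h2]; simp⟩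
  | succ n ih =>
    intro u hu
    by_cases hu0 : u = 0
    · refine ⟨fun _ => 0, fun _ => Or.inl rfl, fun _ i => ⟨by simp, fun _ => map_zero _⟩, by simp [hu0]⟩
    · obtain ⟨e0, he0, hc0⟩ := exists_elem f hsep u hu0
      have hex : ({i | f i e0 ≠ 0} : Set ι).Nonempty := by
        by_contra h
        rw [Set.not_nonempty_iff_eq_empty] at h
        refine he0.1 (hsep e0 fun i => ?_)
        by_contra hi
        have : i ∈ ({i | f i e0 ≠ 0} : Set ι) := hi
        rw [h] at this
        exact this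
      obtain ⟨i1, hi1, hmin⟩ := Set.exists_min_image {i | f i e0 ≠ 0}
        (fun i => f i u / f i e0) (Set.toFinite _) hex
      simp only [Set.mem_setOf_eq] at hi1 hmin
      have hpos : ∀ i, f i e0 ≠ 0 → 0 < f i e0 * f i u := by
        intro i hi
        refine lt_of_le_of_ne (hc0 i).1 (Ne.symm (mul_ne_zero hi fun h => hi ((hc0 i).2 h)))
      set s := f i1 u / f i1 e0 with hs
      have hspos : 0 < s := by
        have h1 : s = (f i1 e0 * f i1 u) * ((f i1 e0)⁻¹) ^ 2 := by
          rw [hs]; field_simp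
        rw [h1]
        have := hpos i1 hi1
        positivity
      set u' := u - s • e0 with hu'
      have hfu' : ∀ i, f i u' = f i u - s * f i e0 := fun i => by
        rw [hu', map_sub, map_smul, smul_eq_mul]
      have hconf : Conf f u' u := by
        intro i
        refine ⟨?_, fun h => by rw [hfu', h, (hc0 i).2 h]; ring⟩
        rw [hfu']
        by_cases hi : f i e0 = 0
        · rw [hi, mul_zero, sub_zero]; exact mul_self_nonneg _
        · have h2 := hmin i hi
          have h3 : s * (f i e0 * f i u) ≤ f i u / f i e0 * (f i e0 * f i u) :=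
            mul_le_mul_of_nonneg_right h2 (hpos i hi).le
          have h4 : f i u / f i e0 * (f i e0 * f i u) = f i u ^ 2 := by field_simp
          nlinarith
      have hz : f i1 u' = 0 := by rw [hfu', hs]; field_simp; ring
      have hlt : Wu f u' < Wu f u := by
        refine lt_of_le_of_ne (fun v hv i h => hv i ((hconf i).2 h)) fun h => ?_
        have h1 : e0 ∈ Wu f u := fun i h => (hc0 i).2 h
        rw [← h] at h1
        exact hi1 (h1 i1 hz)
      have hfr : finrank ℝ (Wu f u') ≤ n := by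
        have := Submodule.finrank_lt_finrank_of_lt hlt
        omega
      obtain ⟨e, h1, h2, h3⟩ := ih u' hfr
      refine ⟨Fin.cons (s • e0) e, fun j => ?_, fun j => ?_, ?_⟩
      · refine Fin.cases ?_ (fun j => ?_) j
        · exact Or.inr (he0.smul hspos.ne')
        · rw [Fin.cons_succ]; exact h1 j
      · refine Fin.cases ?_ (fun j => ?_) j
        · intro i
          rw [Fin.cons_zero, map_smul, smul_eq_mul]
          refine ⟨?_, fun h => by rw [(hc0 i).2 h, mul_zero]⟩
          rw [mul_assoc]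
          exact mul_nonneg hspos.le (hc0 i).1
        · rw [Fin.cons_succ]; exact (h2 j).trans hconf
      · rw [Fin.sum_univ_succ, Fin.cons_zero]
        simp only [Fin.cons_succ]
        rw [h3, hu']
        abel

end conf

end Pool.Agent.Lib.MP_77492d_lc.Cf
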