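import Pool.Agent.Lib.PTime.TM
import Pool.Agent.Lib.PTime.Fin

set_option autoImplicit false

/-!
# The VC dimension of semialgebraic families: definitions

Quantifier-free formulas in the language of ordered fields, instances of VC-SEMIALG, sentences
with three blocks of quantifiers, their codes (words over a finite alphabet) and polynomial time
many-one reductions (Mathlib's `TM2` machines).
-/

namespace Pool.Agent.Lib.MP_77492d_lc

/-- Terms with variables from `V`: integer constants, variables, sums and products. -/
inductive Term (V : Type) : Type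
  | const (c : ℤ)
  | var (v : V)
  | add (s t : Term V)
  | mul (s t : Term V)

/-- Quantifier-free formulas with variables from `V` in the language of ordered fields. -/
inductive Form (V : Type) : Type
  | eq (s t : Term V)
  | lt (s t : Term V)
  | not (A : Form V)
  | and (A B : Form V)
  | or (A B : Form V)

/-- The value of a term. -/
def Term.val {V : Type} (a : V → ℝ) : Term V → ℝ
  | .const c => (c : ℝ)
  | .var v => a v
  | .add s t => s.val a + t.val a
  | .mul s t => s.val a * t.val a

/-- The truth of a formula over the real numbers. -/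
def Form.Holds {V : Type} (a : V → ℝ) : Form V → Prop
  | .eq s t => s.val a = t.val a
  | .lt s t => s.val a < t.val a
  | .not A => ¬ A.Holds a
  | .and A B => A.Holds a ∧ B.Holds a
  | .or A B => A.Holds a ∨ B.Holds a

/-- The letters of the codes. -/
inductive Letter : Type
  | d1 | d2 | d3 | sX | eX | sY | eY | sZ | eZ | pos | neg | b0 | b1 | stop
  | plus | times | eq | lt | not | and | or
  deriving DecidableEq, Inhabited

instance : Fintype Letter where
  elems := {.d1, .d2, .d3, .sX, .eX, .sY, .eY, .sZ, .eZ, .pos, .neg, .b0, .b1, .stop,
    .plus, .times, .eq, .lt, .not, .and, .or}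
  complete x := by cases x <;> simp

/-- The code of an integer: its sign and its binary digits. -/
def intCode (c : ℤ) : List Letter :=
  (if 0 ≤ c then Letter.pos else Letter.neg) ::
    ((c.natAbs.bits.map fun b => if b then Letter.b1 else Letter.b0) ++ [Letter.stop])

/-- The code of a term (Polish notation), given the codes of the variables. -/
def Term.code {V : Type} (cv : V → List Letter) : Term V → List Letter
  | .const c => intCode c
  | .var v => cv v
  | .add s t => Letter.plus :: (s.code cv ++ t.code cv)
  | .mul s t => Letter.times :: (s.code cv ++ t.code cv)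

/-- The code of a formula (Polish notation), given the codes of the variables. -/
def Form.code {V : Type} (cv : V → List Letter) : Form V → List Letter
  | .eq s t => Letter.eq :: (s.code cv ++ t.code cv)
  | .lt s t => Letter.lt :: (s.code cv ++ t.code cv)
  | .not A => Letter.not :: A.code cv
  | .and A B => Letter.and :: (A.code cv ++ B.code cv)
  | .or A B => Letter.or :: (A.code cv ++ B.code cv)

/-- The code of the variable with index `i` of the first block. -/
def vX (i : ℕ) : List Letter := List.replicate i Letter.sX ++ [Letter.eX]

/-- The code of the variable with index `i` of the second block. -/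
def vY (i : ℕ) : List Letter := List.replicate i Letter.sY ++ [Letter.eY]

/-- The code of the variable with index `i` of the third block. -/
def vZ (i : ℕ) : List Letter := List.replicate i Letter.sZ ++ [Letter.eZ]

/-- The code of three numbers, in unary. -/
def dims (a b c : ℕ) : List Letter :=
  List.replicate a Letter.d1 ++ List.replicate b Letter.d2 ++ List.replicate c Letter.d3

/-- An instance of VC-SEMIALG: a quantifier-free formula `φ(x, y)` with `x` in `ℝ^n` and `y` in
`ℝ^m`, and a positive integer `k`. -/
structure VCInst where
  /-- the dimension of the space of points -/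
  n : ℕ
  /-- the dimension of the space of parameters -/
  m : ℕ
  /-- the number `k` of the question -/
  k : ℕ
  pos : 0 < k
  /-- the formula -/
  form : Form (Fin n ⊕ Fin m)

/-- The set with parameter `y` of the family. -/
def VCInst.S (I : VCInst) (y : Fin I.m → ℝ) : Set (Fin I.n → ℝ) :=
  {x | I.form.Holds (Sum.elim x y)}

/-- `P` is shattered by the family. -/
def VCInst.Shattered (I : VCInst) (P : Finset (Fin I.n → ℝ)) : Prop :=
  ∀ P' ⊆ P, ∃ y, I.S y ∩ (P : Set (Fin I.n → ℝ)) = (P' : Set (Fin I.n → ℝ))

/-- The answer is yes: the VC dimension of the family is at least `k`. -/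
def VCInst.Yes (I : VCInst) : Prop :=
  ∃ P : Finset (Fin I.n → ℝ), P.card = I.k ∧ I.Shattered P

/-- The code of an instance: `n`, `m`, `k` in unary, and the formula. -/
def VCInst.code (I : VCInst) : List Letter :=
  dims I.n I.m I.k ++ I.form.code (Sum.elim (fun i : Fin I.n => vX i) (fun j : Fin I.m => vY j))

/-- The matrix of a sentence with three blocks of `n`, `m` and `l` variables. -/
structure Sent where
  /-- the length of the first block -/
  n : ℕ
  /-- the length of the second block -/
  m : ℕ
  /-- the length of the third block -/
  l : ℕ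
  /-- the formula -/
  form : Form (Fin n ⊕ Fin m ⊕ Fin l)

/-- The sentence `∃ X ∈ ℝ^n, ∀ Y ∈ ℝ^m, ∃ Z ∈ ℝ^l, Φ(X, Y, Z)` is true. -/
def Sent.TrueR (I : Sent) : Prop :=
  ∃ X : Fin I.n → ℝ, ∀ Y : Fin I.m → ℝ, ∃ Z : Fin I.l → ℝ,
    I.form.Holds (Sum.elim X (Sum.elim Y Z))

/-- The sentence `∃ X ∈ ℝ^n, ∀ Y ∈ {0, 1}^m, ∃ Z ∈ ℝ^l, Φ(X, Y, Z)` is true. -/
def Sent.TrueB (I : Sent) : Prop :=
  ∃ X : Fin I.n → ℝ, ∀ Y : Fin I.m → ℝ, (∀ j, Y j = 0 ∨ Y j = 1) → ∃ Z : Fin I.l → ℝ,
    I.form.Holds (Sum.elim X (Sum.elim Y Z))

/-- The code of a sentence: `n`, `m`, `l` in unary, and the formula. -/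
def Sent.code (I : Sent) : List Letter :=
  dims I.n I.m I.l ++ I.form.code (Sum.elim (fun i : Fin I.n => vX i)
    (Sum.elim (fun j : Fin I.m => vY j) (fun h : Fin I.l => vZ h)))

/-- The problem `A` (a set of instances of type `α` with code `ca`) reduces to the problem `B` by
a many-one reduction computed in polynomial time by a Turing machine. -/
def Reduces {α β : Type} (ca : α → List Letter) (A : α → Prop) (cb : β → List Letter)
    (B : β → Prop) : Prop :=
  ∃ f : α → β, Nonempty (Turing.TM2ComputableInPolyTime ca cb f) ∧ ∀ a, A a ↔ B (f a)

end Pool.Agent.Lib.MP_77492d_lc
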