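import Mathlib

/-!
# Semialgebraic families and sentences with a Boolean universal block

`Tm V` and `Fml V` are the terms and the quantifier-free formulas in the language of ordered fields
with integer constants and variables in `V`.
-/

set_option autoImplicit false

namespace Pool.Agent.Lib.MP_77492d_lc

/-- Terms: variables, integer constants, sums and products. -/
inductive Tm (V : Type) : Type
  | var (v : V) : Tm V
  | const (z : ℤ) : Tm V
  | add (s t : Tm V) : Tm V
  | mul (s t : Tm V) : Tm V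

/-- Quantifier-free formulas. -/
inductive Fml (V : Type) : Type
  | eq (s t : Tm V) : Fml V
  | lt (s t : Tm V) : Fml V
  | not (φ : Fml V) : Fml V
  | and (φ ψ : Fml V) : Fml V
  | or (φ ψ : Fml V) : Fml V

/-- The value of a term. -/
def Tm.val {V : Type} (ρ : V → ℝ) : Tm V → ℝ
  | .var v => ρ v
  | .const z => z
  | .add s t => s.val ρ + t.val ρ
  | .mul s t => s.val ρ * t.val ρ

/-- The truth of a formula. -/
def Fml.Holds {V : Type} (ρ : V → ℝ) : Fml V → Prop
  | .eq s t => s.val ρ = t.val ρ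
  | .lt s t => s.val ρ < t.val ρ
  | .not φ => ¬ φ.Holds ρ
  | .and φ ψ => φ.Holds ρ ∧ ψ.Holds ρ
  | .or φ ψ => φ.Holds ρ ∨ ψ.Holds ρ

/-- The size of a term: the number of its symbols, where a constant `z` counts for one symbol and
the number of binary digits of `|z|`. -/
def Tm.size {V : Type} : Tm V → ℕ
  | .var _ => 1
  | .const z => z.natAbs.size + 1
  | .add s t => s.size + t.size + 1
  | .mul s t => s.size + t.size + 1

/-- The size of a formula. -/
def Fml.size {V : Type} : Fml V → ℕ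
  | .eq s t => s.size + t.size + 1
  | .lt s t => s.size + t.size + 1
  | .not φ => φ.size + 1
  | .and φ ψ => φ.size + ψ.size + 1
  | .or φ ψ => φ.size + ψ.size + 1

/-- `φ (x, y)` is true. -/
def Fml.At {n m : ℕ} (φ : Fml (Fin n ⊕ Fin m)) (x : Fin n → ℝ) (y : Fin m → ℝ) : Prop :=
  φ.Holds (Sum.elim x y)

/-- The family of the sets `{x | φ (x, y)}` has Vapnik-Chervonenkis dimension at least `k`: some
`k`-point set `P` is shattered. -/
def VCGe {n m : ℕ} (φ : Fml (Fin n ⊕ Fin m)) (k : ℕ) : Prop :=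
  ∃ P : Finset (Fin n → ℝ), P.card = k ∧
    ∀ P' ⊆ P, ∃ y : Fin m → ℝ, ∀ x ∈ P, φ.At x y ↔ x ∈ P'

/-- The sentence `∃ X ∈ ℝ ^ a, ∀ b ∈ {0, 1} ^ k, ∃ Z ∈ ℝ ^ c, Φ (X, b, Z)`. -/
def EBE {a k c : ℕ} (Φ : Fml (Fin a ⊕ (Fin k ⊕ Fin c))) : Prop :=
  ∃ X : Fin a → ℝ, ∀ b : Fin k → Bool, ∃ Z : Fin c → ℝ,
    Φ.Holds (Sum.elim X (Sum.elim (fun i => if b i then 1 else 0) Z))

/-! ### Syntax -/

/-- renaming of variables in terms -/
def Tm.map {V W : Type} (f : V → W) : Tm V → Tm W
  | .var v => .var (f v)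
  | .const z => .const z
  | .add s t => .add (s.map f) (t.map f)
  | .mul s t => .mul (s.map f) (t.map f)

/-- renaming of variables in formulas -/
def Fml.map {V W : Type} (f : V → W) : Fml V → Fml W
  | .eq s t => .eq (s.map f) (t.map f)
  | .lt s t => .lt (s.map f) (t.map f)
  | .not φ => .not (φ.map f)
  | .and φ ψ => .and (φ.map f) (ψ.map f)
  | .or φ ψ => .or (φ.map f) (ψ.map f)

theorem Tm.val_map {V W : Type} (f : V → W) (ρ : W → ℝ) (t : Tm V) :
    (t.map f).val ρ = t.val (ρ ∘ f) := by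
  induction t with
  | var v => rfl
  | const z => rfl
  | add s t hs ht => simp only [Tm.map, Tm.val, hs, ht]
  | mul s t hs ht => simp only [Tm.map, Tm.val, hs, ht]

theorem Fml.holds_map {V W : Type} (f : V → W) (ρ : W → ℝ) (φ : Fml V) :
    (φ.map f).Holds ρ ↔ φ.Holds (ρ ∘ f) := by
  induction φ with
  | eq s t => simp only [Fml.map, Fml.Holds, Tm.val_map]
  | lt s t => simp only [Fml.map, Fml.Holds, Tm.val_map]
  | not φ h => simp only [Fml.map, Fml.Holds, h]
  | and φ ψ h1 h2 => simp only [Fml.map, Fml.Holds, h1, h2]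
  | or φ ψ h1 h2 => simp only [Fml.map, Fml.Holds, h1, h2]

theorem Tm.size_map {V W : Type} (f : V → W) (t : Tm V) : (t.map f).size = t.size := by
  induction t with
  | var v => rfl
  | const z => rfl
  | add s t hs ht => simp only [Tm.map, Tm.size, hs, ht]
  | mul s t hs ht => simp only [Tm.map, Tm.size, hs, ht]

theorem Fml.size_map {V W : Type} (f : V → W) (φ : Fml V) : (φ.map f).size = φ.size := by
  induction φ with
  | eq s t => simp only [Fml.map, Fml.size, Tm.size_map]
  | lt s t => simp only [Fml.map, Fml.size, Tm.size_map]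
  | not φ h => simp only [Fml.map, Fml.size, h]
  | and φ ψ h1 h2 => simp only [Fml.map, Fml.size, h1, h2]
  | or φ ψ h1 h2 => simp only [Fml.map, Fml.size, h1, h2]

/-- the conjunction of a list of formulas -/
def bigAnd {V : Type} : List (Fml V) → Fml V
  | [] => .eq (.const 0) (.const 0)
  | φ :: l => .and φ (bigAnd l)

/-- the disjunction of a list of formulas -/
def bigOr {V : Type} : List (Fml V) → Fml V
  | [] => .lt (.const 0) (.const 0)
  | φ :: l => .or φ (bigOr l)

theorem holds_bigAnd {V : Type} (ρ : V → ℝ) (l : List (Fml V)) :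
    (bigAnd l).Holds ρ ↔ ∀ φ ∈ l, φ.Holds ρ := by
  induction l with
  | nil => simp [bigAnd, Fml.Holds]
  | cons φ l h => simp [bigAnd, Fml.Holds, h]

theorem holds_bigOr {V : Type} (ρ : V → ℝ) (l : List (Fml V)) :
    (bigOr l).Holds ρ ↔ ∃ φ ∈ l, φ.Holds ρ := by
  induction l with
  | nil => simp [bigOr, Fml.Holds]
  | cons φ l h => simp [bigOr, Fml.Holds, h]

theorem size_bigAnd {V : Type} (l : List (Fml V)) (C : ℕ) (h : ∀ φ ∈ l, φ.size ≤ C) :
    (bigAnd l).size ≤ l.length * (C + 1) + 3 := by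
  induction l with
  | nil => simp [bigAnd, Fml.size, Tm.size]
  | cons φ l ih =>
    have h1 := ih fun ψ hψ => h ψ (List.mem_cons_of_mem _ hψ)
    have h2 := h φ List.mem_cons_self
    simp only [bigAnd, Fml.size, List.length_cons]
    nlinarith

theorem size_bigOr {V : Type} (l : List (Fml V)) (C : ℕ) (h : ∀ φ ∈ l, φ.size ≤ C) :
    (bigOr l).size ≤ l.length * (C + 1) + 3 := by
  induction l with
  | nil => simp [bigOr, Fml.size, Tm.size]
  | cons φ l ih =>
    have h1 := ih fun ψ hψ => h ψ (List.mem_cons_of_mem _ hψ)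
    have h2 := h φ List.mem_cons_self
    simp only [bigOr, Fml.size, List.length_cons]
    nlinarith

/-! ### From families to sentences -/

/-- `⋀_i (φ (p_i, Z) ↔ b_i = 1)`, where `X = (p_1, …, p_k)` -/
def toEBE {n m : ℕ} (φ : Fml (Fin n ⊕ Fin m)) (k : ℕ) : Fml (Fin (k * n) ⊕ (Fin k ⊕ Fin m)) :=
  bigAnd ((List.finRange k).map fun i =>
    let φi : Fml (Fin (k * n) ⊕ (Fin k ⊕ Fin m)) :=
      φ.map (Sum.elim (fun l => .inl (finProdFinEquiv (i, l))) fun v => .inr (.inr v))
    let bi : Fml (Fin (k * n) ⊕ (Fin k ⊕ Fin m)) := .eq (.var (.inr (.inl i))) (.const 1)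
    .or (.and φi bi) (.and (.not φi) (.not bi)))

theorem holds_toEBE {n m : ℕ} (φ : Fml (Fin n ⊕ Fin m)) (k : ℕ) (X : Fin (k * n) → ℝ)
    (b : Fin k → Bool) (Z : Fin m → ℝ) :
    (toEBE φ k).Holds (Sum.elim X (Sum.elim (fun i => if b i then 1 else 0) Z)) ↔
      ∀ i, φ.At (fun l => X (finProdFinEquiv (i, l))) Z ↔ b i = true := by
  have key : ∀ i : Fin k, (φ.map (Sum.elim (fun l => Sum.inl (finProdFinEquiv (i, l)))
      fun v => (Sum.inr (Sum.inr v) : Fin (k * n) ⊕ (Fin k ⊕ Fin m)))).Holds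
        (Sum.elim X (Sum.elim (fun i => if b i then 1 else 0) Z)) ↔
      φ.At (fun l => X (finProdFinEquiv (i, l))) Z := by
    intro i
    rw [Fml.holds_map, Fml.At]
    have h : (Sum.elim X (Sum.elim (fun i => if b i then (1 : ℝ) else 0) Z)) ∘
        (Sum.elim (fun l => Sum.inl (finProdFinEquiv (i, l))) fun v => Sum.inr (Sum.inr v)) =
        Sum.elim (fun l => X (finProdFinEquiv (i, l))) Z := by
      funext v
      rcases v with l | v <;> rfl
    rw [h]
  rw [toEBE, holds_bigAnd]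
  simp only [List.mem_map, List.mem_finRange, true_and, forall_exists_index,
    forall_apply_eq_imp_iff]
  refine forall_congr' fun i => ?_
  simp only [Fml.Holds, key, Tm.val, Sum.elim_inr, Sum.elim_inl]
  have hb : ((if b i = true then (1 : ℝ) else 0) = ((1 : ℤ) : ℝ)) ↔ b i = true := by
    cases b i <;> simp
  rw [hb]
  tauto

theorem ebe_toEBE {n m : ℕ} (φ : Fml (Fin n ⊕ Fin m)) (k : ℕ) :
    EBE (toEBE φ k) ↔ VCGe φ k := by
  classical
  constructor
  · rintro ⟨X, hX⟩
    set p : Fin k → (Fin n → ℝ) := fun i l => X (finProdFinEquiv (i, l)) with hp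
    have hb : ∀ b : Fin k → Bool, ∃ y : Fin m → ℝ, ∀ i, φ.At (p i) y ↔ b i = true := fun b => by
      obtain ⟨Z, hZ⟩ := hX b
      exact ⟨Z, (holds_toEBE φ k X b Z).1 hZ⟩
    have hinj : Function.Injective p := by
      intro i j hij
      by_contra hne
      obtain ⟨y, hy⟩ := hb fun l => decide (l = i)
      have h1 := (hy i).2 (by simp)
      have h2 := (hy j).1 (hij ▸ h1)
      simp only [decide_eq_true_eq] at h2
      exact hne h2.symm
    refine ⟨Finset.univ.image p, by rw [Finset.card_image_of_injective _ hinj]; simp, ?_⟩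
    intro P' hP'
    obtain ⟨y, hy⟩ := hb fun i => decide (p i ∈ P')
    refine ⟨y, fun x hx => ?_⟩
    obtain ⟨i, -, rfl⟩ := Finset.mem_image.1 hx
    rw [hy i]
    simp
  · rintro ⟨P, hP, h⟩
    obtain ⟨e⟩ : Nonempty (Fin k ≃ P) := ⟨(Fintype.equivFinOfCardEq (by simpa using hP)).symm⟩
    refine ⟨fun v => (e (finProdFinEquiv.symm v).1 : Fin n → ℝ) (finProdFinEquiv.symm v).2,
      fun b => ?_⟩
    obtain ⟨y, hy⟩ := h ((Finset.univ.filter fun i => b i = true).image fun i => (e i : Fin n → ℝ))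
      (by
        intro x hx
        obtain ⟨i, -, rfl⟩ := Finset.mem_image.1 hx
        exact (e i).2)
    refine ⟨y, (holds_toEBE φ k _ b y).2 fun i => ?_⟩
    simp only [Equiv.symm_apply_apply]
    have h1 := hy (e i) (e i).2
    have h2 : (fun l => (e i : Fin n → ℝ) l) = (e i : Fin n → ℝ) := rfl
    rw [h2, h1]
    simp only [Finset.mem_image, Finset.mem_filter, Finset.mem_univ, true_and]
    constructor
    · rintro ⟨j, hj, hji⟩
      have : j = i := e.injective (Subtype.ext hji)
      exact this ▸ hj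
    · exact fun hi => ⟨i, hi, rfl⟩

theorem size_toEBE {n m : ℕ} (φ : Fml (Fin n ⊕ Fin m)) (k : ℕ) :
    (toEBE φ k).size ≤ k * (2 * φ.size + 15) + 3 := by
  refine (size_bigAnd _ (2 * φ.size + 14) ?_).trans ?_
  · intro ψ hψ
    obtain ⟨i, -, rfl⟩ := List.mem_map.1 hψ
    simp only [Fml.size, Fml.size_map, Tm.size]
    have : (1 : ℤ).natAbs.size = 1 := by simp
    omega
  · simp

end Pool.Agent.Lib.MP_77492d_lc
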