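import Pool.Agent.Lib.MP_77492d_lc.Basic

set_option autoImplicit false

/-!
# The codes are injective (unique readability)
-/

namespace Pool.Agent.Lib.MP_77492d_lc

variable {V : Type}

/-- The codes `c` can be read off from the beginning of a word. -/
def Readable {α : Type} (c : α → List Letter) : Prop :=
  ∀ a b u w, c a ++ u = c b ++ w → a = b ∧ u = w

theorem Readable.injective {α : Type} {c : α → List Letter} (h : Readable c) :
    Function.Injective c := fun a b e => (h a b [] [] (by rw [e])).1

/-- Words of the letters `x` followed by the letter `y`. -/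
theorem replicate_read {x y : Letter} (hxy : x ≠ y) : ∀ (i j : ℕ) (u w : List Letter),
    List.replicate i x ++ [y] ++ u = List.replicate j x ++ [y] ++ w → i = j ∧ u = w
  | 0, 0, u, w, h => by simpa using h
  | 0, j + 1, u, w, h => by
    rw [List.replicate_succ] at h
    simp only [List.replicate_zero, List.nil_append, List.cons_append, List.cons.injEq] at h
    exact absurd h.1.symm hxy
  | i + 1, 0, u, w, h => by
    rw [List.replicate_succ] at h
    simp only [List.replicate_zero, List.nil_append, List.cons_append, List.cons.injEq] at h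
    exact absurd h.1 hxy
  | i + 1, j + 1, u, w, h => by
    rw [List.replicate_succ, List.replicate_succ] at h
    simp only [List.cons_append, List.cons.injEq, true_and] at h
    obtain ⟨h1, h2⟩ := replicate_read hxy i j u w h
    exact ⟨by rw [h1], h2⟩

/-- The letter of a bit. -/
def bl (b : Bool) : Letter := if b then Letter.b1 else Letter.b0

theorem bl_ne (b : Bool) : bl b ≠ Letter.stop := by cases b <;> decide

theorem bl_inj {b c : Bool} (h : bl b = bl c) : b = c := by
  cases b <;> cases c <;> first | rfl | exact absurd h (by decide)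

theorem bits_read : ∀ (l l' : List Bool) (u w : List Letter),
    (l.map bl ++ [Letter.stop]) ++ u = (l'.map bl ++ [Letter.stop]) ++ w → l = l' ∧ u = w
  | [], [], u, w, h => by simpa using h
  | [], b :: l', u, w, h => by
    simp only [List.map_nil, List.nil_append, List.map_cons, List.cons_append,
      List.cons.injEq] at h
    exact absurd h.1.symm (bl_ne b)
  | b :: l, [], u, w, h => by
    simp only [List.map_nil, List.nil_append, List.map_cons, List.cons_append,
      List.cons.injEq] at h
    exact absurd h.1 (bl_ne b)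
  | b :: l, c :: l', u, w, h => by
    simp only [List.map_cons, List.cons_append, List.cons.injEq] at h
    obtain ⟨h1, h2⟩ := bits_read l l' u w h.2
    exact ⟨by rw [bl_inj h.1, h1], h2⟩

theorem intCode_eq (c : ℤ) : intCode c =
    (if 0 ≤ c then Letter.pos else Letter.neg) :: (c.natAbs.bits.map bl ++ [Letter.stop]) := rfl

theorem readable_int : Readable intCode := by
  intro a b u w h
  rw [intCode_eq, intCode_eq, List.cons_append, List.cons_append, List.cons.injEq] at h
  obtain ⟨h1, h2⟩ := h
  obtain ⟨h3, h4⟩ := bits_read _ _ _ _ h2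
  have h5 : a.natAbs = b.natAbs := by
    apply Nat.digits.injective 2
    rw [Nat.digits_two_eq_bits, Nat.digits_two_eq_bits, h3]
  refine ⟨?_, h4⟩
  split_ifs at h1 with ha hb hb
  · omega
  · omega

/-- The class of the first letter of the code of a term. -/
def cls : Letter → ℕ
  | .pos | .neg => 0
  | .plus => 1
  | .times => 2
  | .sX | .eX | .sY | .eY | .sZ | .eZ => 3
  | _ => 4

/-- The class of the first letter of a word. -/
def hc (w : List Letter) : ℕ := cls (w.headD Letter.stop)

theorem hc_int (c : ℤ) (u : List Letter) : hc (intCode c ++ u) = 0 := by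
  rw [intCode_eq, hc]
  split_ifs <;> rfl

theorem hc_plus (w : List Letter) : hc (Letter.plus :: w) = 1 := rfl

theorem hc_times (w : List Letter) : hc (Letter.times :: w) = 2 := rfl

section

variable {cv : V → List Letter} (hv : Readable cv) (hh : ∀ v u, hc (cv v ++ u) = 3)

include hv hh

theorem Term.read : ∀ (s t : Term V) (u w : List Letter),
    s.code cv ++ u = t.code cv ++ w → s = t ∧ u = w
  | .const a, .const b, u, w, h => by
    obtain ⟨h1, h2⟩ := readable_int a b u w h
    exact ⟨by rw [h1], h2⟩
  | .var a, .var b, u, w, h => by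
    obtain ⟨h1, h2⟩ := hv a b u w h
    exact ⟨by rw [h1], h2⟩
  | .add s t, .add s' t', u, w, h => by
    simp only [Term.code, List.cons_append, List.cons.injEq, true_and, List.append_assoc] at h
    obtain ⟨h1, h2⟩ := Term.read s s' _ _ h
    obtain ⟨h3, h4⟩ := Term.read t t' _ _ h2
    exact ⟨by rw [h1, h3], h4⟩
  | .mul s t, .mul s' t', u, w, h => by
    simp only [Term.code, List.cons_append, List.cons.injEq, true_and, List.append_assoc] at h
    obtain ⟨h1, h2⟩ := Term.read s s' _ _ h
    obtain ⟨h3, h4⟩ := Term.read t t' _ _ h2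
    exact ⟨by rw [h1, h3], h4⟩
  | .const a, .var b, u, w, h => absurd (congrArg hc h) (by
    simp only [Term.code, hc_int, hh]; decide)
  | .var a, .const b, u, w, h => absurd (congrArg hc h) (by
    simp only [Term.code, hc_int, hh]; decide)
  | .const a, .add s t, u, w, h => absurd (congrArg hc h) (by
    simp only [Term.code, hc_int, List.cons_append, hc_plus]; decide)
  | .const a, .mul s t, u, w, h => absurd (congrArg hc h) (by
    simp only [Term.code, hc_int, List.cons_append, hc_times]; decide)
  | .add s t, .const b, u, w, h => absurd (congrArg hc h) (by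
    simp only [Term.code, hc_int, List.cons_append, hc_plus]; decide)
  | .mul s t, .const b, u, w, h => absurd (congrArg hc h) (by
    simp only [Term.code, hc_int, List.cons_append, hc_times]; decide)
  | .var a, .add s t, u, w, h => absurd (congrArg hc h) (by
    simp only [Term.code, hh, List.cons_append, hc_plus]; decide)
  | .var a, .mul s t, u, w, h => absurd (congrArg hc h) (by
    simp only [Term.code, hh, List.cons_append, hc_times]; decide)
  | .add s t, .var b, u, w, h => absurd (congrArg hc h) (by
    simp only [Term.code, hh, List.cons_append, hc_plus]; decide)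
  | .mul s t, .var b, u, w, h => absurd (congrArg hc h) (by
    simp only [Term.code, hh, List.cons_append, hc_times]; decide)
  | .add s t, .mul s' t', u, w, h => absurd (congrArg hc h) (by
    simp only [Term.code, List.cons_append, hc_plus, hc_times]; decide)
  | .mul s t, .add s' t', u, w, h => absurd (congrArg hc h) (by
    simp only [Term.code, List.cons_append, hc_plus, hc_times]; decide)

/-- Unique readability. -/
theorem Form.read : ∀ (A B : Form V) (u w : List Letter),
    A.code cv ++ u = B.code cv ++ w → A = B ∧ u = w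
  | .eq s t, .eq s' t', u, w, h => by
    simp only [Form.code, List.cons_append, List.cons.injEq, true_and, List.append_assoc] at h
    obtain ⟨h1, h2⟩ := Term.read hv hh s s' _ _ h
    obtain ⟨h3, h4⟩ := Term.read hv hh t t' _ _ h2
    exact ⟨by rw [h1, h3], h4⟩
  | .lt s t, .lt s' t', u, w, h => by
    simp only [Form.code, List.cons_append, List.cons.injEq, true_and, List.append_assoc] at h
    obtain ⟨h1, h2⟩ := Term.read hv hh s s' _ _ h
    obtain ⟨h3, h4⟩ := Term.read hv hh t t' _ _ h2
    exact ⟨by rw [h1, h3], h4⟩
  | .not A, .not A', u, w, h => by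
    simp only [Form.code, List.cons_append, List.cons.injEq, true_and] at h
    obtain ⟨h1, h2⟩ := Form.read A A' _ _ h
    exact ⟨by rw [h1], h2⟩
  | .and A B, .and A' B', u, w, h => by
    simp only [Form.code, List.cons_append, List.cons.injEq, true_and, List.append_assoc] at h
    obtain ⟨h1, h2⟩ := Form.read A A' _ _ h
    obtain ⟨h3, h4⟩ := Form.read B B' _ _ h2
    exact ⟨by rw [h1, h3], h4⟩
  | .or A B, .or A' B', u, w, h => by
    simp only [Form.code, List.cons_append, List.cons.injEq, true_and, List.append_assoc] at h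
    obtain ⟨h1, h2⟩ := Form.read A A' _ _ h
    obtain ⟨h3, h4⟩ := Form.read B B' _ _ h2
    exact ⟨by rw [h1, h3], h4⟩
  | .eq _ _, .lt _ _, u, w, h => by simp [Form.code] at h
  | .eq _ _, .not _, u, w, h => by simp [Form.code] at h
  | .eq _ _, .and _ _, u, w, h => by simp [Form.code] at h
  | .eq _ _, .or _ _, u, w, h => by simp [Form.code] at h
  | .lt _ _, .eq _ _, u, w, h => by simp [Form.code] at h
  | .lt _ _, .not _, u, w, h => by simp [Form.code] at h
  | .lt _ _, .and _ _, u, w, h => by simp [Form.code] at h
  | .lt _ _, .or _ _, u, w, h => by simp [Form.code] at h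
  | .not _, .eq _ _, u, w, h => by simp [Form.code] at h
  | .not _, .lt _ _, u, w, h => by simp [Form.code] at h
  | .not _, .and _ _, u, w, h => by simp [Form.code] at h
  | .not _, .or _ _, u, w, h => by simp [Form.code] at h
  | .and _ _, .eq _ _, u, w, h => by simp [Form.code] at h
  | .and _ _, .lt _ _, u, w, h => by simp [Form.code] at h
  | .and _ _, .not _, u, w, h => by simp [Form.code] at h
  | .and _ _, .or _ _, u, w, h => by simp [Form.code] at h
  | .or _ _, .eq _ _, u, w, h => by simp [Form.code] at h
  | .or _ _, .lt _ _, u, w, h => by simp [Form.code] at h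
  | .or _ _, .not _, u, w, h => by simp [Form.code] at h
  | .or _ _, .and _ _, u, w, h => by simp [Form.code] at h

end

/-! ### The variables -/

theorem readable_vX : Readable vX := fun i j u w h => replicate_read (by decide) i j u w h
theorem readable_vY : Readable vY := fun i j u w h => replicate_read (by decide) i j u w h
theorem readable_vZ : Readable vZ := fun i j u w h => replicate_read (by decide) i j u w h

/-- The block of the first letter of a word. -/
def bc (w : List Letter) : ℕ := match w.headD Letter.stop with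
  | .sX | .eX => 0
  | .sY | .eY => 1
  | .sZ | .eZ => 2
  | _ => 3

theorem bc_vX (i : ℕ) (u : List Letter) : bc (vX i ++ u) = 0 := by cases i <;> rfl
theorem bc_vY (i : ℕ) (u : List Letter) : bc (vY i ++ u) = 1 := by cases i <;> rfl
theorem bc_vZ (i : ℕ) (u : List Letter) : bc (vZ i ++ u) = 2 := by cases i <;> rfl
theorem hc_vX (i : ℕ) (u : List Letter) : hc (vX i ++ u) = 3 := by cases i <;> rfl
theorem hc_vY (i : ℕ) (u : List Letter) : hc (vY i ++ u) = 3 := by cases i <;> rfl
theorem hc_vZ (i : ℕ) (u : List Letter) : hc (vZ i ++ u) = 3 := by cases i <;> rfl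

theorem readable_two (n m : ℕ) :
    Readable (Sum.elim (fun i : Fin n => vX i) (fun j : Fin m => vY j)) := by
  rintro (i | i) (j | j) u w h
  · obtain ⟨h1, h2⟩ := readable_vX _ _ u w h
    exact ⟨by rw [Fin.ext h1], h2⟩
  · exact absurd (congrArg bc h) (by simp only [Sum.elim_inl, Sum.elim_inr, bc_vX, bc_vY]; decide)
  · exact absurd (congrArg bc h) (by simp only [Sum.elim_inl, Sum.elim_inr, bc_vX, bc_vY]; decide)
  · obtain ⟨h1, h2⟩ := readable_vY _ _ u w h
    exact ⟨by rw [Fin.ext h1], h2⟩

theorem readable_three (n m l : ℕ) : Readable (Sum.elim (fun i : Fin n => vX i)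
    (Sum.elim (fun j : Fin m => vY j) (fun h : Fin l => vZ h))) := by
  rintro (i | i | i) (j | j | j) u w h
  · obtain ⟨h1, h2⟩ := readable_vX _ _ u w h
    exact ⟨by rw [Fin.ext h1], h2⟩
  · exact absurd (congrArg bc h) (by simp only [Sum.elim_inl, Sum.elim_inr, bc_vX, bc_vY]; decide)
  · exact absurd (congrArg bc h) (by simp only [Sum.elim_inl, Sum.elim_inr, bc_vX, bc_vZ]; decide)
  · exact absurd (congrArg bc h) (by simp only [Sum.elim_inl, Sum.elim_inr, bc_vX, bc_vY]; decide)
  · obtain ⟨h1, h2⟩ := readable_vY _ _ u w h
    exact ⟨by rw [Fin.ext h1], h2⟩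
  · exact absurd (congrArg bc h) (by simp only [Sum.elim_inl, Sum.elim_inr, bc_vY, bc_vZ]; decide)
  · exact absurd (congrArg bc h) (by simp only [Sum.elim_inl, Sum.elim_inr, bc_vX, bc_vZ]; decide)
  · exact absurd (congrArg bc h) (by simp only [Sum.elim_inl, Sum.elim_inr, bc_vY, bc_vZ]; decide)
  · obtain ⟨h1, h2⟩ := readable_vZ _ _ u w h
    exact ⟨by rw [Fin.ext h1], h2⟩

theorem hc_two (n m : ℕ) (v : Fin n ⊕ Fin m) (u : List Letter) :
    hc (Sum.elim (fun i : Fin n => vX i) (fun j : Fin m => vY j) v ++ u) = 3 := by
  rcases v with i | i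
  · exact hc_vX _ _
  · exact hc_vY _ _

theorem hc_three (n m l : ℕ) (v : Fin n ⊕ Fin m ⊕ Fin l) (u : List Letter) :
    hc (Sum.elim (fun i : Fin n => vX i)
      (Sum.elim (fun j : Fin m => vY j) (fun h : Fin l => vZ h)) v ++ u) = 3 := by
  rcases v with i | i | i
  · exact hc_vX _ _
  · exact hc_vY _ _
  · exact hc_vZ _ _

theorem isD_two (I : VCInst) : ∀ a ∈ I.form.code (Sum.elim (fun i : Fin I.n => vX i)
    (fun j : Fin I.m => vY j)), isD a = false := by
  refine Form.isD_code ?_ I.form
  rintro (i | j)
  · exact isD_vX _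
  · exact isD_vY _

theorem isD_three (I : Sent) : ∀ a ∈ I.form.code (Sum.elim (fun i : Fin I.n => vX i)
    (Sum.elim (fun j : Fin I.m => vY j) (fun h : Fin I.l => vZ h))), isD a = false := by
  refine Form.isD_code ?_ I.form
  rintro (i | j | h)
  · exact isD_vX _
  · exact isD_vY _
  · exact isD_vZ _

theorem code_injective_inst : Function.Injective VCInst.code := by
  intro I J h
  obtain ⟨h1, h2, h3, h4⟩ := read (a := I.n) (b := I.m) (c := I.k) (isD_two I)
  obtain ⟨h5, h6, h7, h8⟩ := read (a := J.n) (b := J.m) (c := J.k) (isD_two J)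
  have e : dims I.n I.m I.k ++ I.form.code (Sum.elim (fun i : Fin I.n => vX i)
      (fun j : Fin I.m => vY j)) = dims J.n J.m J.k ++ J.form.code
      (Sum.elim (fun i : Fin J.n => vX i) (fun j : Fin J.m => vY j)) := h
  rw [e] at h1 h2 h3 h4
  have e1 := h1.symm.trans h5
  have e2 := h2.symm.trans h6
  have e3 := h3.symm.trans h7
  have e4 := h4.symm.trans h8
  obtain ⟨n, m, k, hk, A⟩ := I
  obtain ⟨n', m', k', hk', A'⟩ := J
  simp only at e1 e2 e3 e4
  subst e1
  subst e2
  subst e3
  have := (Form.read (readable_two n m) (hc_two n m) A A' [] [] (by rw [e4])).1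
  rw [this]

theorem code_injective_sent : Function.Injective Sent.code := by
  intro I J h
  obtain ⟨h1, h2, h3, h4⟩ := read (a := I.n) (b := I.m) (c := I.l) (isD_three I)
  obtain ⟨h5, h6, h7, h8⟩ := read (a := J.n) (b := J.m) (c := J.l) (isD_three J)
  have e : dims I.n I.m I.l ++ I.form.code (Sum.elim (fun i : Fin I.n => vX i)
      (Sum.elim (fun j : Fin I.m => vY j) (fun h : Fin I.l => vZ h))) =
      dims J.n J.m J.l ++ J.form.code (Sum.elim (fun i : Fin J.n => vX i)
      (Sum.elim (fun j : Fin J.m => vY j) (fun h : Fin J.l => vZ h))) := h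
  rw [e] at h1 h2 h3 h4
  have e1 := h1.symm.trans h5
  have e2 := h2.symm.trans h6
  have e3 := h3.symm.trans h7
  have e4 := h4.symm.trans h8
  obtain ⟨n, m, l, A⟩ := I
  obtain ⟨n', m', l', A'⟩ := J
  simp only at e1 e2 e3 e4
  subst e1
  subst e2
  subst e3
  have := (Form.read (readable_three n m l) (hc_three n m l) A A' [] [] (by rw [e4])).1
  rw [this]

end Pool.Agent.Lib.MP_77492d_lc
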