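import Pool.Agent.Lib.MP_77492d_lc.TK35

/-!
# The codes of sentences and instances are injective
-/

set_option autoImplicit false

namespace Pool.Agent.Lib.MP_77492d_lc.TK

open Pool.Agent.Lib.PolyFun

theorem tr_code_inj (t : Tr) : ∀ (t' : Tr) (l l' : List Bool),
    t.code ++ l = t'.code ++ l' → t = t' ∧ l = l' := by
  induction t with
  | nil =>
    intro t' l l' h
    cases t' with
    | nil => simpa [Tr.code] using h
    | cons a b => simp [Tr.code] at h
  | cons a b iha ihb =>
    intro t' l l' h
    cases t' with
    | nil => simp [Tr.code] at h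
    | cons a' b' =>
      simp only [Tr.code, List.cons_append, List.append_assoc, List.cons.injEq, true_and] at h
      obtain ⟨rfl, h2⟩ := iha _ _ _ h
      obtain ⟨rfl, rfl⟩ := ihb _ _ _ h2
      exact ⟨rfl, rfl⟩

/-- the encoding by trees is injective -/
def EI (α : Type) [TEnc α] : Prop := Function.Injective (TEnc.enc : α → Tr)

theorem EI.code {α : Type} [TEnc α] (h : EI α) : Function.Injective (code : α → List Bool) := by
  intro x y hxy
  refine h (tr_code_inj _ _ [] [] ?_).1
  rw [List.append_nil, List.append_nil]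
  exact hxy

theorem ei_nat : EI ℕ := by
  intro m
  induction m with
  | zero =>
    intro n h
    cases n with
    | zero => rfl
    | succ n => exact absurd h (by simp [TEnc.enc, encNat])
  | succ m ih =>
    intro n h
    cases n with
    | zero => exact absurd h (by simp [TEnc.enc, encNat])
    | succ n =>
      have h1 : TEnc.enc m = TEnc.enc n := (Tr.cons.inj h).2
      rw [ih h1]

theorem ei_bool : EI Bool := by
  intro x y h
  cases x <;> cases y <;> simp_all [TEnc.enc]

theorem ei_pair {α β : Type} [TEnc α] [TEnc β] (h1 : EI α) (h2 : EI β) : EI (α × β) := by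
  intro x y h
  exact Prod.ext (h1 (Tr.cons.inj h).1) (h2 (Tr.cons.inj h).2)

theorem ei_list {α : Type} [TEnc α] (h1 : EI α) : EI (List α) := by
  intro x
  induction x with
  | nil =>
    intro y h
    cases y with
    | nil => rfl
    | cons b y => exact absurd h (by simp [TEnc.enc, encList])
  | cons a x ih =>
    intro y h
    cases y with
    | nil => exact absurd h (by simp [TEnc.enc, encList])
    | cons b y => rw [h1 (Tr.cons.inj h).1, ih (Tr.cons.inj h).2]

theorem ei_tok : EI Tok := ei_pair ei_nat (ei_pair ei_nat (ei_list ei_bool))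

theorem cTok_injective : Function.Injective cTok := by
  intro x y h
  have h1 : (if x < 0 then 1 else 0 : ℕ) = if y < 0 then 1 else 0 := congrArg (fun t => t.2.1) h
  have h2 : x.natAbs.bits = y.natAbs.bits := congrArg (fun t => t.2.2) h
  have h3 : x.natAbs = y.natAbs := by
    apply Nat.digits.injective 2
    rw [Nat.digits_two_eq_bits, Nat.digits_two_eq_bits, h2]
  by_cases hx : x < 0 <;> by_cases hy : y < 0 <;> simp only [hx, hy, if_true, if_false] at h1 <;>
    omega

/-- one step of the reading of a word -/
noncomputable def step (x : List (Tm ℕ) × List (Fml ℕ)) (t : Tok) :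
    List (Tm ℕ) × List (Fml ℕ) :=
  match t.1, x with
  | 0, (s, p) => (.var t.2.1 :: s, p)
  | 1, (s, p) => (.const (Function.invFun cTok t) :: s, p)
  | 2, (t2 :: t1 :: s, p) => (.add t1 t2 :: s, p)
  | 3, (t2 :: t1 :: s, p) => (.mul t1 t2 :: s, p)
  | 4, (t2 :: t1 :: s, p) => (s, .eq t1 t2 :: p)
  | 5, (t2 :: t1 :: s, p) => (s, .lt t1 t2 :: p)
  | 6, (s, f :: p) => (s, .not f :: p)
  | 7, (s, g :: f :: p) => (s, .and f g :: p)
  | 8, (s, g :: f :: p) => (s, .or f g :: p)
  | _, x => x

theorem run_tm (t : Tm ℕ) (s : List (Tm ℕ)) (p : List (Fml ℕ)) :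
    (tmW t).foldl step (s, p) = (t :: s, p) := by
  induction t generalizing s with
  | var v => rfl
  | const z =>
    have h : Function.invFun cTok (cTok z) = z :=
      Function.leftInverse_invFun cTok_injective z
    have h1 : (tmW (.const z)).foldl step (s, p) =
        (.const (Function.invFun cTok (cTok z)) :: s, p) := rfl
    rw [h1, h]
  | add a b ha hb => rw [tmW, List.foldl_append, ha, List.foldl_append, hb]; rfl
  | mul a b ha hb => rw [tmW, List.foldl_append, ha, List.foldl_append, hb]; rfl

theorem run_fml (φ : Fml ℕ) (s : List (Tm ℕ)) (p : List (Fml ℕ)) :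
    (fmlW φ).foldl step (s, p) = (s, φ :: p) := by
  induction φ generalizing p with
  | eq a b => rw [fmlW, List.foldl_append, run_tm, List.foldl_append, run_tm]; rfl
  | lt a b => rw [fmlW, List.foldl_append, run_tm, List.foldl_append, run_tm]; rfl
  | not φ h => rw [fmlW, List.foldl_append, h]; rfl
  | and φ ψ h1 h2 => rw [fmlW, List.foldl_append, h1, List.foldl_append, h2]; rfl
  | or φ ψ h1 h2 => rw [fmlW, List.foldl_append, h1, List.foldl_append, h2]; rfl

theorem fmlW_injective : Function.Injective fmlW := by
  intro φ ψ h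
  have h1 := run_fml φ [] []
  rw [h, run_fml] at h1
  simpa using h1.symm

theorem tm_map_injective {V W : Type} {f : V → W} (hf : Function.Injective f) :
    Function.Injective (Tm.map f) := by
  intro s
  induction s with
  | var v =>
    intro t h
    cases t <;> simp only [Tm.map, Tm.var.injEq, reduceCtorEq] at h
    rw [hf h]
  | const z =>
    intro t h
    cases t <;> simp only [Tm.map, Tm.const.injEq, reduceCtorEq] at h
    rw [h]
  | add a b ha hb =>
    intro t h
    cases t <;> simp only [Tm.map, Tm.add.injEq, reduceCtorEq] at h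
    rw [ha h.1, hb h.2]
  | mul a b ha hb =>
    intro t h
    cases t <;> simp only [Tm.map, Tm.mul.injEq, reduceCtorEq] at h
    rw [ha h.1, hb h.2]

theorem fml_map_injective {V W : Type} {f : V → W} (hf : Function.Injective f) :
    Function.Injective (Fml.map f) := by
  intro s
  induction s with
  | eq a b =>
    intro t h
    cases t <;> simp only [Fml.map, Fml.eq.injEq, reduceCtorEq] at h
    rw [tm_map_injective hf h.1, tm_map_injective hf h.2]
  | lt a b =>
    intro t h
    cases t <;> simp only [Fml.map, Fml.lt.injEq, reduceCtorEq] at h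
    rw [tm_map_injective hf h.1, tm_map_injective hf h.2]
  | not a ha =>
    intro t h
    cases t <;> simp only [Fml.map, Fml.not.injEq, reduceCtorEq] at h
    rw [ha h]
  | and a b ha hb =>
    intro t h
    cases t <;> simp only [Fml.map, Fml.and.injEq, reduceCtorEq] at h
    rw [ha h.1, hb h.2]
  | or a b ha hb =>
    intro t h
    cases t <;> simp only [Fml.map, Fml.or.injEq, reduceCtorEq] at h
    rw [ha h.1, hb h.2]

theorem enumS_injective (a k c : ℕ) : Function.Injective (enumS a k c) := by
  rintro (j | i | l) (j' | i' | l') h <;> simp only [enumS, Sum.elim_inl, Sum.elim_inr] at h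
  · rw [Fin.ext h]
  · omega
  · omega
  · omega
  · rw [Fin.ext (by omega : (i : ℕ) = i')]
  · omega
  · omega
  · omega
  · rw [Fin.ext (by omega : (l : ℕ) = l')]

theorem enumI_injective (n m : ℕ) : Function.Injective (enumI n m) := by
  rintro (j | i) (j' | i') h <;> simp only [enumI, Sum.elim_inl, Sum.elim_inr] at h
  · rw [Fin.ext h]
  · omega
  · omega
  · rw [Fin.ext (by omega : (i : ℕ) = i')]

theorem code_sentence_injective : Function.Injective (code : Sentence → List Bool) := by
  apply EI.code
  rintro ⟨a, k, c, Φ⟩ ⟨a', k', c', Φ'⟩ h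
  have h1 : ((a, (k, (c, fmlW (Φ.map (enumS a k c))))) : ℕ × (ℕ × (ℕ × List Tok))) =
      (a', (k', (c', fmlW (Φ'.map (enumS a' k' c'))))) :=
    ei_pair ei_nat (ei_pair ei_nat (ei_pair ei_nat (ei_list ei_tok))) h
  simp only [Prod.mk.injEq] at h1
  obtain ⟨rfl, rfl, rfl, h2⟩ := h1
  rw [fml_map_injective (enumS_injective a k c) (fmlW_injective h2)]

theorem code_instance_injective : Function.Injective (code : Instance → List Bool) := by
  apply EI.code
  rintro ⟨n, m, k, φ⟩ ⟨n', m', k', φ'⟩ h
  have h1 : ((n, (m, (k, fmlW (φ.map (enumI n m))))) : ℕ × (ℕ × (ℕ × List Tok))) =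
      (n', (m', (k', fmlW (φ'.map (enumI n' m'))))) :=
    ei_pair ei_nat (ei_pair ei_nat (ei_pair ei_nat (ei_list ei_tok))) h
  simp only [Prod.mk.injEq] at h1
  obtain ⟨rfl, rfl, rfl, h2⟩ := h1
  rw [fml_map_injective (enumI_injective n m) (fmlW_injective h2)]

end Pool.Agent.Lib.MP_77492d_lc.TK
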