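import Pool.Agent.Lib.MP_77492d_lc.Cert36
import Pool.Agent.Lib.MP_77492d_lc.Aff35

/-!
# Sentences in which the last two blocks are linear: the formula
-/

set_option autoImplicit false

namespace Pool.Agent.Lib.MP_77492d_lc.LB

open TK AF Cf

/-- A sentence `∃ X ∈ ℝ ^ a, ∀ b ∈ {0, 1} ^ k, ∀ Y ∈ ℝ ^ m, ∃ Z ∈ ℝ ^ l, ∃ W ∈ ℝ ^ c, Ψ (X, b, σ, W)`,
where `σ` lists the bits `[ℓ_j > 0]` and then the bits `[ℓ_j < 0]`, `j < s`, for the affine functions
`ℓ_j (Y, Z) = ∑ q, D j q * Z q + ∑ i, A j i * Y i + A j m` of `(Y, Z)`, whose coefficients are terms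
in `X` and `b`. -/
structure LinSentence where
  /-- the number of variables `X` -/
  a : ℕ
  /-- the number of Boolean variables `b` -/
  k : ℕ
  /-- the number of variables `Y` -/
  m : ℕ
  /-- the number of variables `Z` -/
  l : ℕ
  /-- the number of affine functions -/
  s : ℕ
  /-- the number of variables `W` -/
  c : ℕ
  /-- the coefficients of `Y`, and the constants (last column) -/
  A : Fin s → Fin (m + 1) → Tm (Fin a ⊕ Fin k)
  /-- the coefficients of `Z` -/
  D : Fin s → Fin l → Tm (Fin a ⊕ Fin k)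
  /-- the matrix -/
  Ψ : Fml (Fin a ⊕ (Fin (k + (s + s)) ⊕ Fin c))

/-- the value of the affine function `ℓ_j` -/
noncomputable def LinSentence.ell (S : LinSentence) (X : Fin S.a → ℝ) (b : Fin S.k → Bool)
    (Y : Fin S.m → ℝ) (Z : Fin S.l → ℝ) (j : Fin S.s) : ℝ :=
  ∑ q, (S.D j q).val (Sum.elim X (real b)) * Z q +
    (∑ i : Fin S.m, (S.A j i.castSucc).val (Sum.elim X (real b)) * Y i +
      (S.A j (Fin.last S.m)).val (Sum.elim X (real b)))

/-- The sentence is true. -/
def LinSentence.Holds (S : LinSentence) : Prop :=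
  ∃ X : Fin S.a → ℝ, ∀ b : Fin S.k → Bool, ∀ Y : Fin S.m → ℝ, ∃ Z : Fin S.l → ℝ,
    ∃ W : Fin S.c → ℝ, S.Ψ.Holds (Sum.elim X (Sum.elim (real (signBits b (S.ell X b Y Z))) W))

/-! ### The formula -/

/-- difference -/
def sb {V : Type} (s t : Tm V) : Tm V := .add s (.mul (.const (-1)) t)

theorem val_sb {V : Type} (ρ : V → ℝ) (s t : Tm V) : (sb s t).val ρ = s.val ρ - t.val ρ := by
  simp only [sb, Tm.val, Int.cast_neg, Int.cast_one]
  ring

/-- The parts of the formula. -/
structure Args (V J T Q : Type) : Type where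
  /-- bits -/
  bS : J → J → T → Tm V
  /-- bits -/
  bT : J → J → T → Tm V
  /-- bits -/
  bC : J → J → J → Tm V
  /-- bits -/
  bp : J → Tm V
  /-- bits -/
  bn : J → Tm V
  /-- witnesses -/
  w1 : T → Tm V
  /-- witnesses -/
  w2 : T → Tm V
  /-- witnesses -/
  w3 : Q → Tm V
  /-- witnesses -/
  wr : J → Tm V
  /-- witnesses -/
  lam : J → J → T → Tm V
  /-- witnesses -/
  e : J → J → Tm V
  /-- witnesses -/
  Y : J → Tm V
  /-- witnesses -/
  Z : Q → Tm V
  /-- witnesses -/
  sp : T → Tm V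
  /-- witnesses -/
  sn : T → Tm V
  /-- coefficients -/
  A : T → J → Tm V
  /-- coefficients -/
  D : T → Q → Tm V
  /-- the matrix -/
  Ps : Fml V

namespace Args

variable {V J T Q : Type}

/-- no multipliers -/
def lamC (x : Args V J T Q) (tl : List T) (ql : List Q) (j k : J) : Fml V :=
  .and (bigAnd (tl.map fun t => .eq (.add (.add (.mul (sb (.const 1) (x.bS j k t)) (x.w1 t))
    (.mul (x.bT j k t) (x.w2 t))) (bigSum (ql.map fun q => .mul (x.w3 q) (x.D t q)))) (.const 0)))
    (.eq (bigSum (tl.map fun t => .mul (x.bT j k t) (x.w2 t))) (.const 1))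

/-- multipliers -/
def lamE (x : Args V J T Q) (tl : List T) (ql : List Q) (j k : J) : Fml V :=
  .and (bigAnd (tl.map fun t => .eq (.mul (sb (.const 1) (x.bS j k t)) (x.lam j k t)) (.const 0)))
    (.and (bigAnd (tl.map fun t => .eq (.mul (x.bT j k t) (x.lam j k t)) (x.bT j k t)))
      (bigAnd (ql.map fun q => .eq (bigSum (tl.map fun t => .mul (x.lam j k t) (x.D t q)))
        (.const 0))))

/-- coefficients -/
def cf (x : Args V J T Q) (tl : List T) (j k i : J) : Tm V :=
  .add (bigSum (tl.map fun t => .mul (x.lam j k t) (x.A t i))) (x.bC j k i)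

/-- rays -/
def rayE (x : Args V J T Q) (jl jl' : List J) (la : J) (tl : List T) (j : J) : Fml V :=
  .and (bigAnd (jl'.map fun k => .eq (bigSum (jl.map fun i => .mul (x.cf tl j k i) (x.e j i)))
    (.const 0))) (.eq (bigSum (jl.map fun i => .mul (x.cf tl j la i) (x.e j i)))
      (sb (x.bp j) (x.bn j)))

/-- no rays -/
def rayC (x : Args V J T Q) (jl : List J) (la : J) (tl : List T) (j : J) : Fml V :=
  .and (bigAnd (jl.map fun i => .eq (bigSum (jl.map fun k => .mul (x.wr k) (x.cf tl j k i)))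
    (.const 0))) (.eq (.mul (x.wr la) (sb (x.bp j) (x.bn j))) (.const 1))

/-- the sum of the last coordinates -/
def h (x : Args V J T Q) (jl : List J) (i : J) : Tm V := bigSum (jl.map fun j => x.e j i)

/-- the affine function -/
def el (x : Args V J T Q) (jl' : List J) (la : J) (ql : List Q) (t : T) : Tm V :=
  .add (bigSum (ql.map fun q => .mul (x.D t q) (x.Z q)))
    (.add (bigSum (jl'.map fun i => .mul (x.A t i) (x.Y i))) (x.A t la))

/-- the signs -/
def sg (x : Args V J T Q) (jl' : List J) (la : J) (ql : List Q) (t : T) : Fml V :=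
  .and (.or (.and (.eq (x.sp t) (.const 1)) (.lt (.const 0) (x.el jl' la ql t)))
      (.and (.eq (x.sp t) (.const 0)) (.not (.lt (.const 0) (x.el jl' la ql t)))))
    (.or (.and (.eq (x.sn t) (.const 1)) (.lt (x.el jl' la ql t) (.const 0)))
      (.and (.eq (x.sn t) (.const 0)) (.not (.lt (x.el jl' la ql t) (.const 0)))))

/-- the whole formula -/
def form (x : Args V J T Q) (jl jl' : List J) (la : J) (tl : List T) (ql : List Q) : Fml V :=
  .or (bigOr (jl.map fun j => bigOr (jl.map fun k => x.lamC tl ql j k)))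
    (.and (bigAnd (jl.map fun j => bigAnd (jl.map fun k => x.lamE tl ql j k)))
      (.or (bigOr (jl.map fun j => x.rayC jl la tl j))
        (.and (bigAnd (jl.map fun j => x.rayE jl jl' la tl j))
          (.or (.not (.lt (.const 0) (x.h jl la)))
            (.and (bigAnd (jl'.map fun i => .eq (.mul (x.h jl la) (x.Y i)) (x.h jl i)))
              (.and (bigAnd (tl.map fun t => x.sg jl' la ql t)) x.Ps))))))

end Args

theorem val_sumF {V : Type} (ρ : V → ℝ) {n : ℕ} (f : Fin n → Tm V) :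
    (bigSum ((List.finRange n).map f)).val ρ = ∑ i, (f i).val ρ := by
  simp only [val_bigSum, List.map_map, Function.comp_def, ← Fin.sum_univ_def]

theorem holds_allF {V : Type} (ρ : V → ℝ) {n : ℕ} (f : Fin n → Fml V) :
    (bigAnd ((List.finRange n).map f)).Holds ρ ↔ ∀ i, (f i).Holds ρ := by
  simp only [holds_bigAnd, List.mem_map, List.mem_finRange, true_and, forall_exists_index,
    forall_apply_eq_imp_iff]

theorem holds_exF {V : Type} (ρ : V → ℝ) {n : ℕ} (f : Fin n → Fml V) :
    (bigOr ((List.finRange n).map f)).Holds ρ ↔ ∃ i, (f i).Holds ρ := by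
  simp only [holds_bigOr, List.mem_map, List.mem_finRange, true_and, exists_exists_eq_and]

section

variable {V : Type} {m s l : ℕ}

/-- the formula with `Fin` indices -/
def Args.formF (x : Args V (Fin (m + 1)) (Fin s) (Fin l)) : Fml V :=
  x.form (List.finRange (m + 1)) ((List.finRange m).map Fin.castSucc) (Fin.last m)
    (List.finRange s) (List.finRange l)

/-- the signs are right -/
def SignOk (sp sn v : Fin s → ℝ) : Prop :=
  ∀ t, ((sp t = 1 ∧ 0 < v t) ∨ (sp t = 0 ∧ ¬ 0 < v t)) ∧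
    ((sn t = 1 ∧ v t < 0) ∨ (sn t = 0 ∧ ¬ v t < 0))

theorem formF_holds (x : Args V (Fin (m + 1)) (Fin s) (Fin l)) (ρ : V → ℝ)
    (S T : Fin (m + 1) → Fin (m + 1) → Fin s → Bool)
    (C : Fin (m + 1) → Fin (m + 1) → Fin (m + 1) → Bool) (p n : Fin (m + 1) → Bool)
    (hS : ∀ j k t, (x.bS j k t).val ρ = bit (S j k t))
    (hT : ∀ j k t, (x.bT j k t).val ρ = bit (T j k t))
    (hC : ∀ j k i, (x.bC j k i).val ρ = bit (C j k i))
    (hp : ∀ j, (x.bp j).val ρ = bit (p j)) (hn : ∀ j, (x.bn j).val ρ = bit (n j)) :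
    x.formF.Holds ρ ↔ ElE (fun t i => (x.A t i).val ρ) (fun t q => (x.D t q).val ρ) S T C p n
      (fun v => SignOk (fun t => (x.sp t).val ρ) (fun t => (x.sn t).val ρ) v ∧ x.Ps.Holds ρ)
      (fun t => (x.w1 t).val ρ) (fun t => (x.w2 t).val ρ) (fun q => (x.w3 q).val ρ)
      (fun k => (x.wr k).val ρ) (fun j k t => (x.lam j k t).val ρ) (fun j i => (x.e j i).val ρ)
      (fun i => (x.Y i.castSucc).val ρ) (fun q => (x.Z q).val ρ) := by
  simp only [Args.formF, Args.form, Args.lamC, Args.lamE, Args.rayC, Args.rayE, Args.cf, Args.h,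
    Args.el, Args.sg, List.map_map, Function.comp_def, Fml.Holds, holds_allF, holds_exF, val_sumF,
    val_sb, Tm.val, hS, hT, hC, hp, hn, Int.cast_one, Int.cast_zero, ElE, LamC, LamE, RayC, RayE,
    SignOk, alp, not_lt]

end

end Pool.Agent.Lib.MP_77492d_lc.LB
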