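import Mathlib

/-!
# Motzkin's transposition theorem, by Fourier-Motzkin elimination
-/

set_option autoImplicit false

namespace Pool.Agent.Lib.MP_77492d_lc.Motzkin5

/-- One variable: lower and upper bounds, some of them strict. -/
theorem one {P N : Type} [Finite P] [Finite N] (L : P → ℝ) (U : N → ℝ) (sP : P → Prop)
    (sN : N → Prop) (h : ∀ i k, L i ≤ U k ∧ (sP i ∨ sN k → L i < U k)) :
    ∃ y : ℝ, (∀ i, L i ≤ y ∧ (sP i → L i < y)) ∧ ∀ k, y ≤ U k ∧ (sN k → y < U k) := by
  rcases isEmpty_or_nonempty P with hP | hP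
  · rcases isEmpty_or_nonempty N with hN | hN
    · exact ⟨0, fun i => hP.elim i, fun k => hN.elim k⟩
    · obtain ⟨k0, hk0⟩ := Finite.exists_min U
      refine ⟨U k0 - 1, fun i => hP.elim i, fun k => ?_⟩
      have := hk0 k
      exact ⟨by linarith, fun _ => by linarith⟩
  · rcases isEmpty_or_nonempty N with hN | hN
    · obtain ⟨i0, hi0⟩ := Finite.exists_max L
      refine ⟨L i0 + 1, fun i => ?_, fun k => hN.elim k⟩
      have := hi0 i
      exact ⟨by linarith, fun _ => by linarith⟩
    · obtain ⟨k0, hk0⟩ := Finite.exists_min U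
      obtain ⟨i0, hi0⟩ := Finite.exists_max L
      have h0 := (h i0 k0).1
      refine ⟨(L i0 + U k0) / 2, fun i => ?_, fun k => ?_⟩
      · have h1 := hi0 i
        refine ⟨by linarith, fun hs => ?_⟩
        have h2 := (h i k0).2 (Or.inl hs)
        linarith
      · have h1 := hk0 k
        refine ⟨by linarith, fun hs => ?_⟩
        have h2 := (h i0 k).2 (Or.inr hs)
        linarith

open Classical in
theorem aux (n : ℕ) : ∀ (I : Type) [Fintype I] (st : I → Prop) (a : I → Fin n → ℝ) (al : I → ℝ),
    (¬ ∃ y : Fin n → ℝ, ∀ i, 0 ≤ al i + ∑ j, a i j * y j ∧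
      (st i → 0 < al i + ∑ j, a i j * y j)) →
    ∃ c : I → ℝ, (∀ i, 0 ≤ c i) ∧ (∀ j, ∑ i, c i * a i j = 0) ∧ ∑ i, c i * al i ≤ 0 ∧
      (∑ i, c i * al i < 0 ∨ ∃ i, st i ∧ 0 < c i) := by
  induction n with
  | zero =>
    intro I _ st a al h
    have h1 : ∃ i, ¬ (0 ≤ al i ∧ (st i → 0 < al i)) := by
      by_contra hcon
      push Not at hcon
      refine h ⟨fun _ => 0, fun i => ?_⟩
      simpa using hcon i
    obtain ⟨i, hi⟩ := h1
    refine ⟨fun k => if k = i then 1 else 0, fun k => by dsimp only; split_ifs <;> norm_num,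
      fun j => j.elim0, ?_, ?_⟩
    · simp only [ite_mul, one_mul, zero_mul, Finset.sum_ite_eq', Finset.mem_univ, if_true]
      by_contra hc
      push Not at hc
      exact hi ⟨hc.le, fun _ => hc⟩
    · simp only [ite_mul, one_mul, zero_mul, Finset.sum_ite_eq', Finset.mem_univ, if_true]
      by_cases h0 : 0 ≤ al i
      · right
        refine ⟨i, ?_, by simp⟩
        by_contra hs
        exact hi ⟨h0, fun h => absurd h hs⟩
      · left
        exact not_le.1 h0
  | succ n ih =>
    intro I _ st a al h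
    let Z := {i : I // a i 0 = 0}
    let P := {i : I // 0 < a i 0}
    let N := {i : I // a i 0 < 0}
    let lift : (I → ℝ) → Z ⊕ (P × N) → ℝ := fun f => Sum.elim (fun z => f z.1)
      fun q => f q.1.1 * (1 / a q.1.1 0) + f q.2.1 * (1 / (-a q.2.1 0))
    let w : Z ⊕ (P × N) → I → ℝ := Sum.elim (fun z i => if i = z.1 then 1 else 0)
      fun q i => (if i = q.1.1 then 1 / a q.1.1 0 else 0) +
        if i = q.2.1 then 1 / (-a q.2.1 0) else 0
    have hw : ∀ (f : I → ℝ) (q : Z ⊕ (P × N)), ∑ i, w q i * f i = lift f q := by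
      rintro f (z | ⟨x, k⟩)
      · simp [w, lift, ite_mul]
      · simp only [w, lift, Sum.elim_inr, add_mul, Finset.sum_add_distrib, ite_mul, zero_mul,
          Finset.sum_ite_eq', Finset.mem_univ, if_true]
        ring
    have hw0 : ∀ q i, 0 ≤ w q i := by
      rintro (z | ⟨x, k⟩) i
      · simp only [w, Sum.elim_inl]
        split_ifs <;> norm_num
      · simp only [w, Sum.elim_inr]
        have h1 : 0 ≤ 1 / a x.1 0 := by have := x.2; positivity
        have h2 : 0 ≤ 1 / (-a k.1 0) := by
          have : 0 < -a k.1 0 := neg_pos.2 k.2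
          positivity
        refine add_nonneg ?_ ?_ <;> split_ifs <;> first | assumption | exact le_rfl
    let st' : Z ⊕ (P × N) → Prop := Sum.elim (fun z => st z.1) fun q => st q.1.1 ∨ st q.2.1
    have hnew : ¬ ∃ y : Fin n → ℝ, ∀ q : Z ⊕ (P × N),
        0 ≤ lift al q + ∑ j, lift (fun i => a i j.succ) q * y j ∧
        (st' q → 0 < lift al q + ∑ j, lift (fun i => a i j.succ) q * y j) := by
      rintro ⟨y, hy⟩
      let v : I → ℝ := fun i => al i + ∑ j : Fin n, a i j.succ * y j
      have hv : ∀ q, lift al q + ∑ j, lift (fun i => a i j.succ) q * y j = lift v q := by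
        rintro (z | ⟨x, k⟩)
        · rfl
        · simp only [lift, Sum.elim_inr, v, add_mul, Finset.sum_add_distrib, Finset.sum_mul]
          have e1 : ∀ (r : ℝ) (u : I), ∑ j : Fin n, a u j.succ * y j * r =
              ∑ j : Fin n, a u j.succ * r * y j := fun r u =>
            Finset.sum_congr rfl fun j _ => by ring
          rw [e1, e1]
          ring
      obtain ⟨y0, hP, hN⟩ := one (P := P) (N := N) (fun x => -(v x.1 / a x.1 0))
        (fun k => v k.1 / (-a k.1 0)) (fun x => st x.1) (fun k => st k.1) (fun x k => by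
          have h1 := hy (Sum.inr (x, k))
          rw [hv] at h1
          simp only [lift, st', Sum.elim_inr] at h1
          have h2 : v x.1 * (1 / a x.1 0) + v k.1 * (1 / (-a k.1 0)) =
              v k.1 / (-a k.1 0) - -(v x.1 / a x.1 0) := by ring
          rw [h2] at h1
          exact ⟨by linarith [h1.1], fun hs => by linarith [h1.2 hs]⟩)
      refine h ⟨Fin.cons y0 y, fun i => ?_⟩
      have hval : al i + ∑ j, a i j * (Fin.cons y0 y : Fin (n + 1) → ℝ) j = a i 0 * y0 + v i := by
        rw [Fin.sum_univ_succ]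
        simp only [Fin.cons_zero, Fin.cons_succ, v]
        ring
      rw [hval]
      rcases lt_trichotomy (a i 0) 0 with hi | hi | hi
      · have h1 := hN ⟨i, hi⟩
        have h2 : a i 0 * y0 + v i = -a i 0 * (v i / (-a i 0) - y0) := by
          have : a i 0 ≠ 0 := hi.ne
          field_simp
          ring
        have h3 : 0 < -a i 0 := neg_pos.2 hi
        rw [h2]
        exact ⟨mul_nonneg h3.le (by linarith [h1.1]), fun hs => mul_pos h3 (by linarith [h1.2 hs])⟩
      · have h1 := hy (Sum.inl ⟨i, hi⟩)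
        rw [hv] at h1
        simp only [lift, st', Sum.elim_inl] at h1
        rw [hi, zero_mul, zero_add]
        exact h1
      · have h1 := hP ⟨i, hi⟩
        have h2 : a i 0 * y0 + v i = a i 0 * (y0 - -(v i / a i 0)) := by
          have : a i 0 ≠ 0 := hi.ne'
          field_simp
          ring
        rw [h2]
        exact ⟨mul_nonneg hi.le (by linarith [h1.1]), fun hs => mul_pos hi (by linarith [h1.2 hs])⟩
    obtain ⟨c', hc0, hc1, hc2, hc3⟩ := ih (Z ⊕ (P × N)) st' (fun q j => lift (fun i => a i j.succ) q)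
      (lift al) hnew
    let c : I → ℝ := fun i => ∑ q, c' q * w q i
    have hsum : ∀ f : I → ℝ, ∑ i, c i * f i = ∑ q, c' q * lift f q := by
      intro f
      simp only [c, Finset.sum_mul]
      rw [Finset.sum_comm]
      refine Finset.sum_congr rfl fun q _ => ?_
      rw [← hw, Finset.mul_sum]
      exact Finset.sum_congr rfl fun i _ => by ring
    have hc : ∀ i, 0 ≤ c i := fun i => Finset.sum_nonneg fun q _ => mul_nonneg (hc0 q) (hw0 q i)
    have hpos : ∀ q i, 0 < c' q → 0 < w q i → 0 < c i := fun q i h1 h2 =>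
      (mul_pos h1 h2).trans_le (Finset.single_le_sum (f := fun q => c' q * w q i)
        (fun q _ => mul_nonneg (hc0 q) (hw0 q i)) (Finset.mem_univ q))
    refine ⟨c, hc, fun j => ?_, ?_, ?_⟩
    · refine Fin.cases ?_ (fun j => ?_) j
      · rw [hsum]
        refine Finset.sum_eq_zero fun q _ => ?_
        rcases q with z | ⟨x, k⟩
        · simp only [lift, Sum.elim_inl]
          rw [z.2, mul_zero]
        · simp only [lift, Sum.elim_inr]
          have h1 : a x.1 0 ≠ 0 := x.2.ne'
          have h2 : a k.1 0 ≠ 0 := k.2.ne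
          have h3 : a x.1 0 * (1 / a x.1 0) + a k.1 0 * (1 / (-a k.1 0)) = 0 := by
            field_simp
            ring
          rw [h3, mul_zero]
      · rw [hsum]
        exact hc1 j
    · rw [hsum]
      exact hc2
    · rw [hsum]
      rcases hc3 with h1 | ⟨q, hq1, hq2⟩
      · exact Or.inl h1
      · right
        rcases q with z | ⟨x, k⟩
        · exact ⟨z.1, hq1, hpos _ _ hq2 (by simp [w])⟩
        · have hx : 0 < 1 / a x.1 0 := by have := x.2; positivity
          have hk : 0 < 1 / (-a k.1 0) := by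
            have : 0 < -a k.1 0 := neg_pos.2 k.2
            positivity
          have hxk : x.1 ≠ k.1 := fun he => by
            have h1 := x.2
            have h2 := k.2
            rw [he] at h1
            exact absurd h1 (not_lt.2 h2.le)
          rcases hq1 with hs | hs
          · refine ⟨x.1, hs, hpos _ _ hq2 ?_⟩
            simp only [w, Sum.elim_inr, if_true, if_neg hxk, add_zero]
            exact hx
          · refine ⟨k.1, hs, hpos _ _ hq2 ?_⟩
            simp only [w, Sum.elim_inr, if_true, if_neg hxk.symm, zero_add]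
            exact hk

/-- **Motzkin's transposition theorem**: a finite system of affine inequalities, some of them
strict, has no solution if and only if some nonnegative combination is a contradiction. -/
theorem motzkin {n : ℕ} {I : Type} [Fintype I] (st : I → Prop) (a : I → Fin n → ℝ)
    (al : I → ℝ) :
    (¬ ∃ y : Fin n → ℝ, ∀ i, 0 ≤ al i + ∑ j, a i j * y j ∧
      (st i → 0 < al i + ∑ j, a i j * y j)) ↔
    ∃ c : I → ℝ, (∀ i, 0 ≤ c i) ∧ (∀ j, ∑ i, c i * a i j = 0) ∧ ∑ i, c i * al i ≤ 0 ∧
      (∑ i, c i * al i < 0 ∨ ∃ i, st i ∧ 0 < c i) := by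
  refine ⟨aux n I st a al, ?_⟩
  rintro ⟨c, h0, h1, h2, h3⟩ ⟨y, hy⟩
  have h4 : ∑ i, c i * (al i + ∑ j, a i j * y j) = ∑ i, c i * al i := by
    simp only [mul_add, Finset.sum_add_distrib, Finset.mul_sum]
    rw [Finset.sum_comm]
    have h5 : ∑ j, ∑ i, c i * (a i j * y j) = 0 := by
      refine Finset.sum_eq_zero fun j _ => ?_
      have : ∑ i, c i * (a i j * y j) = (∑ i, c i * a i j) * y j := by
        rw [Finset.sum_mul]
        exact Finset.sum_congr rfl fun i _ => by ring
      rw [this, h1, zero_mul]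
    rw [h5, add_zero]
  have h5 : ∀ i ∈ Finset.univ, 0 ≤ c i * (al i + ∑ j, a i j * y j) := fun i _ =>
    mul_nonneg (h0 i) (hy i).1
  rcases h3 with h3 | ⟨i, hs, hc⟩
  · exact absurd h3 (not_lt.2 (h4 ▸ Finset.sum_nonneg h5))
  · have h6 := Finset.single_le_sum h5 (Finset.mem_univ i)
    rw [h4] at h6
    have h7 : 0 < c i * (al i + ∑ j, a i j * y j) := mul_pos hc ((hy i).2 hs)
    linarith

end Pool.Agent.Lib.MP_77492d_lc.Motzkin5
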