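import Pool.Agent.Lib.MP_77492d_lc.AffB35

/-!
# Sentences with linear recourse: the last two blocks together

`∃ X, ∀ b, ∀ Y, (D Y + E ≥ 0) → ∃ Z, A Y + C Z + B ≥ 0`, where the entries of the matrices are
terms in `X` and `b`.
-/

set_option autoImplicit false

namespace Pool.Agent.Lib.MP_77492d_lc.RC

open Pool.Agent.Lib.PolyFun
open TK AF

/-- A sentence `∃ X ∈ ℝ ^ a, ∀ b ∈ {0, 1} ^ k, ∀ Y ∈ ℝ ^ m, D Y + E ≥ 0 → ∃ Z ∈ ℝ ^ c,
A Y + C Z + B ≥ 0`, where the entries of `D`, `E`, `A`, `C`, `B` are terms in `X` and `b`. -/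
structure RecSentence where
  /-- the number of variables `X` -/
  a : ℕ
  /-- the number of Boolean variables `b` -/
  k : ℕ
  /-- the number of variables `Y` -/
  m : ℕ
  /-- the number of variables `Z` -/
  c : ℕ
  /-- the number of inequalities of the domain -/
  p : ℕ
  /-- the number of inequalities of the recourse -/
  q : ℕ
  /-- the matrix of the domain -/
  D : Fin p → Fin m → Tm (Fin a ⊕ Fin k)
  /-- the constants of the domain -/
  E : Fin p → Tm (Fin a ⊕ Fin k)
  /-- the matrix of `Y` -/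
  A : Fin q → Fin m → Tm (Fin a ⊕ Fin k)
  /-- the matrix of `Z` -/
  C : Fin q → Fin c → Tm (Fin a ⊕ Fin k)
  /-- the constants -/
  B : Fin q → Tm (Fin a ⊕ Fin k)

/-- The sentence is true. -/
def RecSentence.Holds (S : RecSentence) : Prop :=
  ∃ X : Fin S.a → ℝ, ∀ b : Fin S.k → Bool, ∀ Y : Fin S.m → ℝ,
    (∀ i, 0 ≤ ∑ r, (S.D i r).val (Sum.elim X (real b)) * Y r +
      (S.E i).val (Sum.elim X (real b))) →
    ∃ Z : Fin S.c → ℝ, ∀ j, 0 ≤ ∑ r, (S.A j r).val (Sum.elim X (real b)) * Y r +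
      ∑ l, (S.C j l).val (Sum.elim X (real b)) * Z l + (S.B j).val (Sum.elim X (real b))

/-! ### Linear algebra -/

section

variable {m c p q : ℕ}

theorem gordan (C : Fin q → Fin c → ℝ) (S : Fin q → Bool) :
    (∃ w : Fin c → ℝ, ∀ j, S j = true → 0 < ∑ l, C j l * w l) ∨
      ∃ θ : Fin q → ℝ, (∀ j, 0 ≤ θ j) ∧ (∀ j, S j = true ∨ θ j = 0) ∧ (∃ j, θ j ≠ 0) ∧
        ∀ l, ∑ j, θ j * C j l = 0 := by
  by_cases h : ∃ w : Fin c → ℝ, ∀ j, ((⟨fun l => if S j = true then C j l else 0, 0,
      S j = true⟩ : Motz.Con c)).Sat w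
  · obtain ⟨w, hw⟩ := h
    refine Or.inl ⟨w, fun j hj => ?_⟩
    have := (hw j).2 hj
    simpa only [hj, if_true, add_zero] using this
  · obtain ⟨μ, h1, h2, h3⟩ := (Motz.motzkin _).1 h
    simp only [mul_zero, Finset.sum_const_zero, lt_irrefl, le_refl, true_and, false_or] at h3
    obtain ⟨t, ht, hμ⟩ := h3
    refine Or.inr ⟨fun j => if S j = true then μ j else 0, fun j => ?_, fun j => ?_,
      ⟨t, ?_⟩, fun l => ?_⟩
    · by_cases hj : S j = true
      · simp only [hj, if_true]; exact h1 j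
      · simp only [hj]; simp
    · by_cases hj : S j = true
      · exact Or.inl hj
      · right; simp only [hj]; simp
    · simp only [ht, if_true]; exact hμ.ne'
    · refine Eq.trans (Finset.sum_congr rfl fun j _ => ?_) (h2 l)
      by_cases hj : S j = true
      · simp only [hj, if_true]
      · simp [hj]

theorem farkas (D : Fin p → Fin m → ℝ) (E : Fin p → ℝ) (g : Fin m → ℝ) (g0 : ℝ) :
    (∀ Y : Fin m → ℝ, (∀ i, 0 ≤ ∑ r, D i r * Y r + E i) → 0 ≤ ∑ r, g r * Y r + g0) ↔
      ∃ (lam : Fin p → ℝ) (l0 : ℝ), (∀ i, 0 ≤ lam i) ∧ 0 ≤ l0 ∧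
        (∀ r, ∑ i, lam i * D i r + l0 * (-1 * g r) = 0) ∧
        (∑ i, lam i * E i + l0 * (-1 * g0) < 0 ∨
          (∑ i, lam i * E i + l0 * (-1 * g0) ≤ 0 ∧ 0 < l0)) := by
  have h := Motz.motzkin (T := Fin p ⊕ Unit) (Sum.elim (fun i => (⟨D i, E i, False⟩ : Motz.Con m))
    fun _ => ⟨fun r => -1 * g r, -1 * g0, True⟩)
  have hs : ∀ Y : Fin m → ℝ, ∑ r, -1 * g r * Y r + -1 * g0 = -(∑ r, g r * Y r + g0) := by
    intro Y
    rw [neg_add, ← Finset.sum_neg_distrib]
    congr 1
    · exact Finset.sum_congr rfl fun r _ => by ring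
    · ring
  have h1 : (∀ Y : Fin m → ℝ, (∀ i, 0 ≤ ∑ r, D i r * Y r + E i) → 0 ≤ ∑ r, g r * Y r + g0) ↔
      ¬ ∃ Y : Fin m → ℝ, ∀ t, ((Sum.elim (fun i => (⟨D i, E i, False⟩ : Motz.Con m))
        fun _ : Unit => (⟨fun r => -1 * g r, -1 * g0, True⟩ : Motz.Con m)) t).Sat Y := by
    constructor
    · rintro h2 ⟨Y, hY⟩
      have h3 := h2 Y fun i => (hY (.inl i)).1
      have h4 := (hY (.inr ())).2 trivial
      simp only [Sum.elim_inr, hs] at h4
      linarith
    · intro h2 Y hY
      by_contra h3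
      refine h2 ⟨Y, ?_⟩
      rintro (i | u)
      · exact ⟨hY i, fun h => h.elim⟩
      · simp only [Sum.elim_inr, Motz.Con.Sat, hs]
        exact ⟨by linarith, fun _ => by linarith⟩
  rw [h1, h]
  simp only [Fintype.sum_sum_type, Sum.elim_inl, Sum.elim_inr, Finset.univ_unique,
    Finset.sum_singleton]
  constructor
  · rintro ⟨μ, a1, a2, a3⟩
    refine ⟨fun i => μ (.inl i), μ (.inr default), fun i => a1 _, a1 _, a2, ?_⟩
    rcases a3 with a3 | ⟨a3, t, a4, a5⟩
    · exact Or.inl a3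
    · rcases t with i | u
      · exact a4.elim
      · exact Or.inr ⟨a3, a5⟩
  · rintro ⟨lam, l0, a1, a2, a3, a4⟩
    refine ⟨Sum.elim lam fun _ => l0, ?_, a3, ?_⟩
    · rintro (i | u)
      · exact a1 i
      · exact a2
    · rcases a4 with a4 | ⟨a4, a5⟩
      · exact Or.inl a4
      · exact Or.inr ⟨a4, .inr (), trivial, a5⟩

/-- the nonnegative dependencies of the rows of `C` -/
def Dep (C : Fin q → Fin c → ℝ) (θ : Fin q → ℝ) : Prop :=
  (∀ j, 0 ≤ θ j) ∧ ∀ l, ∑ j, θ j * C j l = 0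

theorem decomp (C : Fin q → Fin c → ℝ) (G : (Fin q → ℝ) → Prop) (h0 : G 0)
    (hG : ∀ θ θ' : Fin q → ℝ, ∀ t : ℝ, 0 < t → G θ → G θ' → G fun j => θ j + t * θ' j)
    (h : ∀ S : Fin q → Bool, (∃ w : Fin c → ℝ, ∀ j, S j = true → 0 < ∑ l, C j l * w l) ∨
      ∃ θ, Dep C θ ∧ (∀ j, S j = true ∨ θ j = 0) ∧ (∃ j, θ j ≠ 0) ∧ G θ) :
    ∀ θ, Dep C θ → G θ := by
  classical
  have key : ∀ (n : ℕ) (θ : Fin q → ℝ), (Finset.univ.filter fun j => θ j ≠ 0).card ≤ n →
      Dep C θ → G θ := by
    intro n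
    induction n with
    | zero =>
      intro θ hn _
      have : θ = 0 := by
        funext j
        by_contra hj
        have h1 : j ∈ Finset.univ.filter fun j => θ j ≠ 0 :=
          Finset.mem_filter.2 ⟨Finset.mem_univ _, hj⟩
        rw [Finset.card_eq_zero.1 (Nat.le_zero.1 hn)] at h1
        exact absurd h1 (by simp)
      rw [this]
      exact h0
    | succ n ih =>
      intro θ hn hθ
      rcases h fun j => decide (θ j ≠ 0) with ⟨w, hw⟩ | ⟨θ', hθ', hS, ⟨j0, hj0⟩, hG'⟩
      · -- `θ = 0`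
        by_cases hz : ∃ j, θ j ≠ 0
        · exfalso
          obtain ⟨j1, hj1⟩ := hz
          have e : ∑ j, θ j * ∑ l, C j l * w l = 0 := by
            simp only [Finset.mul_sum]
            rw [Finset.sum_comm]
            have : ∀ l, ∑ j, θ j * (C j l * w l) = (∑ j, θ j * C j l) * w l := by
              intro l
              rw [Finset.sum_mul]
              exact Finset.sum_congr rfl fun j _ => by ring
            simp only [this, hθ.2, zero_mul, Finset.sum_const_zero]
          have e2 : ∀ j, 0 ≤ θ j * ∑ l, C j l * w l := by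
            intro j
            by_cases hj : θ j = 0
            · rw [hj, zero_mul]
            · exact mul_nonneg (hθ.1 j) (hw j (by simpa using hj)).le
          have e3 : 0 < ∑ j, θ j * ∑ l, C j l * w l :=
            Finset.sum_pos' (fun j _ => e2 j) ⟨j1, Finset.mem_univ _,
              mul_pos (lt_of_le_of_ne (hθ.1 j1) (Ne.symm hj1)) (hw j1 (by simpa using hj1))⟩
          rw [e] at e3
          exact lt_irrefl _ e3
        · push Not at hz
          have : θ = 0 := funext hz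
          rw [this]
          exact h0
      · -- subtract a multiple of `θ'`
        have hsub : ∀ j, θ' j ≠ 0 → θ j ≠ 0 := by
          intro j hj
          rcases hS j with h1 | h1
          · simpa using h1
          · exact absurd h1 hj
        obtain ⟨j1, hj1, hmin⟩ := Finset.exists_min_image
          (Finset.univ.filter fun j => θ' j ≠ 0) (fun j => θ j / θ' j)
          ⟨j0, Finset.mem_filter.2 ⟨Finset.mem_univ _, hj0⟩⟩
        have hj1' : θ' j1 ≠ 0 := (Finset.mem_filter.1 hj1).2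
        have hp1 : 0 < θ' j1 := lt_of_le_of_ne (hθ'.1 j1) (Ne.symm hj1')
        have hp2 : 0 < θ j1 := lt_of_le_of_ne (hθ.1 j1) (Ne.symm (hsub j1 hj1'))
        set t := θ j1 / θ' j1 with ht
        have htp : 0 < t := div_pos hp2 hp1
        have hle : ∀ j, t * θ' j ≤ θ j := by
          intro j
          by_cases hj : θ' j = 0
          · rw [hj, mul_zero]; exact hθ.1 j
          · have h1 := hmin j (Finset.mem_filter.2 ⟨Finset.mem_univ _, hj⟩)
            have h2 : 0 < θ' j := lt_of_le_of_ne (hθ'.1 j) (Ne.symm hj)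
            rwa [le_div_iff₀ h2] at h1
        have hd : Dep C fun j => θ j - t * θ' j := by
          refine ⟨fun j => sub_nonneg.2 (hle j), fun l => ?_⟩
          have : ∑ j, (θ j - t * θ' j) * C j l =
              ∑ j, θ j * C j l - t * ∑ j, θ' j * C j l := by
            rw [Finset.mul_sum, ← Finset.sum_sub_distrib]
            exact Finset.sum_congr rfl fun j _ => by ring
          rw [this, hθ.2, hθ'.2, mul_zero, sub_zero]
        have hcard : (Finset.univ.filter fun j => θ j - t * θ' j ≠ 0).card ≤ n := by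
          have hlt : (Finset.univ.filter fun j => θ j - t * θ' j ≠ 0).card <
              (Finset.univ.filter fun j => θ j ≠ 0).card := by
            refine Finset.card_lt_card (Finset.ssubset_iff_subset_ne.2 ⟨?_, ?_⟩)
            · intro j hj
              rw [Finset.mem_filter] at hj ⊢
              refine ⟨hj.1, fun h1 => hj.2 ?_⟩
              have h2 : θ' j = 0 := by
                by_contra h3
                exact hsub j h3 h1
              rw [h1, h2]; ring
            · intro he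
              have h1 : j1 ∈ Finset.univ.filter fun j => θ j ≠ 0 :=
                Finset.mem_filter.2 ⟨Finset.mem_univ _, hp2.ne'⟩
              rw [← he, Finset.mem_filter] at h1
              apply h1.2
              rw [ht, div_mul_cancel₀ _ hj1', sub_self]
          omega
        have h1 := hG _ θ' t htp (ih _ hcard hd) hG'
        have h2 : (fun j => θ j - t * θ' j + t * θ' j) = θ := funext fun j => by ring
        rw [h2] at h1
        exact h1
  exact fun θ hθ => key _ θ le_rfl hθ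

/-- the certificate for the subset `S` of the rows -/
def RCert (D : Fin p → Fin m → ℝ) (E : Fin p → ℝ) (A : Fin q → Fin m → ℝ)
    (C : Fin q → Fin c → ℝ) (B : Fin q → ℝ) (S : Fin q → Bool) (w : Fin c → ℝ) (θ : Fin q → ℝ)
    (lam : Fin p → ℝ) (l0 : ℝ) : Prop :=
  (∀ j, ¬ S j = true ∨ 0 < ∑ l, C j l * w l) ∨
    ((∀ j, ¬ θ j < 0 ∧ (S j = true ∨ θ j = 0)) ∧ (∃ j, ¬ θ j = 0) ∧ (∀ l, ∑ j, θ j * C j l = 0) ∧
      (∀ i, ¬ lam i < 0) ∧ ¬ l0 < 0 ∧
      (∀ r, ∑ i, lam i * D i r + l0 * (-1 * ∑ j, θ j * A j r) = 0) ∧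
      (∑ i, lam i * E i + l0 * (-1 * ∑ j, θ j * B j) < 0 ∨
        (¬ 0 < ∑ i, lam i * E i + l0 * (-1 * ∑ j, θ j * B j) ∧ 0 < l0)))

theorem recourse (D : Fin p → Fin m → ℝ) (E : Fin p → ℝ) (A : Fin q → Fin m → ℝ)
    (C : Fin q → Fin c → ℝ) (B : Fin q → ℝ) :
    (∀ Y : Fin m → ℝ, (∀ i, 0 ≤ ∑ r, D i r * Y r + E i) →
      ∃ Z : Fin c → ℝ, ∀ j, 0 ≤ ∑ r, A j r * Y r + ∑ l, C j l * Z l + B j) ↔
      ∀ S : Fin q → Bool, ∃ w θ lam l0, RCert D E A C B S w θ lam l0 := by
  -- the combination of the functions of `Y`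
  have comb : ∀ (θ : Fin q → ℝ) (Y : Fin m → ℝ),
      ∑ j, θ j * (∑ r, A j r * Y r + B j) = ∑ r, (∑ j, θ j * A j r) * Y r + ∑ j, θ j * B j := by
    intro θ Y
    simp only [mul_add, Finset.sum_add_distrib]
    congr 1
    simp only [Finset.mul_sum, Finset.sum_mul]
    rw [Finset.sum_comm]
    exact Finset.sum_congr rfl fun r _ => Finset.sum_congr rfl fun j _ => by ring
  constructor
  · intro h S
    rcases gordan C S with ⟨w, hw⟩ | ⟨θ, h1, h2, h3, h4⟩
    · refine ⟨w, 0, 0, 0, Or.inl fun j => ?_⟩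
      by_cases hj : S j = true
      · exact Or.inr (hw j hj)
      · exact Or.inl hj
    · have hG : ∀ Y : Fin m → ℝ, (∀ i, 0 ≤ ∑ r, D i r * Y r + E i) →
          0 ≤ ∑ r, (∑ j, θ j * A j r) * Y r + ∑ j, θ j * B j := by
        intro Y hY
        obtain ⟨Z, hZ⟩ := h Y hY
        rw [← comb]
        have e : ∑ j, θ j * (∑ r, A j r * Y r + ∑ l, C j l * Z l + B j) =
            ∑ j, θ j * (∑ r, A j r * Y r + B j) := by
          have e1 : ∑ j, θ j * ∑ l, C j l * Z l = 0 := by
            simp only [Finset.mul_sum]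
            rw [Finset.sum_comm]
            have : ∀ l, ∑ j, θ j * (C j l * Z l) = (∑ j, θ j * C j l) * Z l := by
              intro l
              rw [Finset.sum_mul]
              exact Finset.sum_congr rfl fun j _ => by ring
            simp only [this, h4, zero_mul, Finset.sum_const_zero]
          have e2 : ∀ j, θ j * (∑ r, A j r * Y r + ∑ l, C j l * Z l + B j) =
              θ j * (∑ r, A j r * Y r + B j) + θ j * ∑ l, C j l * Z l := fun j => by ring
          simp only [e2, Finset.sum_add_distrib, e1, add_zero]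
        rw [← e]
        exact Finset.sum_nonneg fun j _ => mul_nonneg (h1 j) (hZ j)
      obtain ⟨lam, l0, a1, a2, a3, a4⟩ := (farkas D E _ _).1 hG
      refine ⟨0, θ, lam, l0, Or.inr ⟨fun j => ⟨not_lt.2 (h1 j), h2 j⟩, h3, h4,
        fun i => not_lt.2 (a1 i), not_lt.2 a2, a3, ?_⟩⟩
      rcases a4 with a4 | a4
      · exact Or.inl a4
      · exact Or.inr ⟨not_lt.2 a4.1, a4.2⟩
  · intro h Y hY
    have hall : ∀ θ, Dep C θ → ∀ Y : Fin m → ℝ, (∀ i, 0 ≤ ∑ r, D i r * Y r + E i) →
        0 ≤ ∑ j, θ j * (∑ r, A j r * Y r + B j) := by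
      refine decomp C (fun θ => ∀ Y : Fin m → ℝ, (∀ i, 0 ≤ ∑ r, D i r * Y r + E i) →
        0 ≤ ∑ j, θ j * (∑ r, A j r * Y r + B j)) ?_ ?_ ?_
      · intro Y _
        simp
      · intro θ θ' t ht g1 g2 Y hY
        have e : ∑ j, (θ j + t * θ' j) * (∑ r, A j r * Y r + B j) =
            ∑ j, θ j * (∑ r, A j r * Y r + B j) + t * ∑ j, θ' j * (∑ r, A j r * Y r + B j) := by
          rw [Finset.mul_sum, ← Finset.sum_add_distrib]
          exact Finset.sum_congr rfl fun j _ => by ring
        rw [e]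
        exact add_nonneg (g1 Y hY) (mul_nonneg ht.le (g2 Y hY))
      · intro S
        obtain ⟨w, θ, lam, l0, hc⟩ := h S
        rcases hc with hc | ⟨c1, c2, c3, c4, c5, c6, c7⟩
        · refine Or.inl ⟨w, fun j hj => ?_⟩
          rcases hc j with h1 | h1
          · exact absurd hj h1
          · exact h1
        · refine Or.inr ⟨θ, ⟨fun j => not_lt.1 (c1 j).1, c3⟩, fun j => (c1 j).2, c2, ?_⟩
          intro Y hY
          rw [comb]
          refine (farkas D E _ _).2 ⟨lam, l0, fun i => not_lt.1 (c4 i), not_lt.1 c5, c6, ?_⟩ Y hY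
          rcases c7 with c7 | c7
          · exact Or.inl c7
          · exact Or.inr ⟨not_lt.1 c7.1, c7.2⟩
    by_contra hno
    have h1 : ¬ ∃ Z : Fin c → ℝ, ∀ j, ((⟨C j, ∑ r, A j r * Y r + B j, False⟩ :
        Motz.Con c)).Sat Z := by
      rintro ⟨Z, hZ⟩
      refine hno ⟨Z, fun j => ?_⟩
      have := (hZ j).1
      simp only at this
      linarith
    obtain ⟨θ, b1, b2, b3⟩ := (Motz.motzkin _).1 h1
    have h2 := hall θ ⟨b1, b2⟩ Y hY
    rcases b3 with b3 | ⟨-, t, b4, -⟩
    · simp only at b3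
      linarith
    · exact b4

end

end Pool.Agent.Lib.MP_77492d_lc.RC
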