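import Pool.Agent.Lib.MP_77492d_lc.Rec35

/-!
# Sentences with linear recourse: the formula, its correctness, polynomial time
-/

set_option autoImplicit false

namespace Pool.Agent.Lib.MP_77492d_lc.RC

open Pool.Agent.Lib.PolyFun
open TK AF

/-! ### The formula -/

/-- the sum `∑ x ∈ l, f x g x` -/
def dot {V I : Type} (l : List I) (f g : I → Tm V) : Tm V := bigSum (l.map fun x => .mul (f x) (g x))

/-- `f + l0 * (-1 * g)` -/
def bal {V : Type} (l0 f g : Tm V) : Tm V := .add f (.mul l0 (.mul (.const (-1)) g))

/-- the certificate -/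
def recG {V I J L R : Type} (lq : List J) (lc : List L) (lp : List I) (lm : List R)
    (s : J → Tm V) (w : L → Tm V) (th : J → Tm V) (la : I → Tm V) (l0 : Tm V)
    (D : I → R → Tm V) (E : I → Tm V) (A : J → R → Tm V) (C : J → L → Tm V) (B : J → Tm V) :
    Fml V :=
  .or
    (bigAnd (lq.map fun j => .or (.not (.eq (s j) (.const 1))) (.lt (.const 0) (dot lc (C j) w))))
    (.and (bigAnd (lq.map fun j =>
        .and (.not (.lt (th j) (.const 0))) (.or (.eq (s j) (.const 1)) (.eq (th j) (.const 0)))))
      (.and (bigOr (lq.map fun j => .not (.eq (th j) (.const 0))))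
        (.and (bigAnd (lc.map fun l => .eq (dot lq th fun j => C j l) (.const 0)))
          (.and (bigAnd (lp.map fun i => .not (.lt (la i) (.const 0))))
            (.and (.not (.lt l0 (.const 0)))
              (.and (bigAnd (lm.map fun r =>
                  .eq (bal l0 (dot lp la fun i => D i r) (dot lq th fun j => A j r)) (.const 0)))
                (.or (.lt (bal l0 (dot lp la E) (dot lq th B)) (.const 0))
                  (.and (.not (.lt (.const 0) (bal l0 (dot lp la E) (dot lq th B))))
                    (.lt (.const 0) l0)))))))))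

theorem dot_map {V W : Type} (f : V → W) {n : ℕ} (g h : Fin n → Tm V) (g' h' : ℕ → Tm W)
    (hg : ∀ i : Fin n, (g i).map f = g' i) (hh : ∀ i : Fin n, (h i).map f = h' i) :
    (dot (List.finRange n) g h).map f = dot (List.range n) g' h' := by
  rw [dot, dot, bigSum_map, List.map_map]
  refine congrArg bigSum (finRange_map _ _ _ fun i => ?_)
  simp only [Function.comp_apply, Tm.map, hg, hh]

theorem bal_map {V W : Type} (f : V → W) (l0 g h : Tm V) :
    (bal l0 g h).map f = bal (l0.map f) (g.map f) (h.map f) := rfl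

theorem recG_map {V W : Type} (f : V → W) {q c p m : ℕ} (s : Fin q → Tm V) (w : Fin c → Tm V)
    (th : Fin q → Tm V) (la : Fin p → Tm V) (l0 : Tm V) (D : Fin p → Fin m → Tm V)
    (E : Fin p → Tm V) (A : Fin q → Fin m → Tm V) (C : Fin q → Fin c → Tm V) (B : Fin q → Tm V)
    (s' w' th' la' : ℕ → Tm W) (l0' : Tm W) (D' : ℕ → ℕ → Tm W) (E' : ℕ → Tm W)
    (A' C' : ℕ → ℕ → Tm W) (B' : ℕ → Tm W)
    (hs : ∀ j : Fin q, (s j).map f = s' j) (hw : ∀ l : Fin c, (w l).map f = w' l)
    (hth : ∀ j : Fin q, (th j).map f = th' j) (hla : ∀ i : Fin p, (la i).map f = la' i)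
    (hl : l0.map f = l0') (hD : ∀ (i : Fin p) (r : Fin m), (D i r).map f = D' i r)
    (hE : ∀ i : Fin p, (E i).map f = E' i)
    (hA : ∀ (j : Fin q) (r : Fin m), (A j r).map f = A' j r)
    (hC : ∀ (j : Fin q) (l : Fin c), (C j l).map f = C' j l)
    (hB : ∀ j : Fin q, (B j).map f = B' j) :
    (recG (List.finRange q) (List.finRange c) (List.finRange p) (List.finRange m) s w th la l0
      D E A C B).map f =
      recG (List.range q) (List.range c) (List.range p) (List.range m) s' w' th' la' l0'
        D' E' A' C' B' := by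
  have hk : (bal l0 (dot (List.finRange p) la E) (dot (List.finRange q) th B)).map f =
      bal l0' (dot (List.range p) la' E') (dot (List.range q) th' B') := by
    rw [bal_map, hl, dot_map f la E la' E' hla hE, dot_map f th B th' B' hth hB]
  rw [recG, recG]
  simp only [Fml.map, bigAnd_map, bigOr_map, List.map_map, Tm.map, hk, hl]
  refine congrArg₂ Fml.or (congrArg bigAnd (finRange_map _ _ _ fun j => ?_))
    (congrArg₂ Fml.and (congrArg bigAnd (finRange_map _ _ _ fun j => ?_))
      (congrArg₂ Fml.and (congrArg bigOr (finRange_map _ _ _ fun j => ?_))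
        (congrArg₂ Fml.and (congrArg bigAnd (finRange_map _ _ _ fun l => ?_))
          (congrArg₂ Fml.and (congrArg bigAnd (finRange_map _ _ _ fun i => ?_))
            (congrArg₂ Fml.and rfl
              (congrArg₂ Fml.and (congrArg bigAnd (finRange_map _ _ _ fun r => ?_)) rfl))))))
  · simp only [Function.comp_apply, Fml.map, Tm.map, hs]
    rw [dot_map f (C j) w (C' j) w' (hC j) hw]
  · simp only [Function.comp_apply, Fml.map, Tm.map, hs, hth]
  · simp only [Function.comp_apply, Fml.map, Tm.map, hth]
  · simp only [Function.comp_apply, Fml.map, Tm.map]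
    rw [dot_map f th (fun j => C j l) th' (fun j => C' j l) hth fun j => hC j l]
  · simp only [Function.comp_apply, Fml.map, Tm.map, hla]
  · simp only [Function.comp_apply, Fml.map, Tm.map, bal_map, hl]
    rw [dot_map f la (fun i => D i r) la' (fun i => D' i r) hla fun i => hD i r,
      dot_map f th (fun j => A j r) th' (fun j => A' j r) hth fun j => hA j r]

theorem val_dot {V : Type} {n : ℕ} (ρ : V → ℝ) (f g : Fin n → Tm V) :
    (dot (List.finRange n) f g).val ρ = ∑ i, (f i).val ρ * (g i).val ρ := by
  rw [dot, val_bigSum, List.map_map, Fin.sum_univ_def]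
  rfl

section

variable {a k m c p q : ℕ}

/-- the variables of the new sentence -/
abbrev Vr (a k c p q : ℕ) : Type := Fin a ⊕ (Fin (k + q) ⊕ Fin (c + (q + (p + 1))))

/-- the bit of the row `j` -/
def sT (j : Fin q) : Tm (Vr a k c p q) := .var (.inr (.inl (Fin.natAdd k j)))

/-- the coordinates of `w` -/
def wT (l : Fin c) : Tm (Vr a k c p q) := .var (.inr (.inr (Fin.castAdd _ l)))

/-- the multiplier of the row `j` -/
def thT (j : Fin q) : Tm (Vr a k c p q) :=
  .var (.inr (.inr (Fin.natAdd c (Fin.castAdd (p + 1) j))))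

/-- the multiplier of the inequality `i` of the domain -/
def laT (i : Fin p) : Tm (Vr a k c p q) :=
  .var (.inr (.inr (Fin.natAdd c (Fin.natAdd q (Fin.castAdd 1 i)))))

/-- the multiplier of the target -/
def l0T : Tm (Vr a k c p q) :=
  .var (.inr (.inr (Fin.natAdd c (Fin.natAdd q (Fin.natAdd p (0 : Fin 1))))))

/-- the variables of the coefficients -/
def embR : Fin a ⊕ Fin k → Vr a k c p q := Sum.elim .inl fun i => .inr (.inl (Fin.castAdd _ i))

end

/-- the matrix of the new sentence -/
def recF (S : RecSentence) : Fml (Vr S.a S.k S.c S.p S.q) :=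
  recG (List.finRange S.q) (List.finRange S.c) (List.finRange S.p) (List.finRange S.m)
    sT wT thT laT l0T (fun i r => (S.D i r).map embR) (fun i => (S.E i).map embR)
    (fun j r => (S.A j r).map embR) (fun j l => (S.C j l).map embR) (fun j => (S.B j).map embR)

/-- The sentence with a Boolean universal block. -/
def recOf (S : RecSentence) : Sentence :=
  ⟨S.a, S.k + S.q, S.c + (S.q + (S.p + 1)), recF S⟩

theorem holds_recF (S : RecSentence) (X : Fin S.a → ℝ) (β : Fin (S.k + S.q) → Bool)
    (Z : Fin (S.c + (S.q + (S.p + 1))) → ℝ) :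
    (recF S).Holds (Sum.elim X (Sum.elim (real β) Z)) ↔
      RCert (fun i r => (S.D i r).val (Sum.elim X (real fun i => β (Fin.castAdd _ i))))
        (fun i => (S.E i).val (Sum.elim X (real fun i => β (Fin.castAdd _ i))))
        (fun j r => (S.A j r).val (Sum.elim X (real fun i => β (Fin.castAdd _ i))))
        (fun j l => (S.C j l).val (Sum.elim X (real fun i => β (Fin.castAdd _ i))))
        (fun j => (S.B j).val (Sum.elim X (real fun i => β (Fin.castAdd _ i))))
        (fun j => β (Fin.natAdd S.k j))
        (fun l => Z (Fin.castAdd _ l))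
        (fun j => Z (Fin.natAdd S.c (Fin.castAdd (S.p + 1) j)))
        (fun i => Z (Fin.natAdd S.c (Fin.natAdd S.q (Fin.castAdd 1 i))))
        (Z (Fin.natAdd S.c (Fin.natAdd S.q (Fin.natAdd S.p (0 : Fin 1))))) := by
  have h1 : ∀ t : Tm (Fin S.a ⊕ Fin S.k), (t.map (embR (c := S.c) (p := S.p) (q := S.q))).val
      (Sum.elim X (Sum.elim (real β) Z)) =
      t.val (Sum.elim X (real fun i => β (Fin.castAdd _ i))) := by
    intro t
    rw [Tm.val_map]
    congr 1
    funext v
    rcases v with v | v <;> rfl
  have h5 : ∀ p : Bool, ((if p = true then (1 : ℝ) else 0) = 1) ↔ p = true := by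
    intro p
    cases p <;> simp
  simp only [recF, recG, Fml.Holds, holds_bigAnd, holds_bigOr, List.mem_map, List.mem_finRange,
    true_and, forall_exists_index, forall_apply_eq_imp_iff, exists_exists_eq_and, val_dot, bal,
    Tm.val, h1, RCert, sT, wT, thT, laT, l0T, Sum.elim_inl, Sum.elim_inr, Int.cast_zero]
  simp only [real, Int.cast_neg, Int.cast_one, h5]

theorem recOf_holds (S : RecSentence) : (recOf S).Holds ↔ S.Holds := by
  unfold Sentence.Holds EBE RecSentence.Holds
  change (∃ X : Fin S.a → ℝ, ∀ β : Fin (S.k + S.q) → Bool,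
    ∃ Z : Fin (S.c + (S.q + (S.p + 1))) → ℝ,
      (recF S).Holds (Sum.elim X (Sum.elim (real β) Z))) ↔ _
  refine exists_congr fun X => ?_
  constructor
  · intro h b
    refine (recourse _ _ _ _ _).2 fun s => ?_
    obtain ⟨Z, hZ⟩ := h (Fin.addCases b s)
    rw [holds_recF] at hZ
    simp only [Fin.addCases_left, Fin.addCases_right] at hZ
    exact ⟨_, _, _, _, hZ⟩
  · intro h β
    obtain ⟨w, θ, lam, l0, hc⟩ := (recourse _ _ _ _ _).1
      (h fun i => β (Fin.castAdd _ i)) fun j => β (Fin.natAdd S.k j)
    refine ⟨Fin.addCases w (Fin.addCases θ (Fin.addCases lam fun _ => l0)), ?_⟩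
    rw [holds_recF]
    simp only [Fin.addCases_left, Fin.addCases_right]
    exact hc

end Pool.Agent.Lib.MP_77492d_lc.RC
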