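import Pool.Agent.Lib.MP_77492d_lc.Basic

set_option autoImplicit false

/-!
# From sentences with a Boolean universal block to VC-SEMIALG on the real line
-/

namespace Pool.Agent.Lib.MP_77492d_lc

open Pool.Agent.Lib.PT

namespace R1

variable (n m l : ℕ)

/-- The number of parameters. -/
abbrev par : ℕ := n + (n + (m + 1)) + l

/-- The variables of the new formula: the point and the parameters. -/
abbrev W : Type := Fin 1 ⊕ Fin (par n m l)

/-- The index of the copy of `X`. -/
def iX (i : Fin n) : Fin (par n m l) := ⟨i.1, by simp only [par]; omega⟩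

/-- The index of the marks. -/
def iE (s : Fin (n + (m + 1))) : Fin (par n m l) := ⟨s.1 + n, by simp only [par]; omega⟩

/-- The index of the variables of the third block. -/
def iZ (h : Fin l) : Fin (par n m l) := ⟨h.1 + (n + (n + (m + 1))), by simp only [par]; omega⟩

/-- The mark of the coordinate `j` of `X`. -/
def sX (j : Fin n) : Fin (n + (m + 1)) := ⟨j.1, by omega⟩

/-- The mark of the bit `j`. -/
def sB (j : Fin (m + 1)) : Fin (n + (m + 1)) := ⟨j.1 + n, by omega⟩

/-- The renaming. -/
def ren : Fin n ⊕ Fin m ⊕ Fin l → W n m l :=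
  Sum.elim (fun i => Sum.inr (iX n m l i))
    (Sum.elim (fun j => Sum.inr (iE n m l (sB n m j.castSucc)))
      (fun h => Sum.inr (iZ n m l h)))

/-- The point. -/
def pt : Term (W n m l) := .var (Sum.inl 0)

/-- The point minus `j`. -/
def um (j : ℕ) : Term (W n m l) := .add (pt n m l) (.mul (.const (-1)) (num j))

/-- The mark `s` is `1`. -/
def m1 (s : Fin (n + (m + 1))) : Form (W n m l) := .eq (.var (Sum.inr (iE n m l s))) (.const 1)

/-- The mark `s` is `0`. -/
def m0 (s : Fin (n + (m + 1))) : Form (W n m l) := .eq (.var (Sum.inr (iE n m l s))) (.const 0)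

/-- The marks are `0` or `1`. -/
def fB : Form (W n m l) :=
  bigAnd ((List.finRange (n + (m + 1))).map fun s => .or (m0 n m l s) (m1 n m l s))

/-- The point is the point of the coordinate `j` of `X`. -/
def fC (j : Fin n) : Form (W n m l) :=
  .and (m1 n m l (sX n m j)) (.and (.lt (.const 0) (um n m l j.1))
    (.and (.lt (um n m l j.1) (.const 1))
      (.eq (.mul (.var (Sum.inr (iX n m l j))) (.mul (um n m l j.1)
        (.add (.const 1) (.mul (.const (-1)) (um n m l j.1)))))
        (.add (um n m l j.1) (.add (um n m l j.1) (.const (-1)))))))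

/-- The point is the point of the bit `j`. -/
def fD (j : Fin (m + 1)) : Form (W n m l) :=
  .and (m1 n m l (sB n m j)) (.eq (pt n m l) (num (j.1 + n)))

variable {n m l}

/-- The new formula. -/
def form (A : Form (Fin n ⊕ Fin m ⊕ Fin l)) : Form (W n m l) :=
  .and (fB n m l) (.and
    (.or (bigOr ((List.finRange n).map (fC n m l)))
      (bigOr ((List.finRange (m + 1)).map (fD n m l))))
    (.or (bigOr ((List.finRange n).map fun j => m0 n m l (sX n m j))) (A.map (ren n m l))))

end R1

/-- The reduction. -/
def red1 (I : Sent) : VCInst where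
  n := 1
  m := R1.par I.n I.m I.l
  k := I.n + (I.m + 1)
  pos := Nat.succ_pos _
  form := R1.form I.form

namespace R1

/-! ### The words -/

/-- The substitution of letters. -/
def g (n m : ℕ) : Letter → List Letter
  | .sX => [.sY]
  | .eX => [.eY]
  | .sY => [.sY]
  | .eY => List.replicate (n + n) .sY ++ [.eY]
  | .sZ => [.sY]
  | .eZ => List.replicate (n + (n + (m + 1))) .sY ++ [.eY]
  | a => [a]

/-- A word that starts with an operation. -/
def op (x : Letter) (u w : List Letter) : List Letter := x :: (u ++ w)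

/-- The word of `um`. -/
def wu (j : ℕ) : List Letter := op .plus (vX 0) (op .times (intCode (-1)) (numc j))

/-- The word of `m1`. -/
def w1 (n s : ℕ) : List Letter := op .eq (vY (s + n)) (intCode 1)

/-- The word of `m0`. -/
def w0 (n s : ℕ) : List Letter := op .eq (vY (s + n)) (intCode 0)

/-- The word of `fC`. -/
def wC (n j : ℕ) : List Letter :=
  op .and (w1 n j) (op .and (op .lt (intCode 0) (wu j)) (op .and (op .lt (wu j) (intCode 1))
    (op .eq (op .times (vY j) (op .times (wu j) (op .plus (intCode 1) (op .times (intCode (-1))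
      (wu j))))) (op .plus (wu j) (op .plus (wu j) (intCode (-1)))))))

/-- The word of `fD`. -/
def wD (n j : ℕ) : List Letter := op .and (w1 n (j + n)) (op .eq (vX 0) (numc (j + n)))

/-- The word of `fB`. -/
def cB (n m : ℕ) : List Letter :=
  ((List.range (n + (m + 1))).flatMap fun s => Letter.and :: op .or (w0 n s) (w1 n s)) ++ ttc

/-- The word of the first disjunction. -/
def cC (n : ℕ) : List Letter := ((List.range n).flatMap fun j => Letter.or :: wC n j) ++ ffc

/-- The word of the second disjunction. -/
def cD (n m : ℕ) : List Letter :=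
  ((List.range (m + 1)).flatMap fun j => Letter.or :: wD n j) ++ ffc

/-- The word of the third disjunction. -/
def cZ (n : ℕ) : List Letter := ((List.range n).flatMap fun j => Letter.or :: w0 n j) ++ ffc

/-- The reduction on words. -/
def F (w : List Letter) : List Letter :=
  dims 1 (par (cnt .d1 w) (cnt .d2 w) (cnt .d3 w)) (cnt .d1 w + (cnt .d2 w + 1)) ++
    op .and (cB (cnt .d1 w) (cnt .d2 w)) (op .and
      (op .or (cC (cnt .d1 w)) (cD (cnt .d1 w) (cnt .d2 w)))
      (op .or (cZ (cnt .d1 w)) ((body w).flatMap (g (cnt .d1 w) (cnt .d2 w)))))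

theorem g_vX (n m i : ℕ) : (vX i).flatMap (g n m) = vY i := by
  rw [vX, vY, List.flatMap_append, List.flatMap_replicate]
  simp [g]

theorem g_vY (n m j : ℕ) : (vY j).flatMap (g n m) = vY (j + n + n) := by
  rw [vY, vY, List.flatMap_append, List.flatMap_replicate]
  simp only [g, List.replicate_add, List.flatMap_singleton, List.append_assoc, Nat.add_assoc]
  simp

theorem g_vZ (n m h : ℕ) : (vZ h).flatMap (g n m) = vY (h + (n + (n + (m + 1)))) := by
  rw [vZ, vY, List.flatMap_append, List.flatMap_replicate]
  simp [g]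
  rw [List.replicate_add h, List.append_assoc]

theorem g_fix (n m : ℕ) (a : Letter) (h : isVar a = false) : g n m a = [a] := by
  cases a <;> first | rfl | exact absurd h (by decide)

/-- The codes of the variables of the new formula. -/
abbrev cv (n m l : ℕ) : W n m l → List Letter :=
  Sum.elim (fun i => vX i.1) (fun j => vY j.1)

theorem code_um (n m l j : ℕ) : (um n m l j).code (cv n m l) = wu j := by
  simp only [um, Term.code, code_num]
  rfl

theorem code_fC (n m l : ℕ) (j : Fin n) : (fC n m l j).code (cv n m l) = wC n j.1 := by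
  simp only [fC, Form.code, Term.code, code_um]
  rfl

theorem code_fD (n m l : ℕ) (j : Fin (m + 1)) :
    (fD n m l j).code (cv n m l) = wD n j.1 := by
  simp only [fD, Form.code, code_num]
  rfl

theorem code_fB (n m l : ℕ) : (fB n m l).code (cv n m l) = cB n m := by
  rw [fB, code_bigAnd, List.flatMap_map, cB,
    ← flatMap_finRange (n + (m + 1)) fun s => Letter.and :: op .or (w0 n s) (w1 n s)]
  rfl

theorem code_C (n m l : ℕ) :
    (bigOr ((List.finRange n).map (fC n m l))).code (cv n m l) = cC n := by
  rw [code_bigOr, List.flatMap_map, cC, ← flatMap_finRange n fun j => Letter.or :: wC n j]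
  congr 1
  exact List.flatMap_congr fun j _ => by rw [code_fC]

theorem code_D (n m l : ℕ) :
    (bigOr ((List.finRange (m + 1)).map (fD n m l))).code (cv n m l) = cD n m := by
  rw [code_bigOr, List.flatMap_map, cD,
    ← flatMap_finRange (m + 1) fun j => Letter.or :: wD n j]
  congr 1
  exact List.flatMap_congr fun j _ => by rw [code_fD]

theorem code_Z (n m l : ℕ) :
    (bigOr ((List.finRange n).map fun j => m0 n m l (sX n m j))).code (cv n m l) = cZ n := by
  rw [code_bigOr, List.flatMap_map, cZ, ← flatMap_finRange n fun j => Letter.or :: w0 n j]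
  rfl

theorem isD_sent (I : Sent) : ∀ a ∈ I.form.code (Sum.elim (fun i : Fin I.n => vX i)
    (Sum.elim (fun j : Fin I.m => vY j) (fun h : Fin I.l => vZ h))), isD a = false := by
  refine Form.isD_code ?_ I.form
  rintro (i | j | h)
  · exact isD_vX _
  · exact isD_vY _
  · exact isD_vZ _

theorem F_code (I : Sent) : F I.code = (red1 I).code := by
  obtain ⟨h1, h2, h3, h4⟩ := read (a := I.n) (b := I.m) (c := I.l) (isD_sent I)
  rw [F, Sent.code, h1, h2, h3, h4]
  have h5 := Form.code_map (f := ren I.n I.m I.l) (cw := cv I.n I.m I.l)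
    (cv := Sum.elim (fun i : Fin I.n => vX i)
      (Sum.elim (fun j : Fin I.m => vY j) (fun h : Fin I.l => vZ h))) (g_fix I.n I.m) ?_ I.form
  · rw [h5, ← code_fB I.n I.m I.l, ← code_C I.n I.m I.l, ← code_D I.n I.m I.l,
      ← code_Z I.n I.m I.l]
    rfl
  · rintro (i | j | h)
    · exact g_vX _ _ _
    · exact g_vY _ _ _
    · exact g_vZ _ _ _

/-! ### Polynomial time -/

@[fun_prop] theorem ptime_op {α : Type} [Enc α] (x : Letter) {f h : α → List Letter}
    (hf : PTime f) (hh : PTime h) : PTime fun a => op x (f a) (h a) := by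
  unfold op
  fun_prop

@[fun_prop] theorem ptime_wu {α : Type} [Enc α] {f : α → ℕ} (hf : PTime f) :
    PTime fun a => wu (f a) := by
  unfold wu
  fun_prop

@[fun_prop] theorem ptime_w1 {α : Type} [Enc α] {f h : α → ℕ} (hf : PTime f) (hh : PTime h) :
    PTime fun a => w1 (f a) (h a) := by
  unfold w1
  fun_prop

@[fun_prop] theorem ptime_w0 {α : Type} [Enc α] {f h : α → ℕ} (hf : PTime f) (hh : PTime h) :
    PTime fun a => w0 (f a) (h a) := by
  unfold w0
  fun_prop

@[fun_prop] theorem ptime_wC {α : Type} [Enc α] {f h : α → ℕ} (hf : PTime f) (hh : PTime h) :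
    PTime fun a => wC (f a) (h a) := by
  unfold wC
  fun_prop

@[fun_prop] theorem ptime_wD {α : Type} [Enc α] {f h : α → ℕ} (hf : PTime f) (hh : PTime h) :
    PTime fun a => wD (f a) (h a) := by
  unfold wD
  fun_prop

theorem ptime_cB : PTime fun p : ℕ × ℕ => cB p.1 p.2 := by
  have h : PTime fun p : ℕ × ℕ => (List.range (p.1 + (p.2 + 1))).flatMap fun s =>
      Letter.and :: op .or (w0 p.1 s) (w1 p.1 s) :=
    PTime.flatMap (f := fun (p : ℕ × ℕ) (s : ℕ) => Letter.and :: op .or (w0 p.1 s) (w1 p.1 s))
      (by fun_prop) (by fun_prop)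
  unfold cB
  fun_prop

theorem ptime_cC : PTime cC := by
  have h : PTime fun n : ℕ => (List.range n).flatMap fun j => Letter.or :: wC n j :=
    PTime.flatMap (f := fun (n : ℕ) (j : ℕ) => Letter.or :: wC n j) (by fun_prop) (by fun_prop)
  unfold cC
  fun_prop

theorem ptime_cD : PTime fun p : ℕ × ℕ => cD p.1 p.2 := by
  have h : PTime fun p : ℕ × ℕ => (List.range (p.2 + 1)).flatMap fun j =>
      Letter.or :: wD p.1 j :=
    PTime.flatMap (f := fun (p : ℕ × ℕ) (j : ℕ) => Letter.or :: wD p.1 j)
      (by fun_prop) (by fun_prop)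
  unfold cD
  fun_prop

theorem ptime_cZ : PTime cZ := by
  have h : PTime fun n : ℕ => (List.range n).flatMap fun j => Letter.or :: w0 n j :=
    PTime.flatMap (f := fun (n : ℕ) (j : ℕ) => Letter.or :: w0 n j) (by fun_prop) (by fun_prop)
  unfold cZ
  fun_prop

theorem ptime_F : PTime F := by
  have h4 : PTime fun p : List Letter × Letter => g (cnt .d1 p.1) (cnt .d2 p.1) p.2 := by
    refine PTime.finCases (g := fun p : List Letter × Letter => p.2)
      (h := fun p a => g (cnt .d1 p.1) (cnt .d2 p.1) a) (by fun_prop) fun a => ?_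
    cases a <;> simp only [g] <;> fun_prop
  have h5 : PTime fun w : List Letter => (body w).flatMap (g (cnt .d1 w) (cnt .d2 w)) :=
    PTime.flatMap (f := fun w a => g (cnt .d1 w) (cnt .d2 w) a) (by fun_prop) h4
  have h6 : PTime fun w : List Letter => cC (cnt .d1 w) := ptime_cC.comp (by fun_prop)
  have h7 : PTime fun w : List Letter => cB (cnt .d1 w) (cnt .d2 w) :=
    ptime_cB.comp (g := fun w : List Letter => (cnt .d1 w, cnt .d2 w)) (by fun_prop)
  have h8 : PTime fun w : List Letter => cD (cnt .d1 w) (cnt .d2 w) :=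
    ptime_cD.comp (g := fun w : List Letter => (cnt .d1 w, cnt .d2 w)) (by fun_prop)
  have h9 : PTime fun w : List Letter => cZ (cnt .d1 w) := ptime_cZ.comp (by fun_prop)
  unfold F par
  fun_prop

theorem tm : Nonempty (Turing.TM2ComputableInPolyTime Sent.code VCInst.code red1) :=
  ptime_tm' tr_letter_injective ptime_F F_code

end R1

end Pool.Agent.Lib.MP_77492d_lc
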