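import Pool.Agent.Lib.MP_77492d_lc.Red1

set_option autoImplicit false

/-!
# From sentences with a Boolean universal block to VC-SEMIALG on the real line: correctness
-/

namespace Pool.Agent.Lib.MP_77492d_lc

namespace R1

/-! ### The correspondence between the real line and the interval from `0` to `1` -/

/-- `u` is the number between `0` and `1` that corresponds to `X`. -/
def Rel (X u : ℝ) : Prop := 0 < u ∧ u < 1 ∧ X * (u * (1 + (-1) * u)) = u + (u + (-1))

theorem exists_rel (X : ℝ) : ∃ u, Rel X u := by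
  have hc : ContinuousOn (fun u : ℝ => u + (u + (-1)) - X * (u * (1 + (-1) * u)))
      (Set.Icc 0 1) := by fun_prop
  have h := intermediate_value_Ioo (zero_le_one' ℝ) hc
  have h0 : (0 : ℝ) ∈ Set.Ioo ((0 : ℝ) + (0 + (-1)) - X * (0 * (1 + (-1) * 0)))
      ((1 : ℝ) + (1 + (-1)) - X * (1 * (1 + (-1) * 1))) := by
    constructor <;> norm_num
  obtain ⟨u, hu, hu'⟩ := h h0
  exact ⟨u, hu.1, hu.2, by simp only at hu'; linarith⟩

theorem rel_right {X X' u : ℝ} (h : Rel X u) (h' : Rel X' u) : X = X' := by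
  obtain ⟨h1, h2, h3⟩ := h
  obtain ⟨_, _, h4⟩ := h'
  have h5 : u * (1 + (-1) * u) ≠ 0 := ne_of_gt (mul_pos h1 (by linarith))
  exact mul_right_cancel₀ h5 (h3.trans h4.symm)

theorem rel_left {X u v : ℝ} (h : Rel X u) (h' : Rel X v) : u = v := by
  obtain ⟨h1, h2, h3⟩ := h
  obtain ⟨h4, h5, h6⟩ := h'
  have h7 : (u - v) * (u * (1 - v) + v * (1 - u) - 1) = 0 := by
    have e1 : (u + (u + (-1))) * (v * (1 + (-1) * v)) =
        (v + (v + (-1))) * (u * (1 + (-1) * u)) := by
      rw [← h3, ← h6]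
      ring
    linear_combination (-1) * e1
  rcases mul_eq_zero.1 h7 with h8 | h8
  · linarith
  · exfalso
    have h9 : 0 < u * v := mul_pos h1 h4
    have h10 : 0 < (1 - u) * (1 - v) := mul_pos (by linarith) (by linarith)
    nlinarith

/-- The number that corresponds to `X`. -/
noncomputable def uu (X : ℝ) : ℝ := (exists_rel X).choose

theorem rel_uu (X : ℝ) : Rel X (uu X) := (exists_rel X).choose_spec

theorem rel_iff {X u : ℝ} : Rel X u ↔ u = uu X :=
  ⟨fun h => rel_left h (rel_uu X), fun h => h ▸ rel_uu X⟩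

theorem uu_injective : Function.Injective uu := fun X X' h =>
  rel_right (rel_uu X) (by rw [h]; exact rel_uu X')

/-! ### The points -/

section

variable {n m l : ℕ}

/-- The real number of the mark `s`. -/
noncomputable def tau (X : Fin n → ℝ) (s : Fin (n + (m + 1))) : ℝ :=
  if h : s.1 < n then s.1 + uu (X ⟨s.1, h⟩) else s.1

theorem tau_sX (X : Fin n → ℝ) (j : Fin n) : tau X (sX n m j) = j.1 + uu (X j) := by
  rw [tau, dif_pos (show (sX n m j).1 < n from j.2)]
  rfl

theorem tau_sB (X : Fin n → ℝ) (j : Fin (m + 1)) : tau X (sB n m j) = ((j.1 + n : ℕ) : ℝ) := by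
  rw [tau, dif_neg (show ¬ (sB n m j).1 < n by simp only [sB]; omega)]
  rfl

theorem tau_bounds (X : Fin n → ℝ) (s : Fin (n + (m + 1))) :
    (s.1 : ℝ) ≤ tau X s ∧ tau X s < s.1 + 1 := by
  rw [tau]
  split_ifs with h
  · obtain ⟨h1, h2, _⟩ := rel_uu (X ⟨s.1, h⟩)
    constructor <;> linarith
  · constructor <;> linarith

theorem tau_eq {X X' : Fin n → ℝ} {s s' : Fin (n + (m + 1))} (h : tau X s = tau X' s') :
    s = s' := by
  obtain ⟨h1, h2⟩ := tau_bounds X s
  obtain ⟨h3, h4⟩ := tau_bounds X' s'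
  have h5 : (s.1 : ℝ) < s'.1 + 1 := by linarith
  have h6 : (s'.1 : ℝ) < s.1 + 1 := by linarith
  have h7 : s.1 < s'.1 + 1 := by exact_mod_cast h5
  have h8 : s'.1 < s.1 + 1 := by exact_mod_cast h6
  exact Fin.ext (by omega)

theorem cases_mark (s : Fin (n + (m + 1))) : (∃ j, s = sX n m j) ∨ ∃ j, s = sB n m j := by
  by_cases h : s.1 < n
  · exact Or.inl ⟨⟨s.1, h⟩, rfl⟩
  · exact Or.inr ⟨⟨s.1 - n, by omega⟩, Fin.ext (by simp only [sB]; omega)⟩

/-- The point with the real coordinate `t`. -/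
def con (t : ℝ) : Fin 1 → ℝ := fun _ => t

theorem con_inj {t t' : ℝ} (h : con t = con t') : t = t' := congrFun h 0

theorem eq_con (x : Fin 1 → ℝ) : x = con (x 0) := by
  funext i
  rw [Fin.eq_zero i]
  rfl

/-! ### The meaning of the formula -/

variable (A : Form (Fin n ⊕ Fin m ⊕ Fin l)) (x : Fin 1 → ℝ) (y : Fin (par n m l) → ℝ)

/-- The copy of `X` in the parameter. -/
def yX (y : Fin (par n m l) → ℝ) : Fin n → ℝ := fun j => y (iX n m l j)

theorem holds_fB : (fB n m l).Holds (Sum.elim x y) ↔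
    ∀ s : Fin (n + (m + 1)), y (iE n m l s) = 0 ∨ y (iE n m l s) = 1 := by
  rw [fB, holds_bigAnd]
  simp only [List.mem_map, List.mem_finRange, true_and, forall_exists_index,
    forall_apply_eq_imp_iff, Form.Holds, Term.val, Sum.elim_inr, Int.cast_zero, Int.cast_one,
    m0, m1]

theorem val_um (j : ℕ) : (um n m l j).val (Sum.elim x y) = x 0 + (-1) * (j : ℝ) := by
  simp only [um, pt, Term.val, Sum.elim_inl, val_num]
  norm_num

theorem holds_fC (j : Fin n) : (fC n m l j).Holds (Sum.elim x y) ↔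
    y (iE n m l (sX n m j)) = 1 ∧ x 0 = tau (yX y) (sX n m j) := by
  have h : (fC n m l j).Holds (Sum.elim x y) ↔
      y (iE n m l (sX n m j)) = 1 ∧ Rel (yX y j) (x 0 + (-1) * (j.1 : ℝ)) := by
    simp only [fC, Form.Holds, Term.val, val_um, m1, Sum.elim_inr, Int.cast_zero, Int.cast_one,
      Rel, yX, Int.cast_neg]
  rw [h, rel_iff, tau_sX]
  refine and_congr_right fun _ => ⟨fun h => by linarith, fun h => by linarith⟩

theorem holds_fD (j : Fin (m + 1)) : (fD n m l j).Holds (Sum.elim x y) ↔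
    y (iE n m l (sB n m j)) = 1 ∧ x 0 = tau (yX y) (sB n m j) := by
  simp only [fD, Form.Holds, Term.val, m1, pt, Sum.elim_inr, Sum.elim_inl, Int.cast_one,
    val_num, tau_sB]

theorem holds_form : (form A).Holds (Sum.elim x y) ↔
    (∀ s : Fin (n + (m + 1)), y (iE n m l s) = 0 ∨ y (iE n m l s) = 1) ∧
    (∃ s : Fin (n + (m + 1)), y (iE n m l s) = 1 ∧ x 0 = tau (yX y) s) ∧
    ((∃ j : Fin n, y (iE n m l (sX n m j)) = 0) ∨ A.Holds (Sum.elim (yX y)
      (Sum.elim (fun j => y (iE n m l (sB n m j.castSucc))) (fun h => y (iZ n m l h))))) := by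
  have h1 : (A.map (ren n m l)).Holds (Sum.elim x y) ↔
      A.Holds (Sum.elim (yX y)
      (Sum.elim (fun j => y (iE n m l (sB n m j.castSucc))) (fun h => y (iZ n m l h)))) := by
    rw [Form.holds_map]
    have : (fun v => Sum.elim x y (ren n m l v)) = (Sum.elim (yX y)
      (Sum.elim (fun j => y (iE n m l (sB n m j.castSucc))) (fun h => y (iZ n m l h)))) := by
      funext v
      rcases v with i | j | h <;> rfl
    rw [this]
  have h2 : (form A).Holds (Sum.elim x y) ↔ (fB n m l).Holds (Sum.elim x y) ∧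
      ((bigOr ((List.finRange n).map (fC n m l))).Holds (Sum.elim x y) ∨
        (bigOr ((List.finRange (m + 1)).map (fD n m l))).Holds (Sum.elim x y)) ∧
      ((bigOr ((List.finRange n).map fun j => m0 n m l (sX n m j))).Holds (Sum.elim x y) ∨
        (A.map (ren n m l)).Holds (Sum.elim x y)) := Iff.rfl
  rw [h2, holds_fB, holds_bigOr, holds_bigOr, holds_bigOr, h1]
  simp only [List.mem_map, List.mem_finRange, true_and, exists_exists_eq_and, holds_fC,
    holds_fD]
  have h3 : ∀ j : Fin n, (m0 n m l (sX n m j)).Holds (Sum.elim x y) ↔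
      y (iE n m l (sX n m j)) = 0 := by
    intro j
    simp only [m0, Form.Holds, Term.val, Sum.elim_inr, Int.cast_zero]
  simp only [h3]
  refine and_congr_right fun _ => and_congr_left fun _ => ?_
  constructor
  · rintro (⟨j, h⟩ | ⟨j, h⟩)
    · exact ⟨_, h⟩
    · exact ⟨_, h⟩
  · rintro ⟨s, h⟩
    rcases cases_mark s with ⟨j, rfl⟩ | ⟨j, rfl⟩
    · exact Or.inl ⟨j, h⟩
    · exact Or.inr ⟨j, h⟩

end

/-- The parameter. -/
def pa {n m l : ℕ} (X : Fin n → ℝ) (e : Fin (n + (m + 1)) → ℝ) (Z : Fin l → ℝ) :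
    Fin (par n m l) → ℝ := fun i =>
  if h : i.1 < n then X ⟨i.1, h⟩ else
    if h' : i.1 - n < n + (m + 1) then e ⟨i.1 - n, h'⟩ else
      if h'' : i.1 - (n + (n + (m + 1))) < l then Z ⟨i.1 - (n + (n + (m + 1))), h''⟩ else 0

theorem pa_iX {n m l : ℕ} (X : Fin n → ℝ) (e : Fin (n + (m + 1)) → ℝ) (Z : Fin l → ℝ)
    (i : Fin n) : pa X e Z (iX n m l i) = X i := by
  have := i.2
  rw [pa, dif_pos (show (iX n m l i).1 < n from this)]
  rfl

theorem pa_iE {n m l : ℕ} (X : Fin n → ℝ) (e : Fin (n + (m + 1)) → ℝ) (Z : Fin l → ℝ)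
    (s : Fin (n + (m + 1))) : pa X e Z (iE n m l s) = e s := by
  have h := s.2
  have e' : (iE n m l s).1 = s.1 + n := rfl
  rw [pa, dif_neg (by omega), dif_pos (by omega)]
  congr 1
  apply Fin.ext
  simp only [e']
  omega

theorem pa_iZ {n m l : ℕ} (X : Fin n → ℝ) (e : Fin (n + (m + 1)) → ℝ) (Z : Fin l → ℝ)
    (h : Fin l) : pa X e Z (iZ n m l h) = Z h := by
  have h' := h.2
  have e' : (iZ n m l h).1 = h.1 + (n + (n + (m + 1))) := rfl
  rw [pa, dif_neg (by omega), dif_neg (by omega), dif_pos (by omega)]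
  congr 1
  apply Fin.ext
  simp only [e']
  omega

theorem yX_pa {n m l : ℕ} (X : Fin n → ℝ) (e : Fin (n + (m + 1)) → ℝ) (Z : Fin l → ℝ) :
    yX (pa X e Z) = X := funext fun j => pa_iX X e Z j

/-! ### The two directions -/

theorem yes_iff (I : Sent) : (red1 I).Yes ↔ ∃ P : Finset (Fin 1 → ℝ),
    P.card = I.n + (I.m + 1) ∧ ∀ P' ⊆ P, ∃ y : Fin (par I.n I.m I.l) → ℝ,
      {x | (form I.form).Holds (Sum.elim x y)} ∩ (P : Set (Fin 1 → ℝ)) =
        (P' : Set (Fin 1 → ℝ)) := Iff.rfl

theorem con_tau_injective {n m : ℕ} (X : Fin n → ℝ) :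
    Function.Injective fun s : Fin (n + (m + 1)) => con (tau X s) :=
  fun _ _ h => tau_eq (con_inj h)

theorem yes_of_true {I : Sent} (h : I.TrueB) : (red1 I).Yes := by
  classical
  obtain ⟨X, hX⟩ := h
  let P : Finset (Fin 1 → ℝ) := (Finset.univ : Finset (Fin (I.n + (I.m + 1)))).image
    fun s => con (tau X s)
  have hP : ∀ x, x ∈ P ↔ ∃ s : Fin (I.n + (I.m + 1)), con (tau X s) = x := by
    intro x
    simp only [P, Finset.mem_image, Finset.mem_univ, true_and]
  rw [yes_iff]
  refine ⟨P, ?_, ?_⟩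
  · rw [Finset.card_image_of_injective _ (con_tau_injective X), Finset.card_univ,
      Fintype.card_fin]
  · intro P' hP'
    let e : Fin (I.n + (I.m + 1)) → ℝ := fun s => if con (tau X s) ∈ P' then 1 else 0
    have he : ∀ s, e s = 0 ∨ e s = 1 := by
      intro s
      by_cases h : con (tau X s) ∈ P'
      · exact Or.inr (if_pos h)
      · exact Or.inl (if_neg h)
    obtain ⟨Z, hZ⟩ := hX (fun j => e (sB I.n I.m j.castSucc)) fun j => he _
    refine ⟨pa X e Z, ?_⟩
    ext x
    constructor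
    · rintro ⟨h1, h2⟩
      obtain ⟨s, rfl⟩ := (hP x).1 h2
      obtain ⟨_, ⟨s', h3, h4⟩, _⟩ := (holds_form I.form _ _).1 h1
      rw [yX_pa] at h4
      have h5 : s = s' := tau_eq h4
      subst h5
      rw [pa_iE] at h3
      by_contra h
      rw [show e s = 0 from if_neg h] at h3
      exact absurd h3 (by norm_num)
    · intro hx
      have hx' := hP' hx
      refine ⟨?_, hx'⟩
      obtain ⟨s, rfl⟩ := (hP x).1 hx'
      refine (holds_form I.form _ _).2 ⟨?_, ⟨s, ?_, ?_⟩, Or.inr ?_⟩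
      · intro s
        rw [pa_iE]
        exact he s
      · rw [pa_iE]
        exact if_pos hx
      · rw [yX_pa]
        rfl
      · simp only [yX_pa, pa_iE, pa_iZ]
        exact hZ

theorem true_of_yes {I : Sent} (h : (red1 I).Yes) : I.TrueB := by
  classical
  rw [yes_iff] at h
  obtain ⟨P, hc, hs⟩ := h
  obtain ⟨y₀, h0⟩ := hs P (Finset.Subset.refl _)
  have hy : ∀ x ∈ P, (form I.form).Holds (Sum.elim x y₀) := by
    intro x hx
    have : x ∈ {x | (form I.form).Holds (Sum.elim x y₀)} ∩ (P : Set _) := by rw [h0]; exact hx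
    exact this.1
  let X : Fin I.n → ℝ := yX y₀
  have hQ : P ⊆ (Finset.univ : Finset (Fin (I.n + (I.m + 1)))).image
      fun s => con (tau X s) := by
    intro x hx
    obtain ⟨_, ⟨s, _, h3⟩, _⟩ := (holds_form I.form _ _).1 (hy x hx)
    rw [Finset.mem_image]
    refine ⟨s, Finset.mem_univ _, ?_⟩
    rw [eq_con x, h3]
  have hQc : ((Finset.univ : Finset (Fin (I.n + (I.m + 1)))).image
      fun s => con (tau X s)).card = I.n + (I.m + 1) := by
    rw [Finset.card_image_of_injective _ (con_tau_injective X), Finset.card_univ,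
      Fintype.card_fin]
  have hPe : P = (Finset.univ : Finset (Fin (I.n + (I.m + 1)))).image
      fun s => con (tau X s) :=
    Finset.eq_of_subset_of_card_le hQ (by rw [hQc]; exact le_of_eq hc.symm)
  have hmem : ∀ s : Fin (I.n + (I.m + 1)), con (tau X s) ∈ P := by
    intro s
    rw [hPe, Finset.mem_image]
    exact ⟨s, Finset.mem_univ _, rfl⟩
  refine ⟨X, fun Y hY => ?_⟩
  let B : Fin (I.n + (I.m + 1)) → Prop := fun s =>
    ∀ j : Fin I.m, s = sB I.n I.m j.castSucc → Y j = 1
  obtain ⟨y, hy'⟩ := hs ((Finset.univ.filter B).image fun s => con (tau X s)) (by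
    intro x hx
    obtain ⟨s, _, rfl⟩ := Finset.mem_image.1 hx
    exact hmem s)
  have hiff : ∀ s : Fin (I.n + (I.m + 1)),
      (form I.form).Holds (Sum.elim (con (tau X s)) y) ↔ B s := by
    intro s
    have h1 : (form I.form).Holds (Sum.elim (con (tau X s)) y) ↔
        con (tau X s) ∈ {x | (form I.form).Holds (Sum.elim x y)} ∩ (P : Set _) :=
      ⟨fun h => ⟨h, hmem s⟩, fun h => h.1⟩
    rw [h1, hy', Finset.mem_coe, Finset.mem_image]
    constructor
    · rintro ⟨s', h2, h3⟩
      rw [← con_tau_injective X h3]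
      exact (Finset.mem_filter.1 h2).2
    · intro h
      exact ⟨s, Finset.mem_filter.2 ⟨Finset.mem_univ _, h⟩, rfl⟩
  have hBX : ∀ j : Fin I.n, B (sX I.n I.m j) := by
    intro j j' h
    exfalso
    have h1 : j.1 = j'.1 + I.n := congrArg Fin.val h
    have := j.2
    omega
  have hBl : B (sB I.n I.m (Fin.last I.m)) := by
    intro j' h
    exfalso
    have h1 : I.m + I.n = j'.1 + I.n := congrArg Fin.val h
    have := j'.2
    omega
  obtain ⟨h1, _, h3⟩ := (holds_form I.form _ _).1 ((hiff _).2 hBl)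
  have hX' : yX y = X := by
    funext j
    obtain ⟨_, ⟨s', h5, h6⟩, _⟩ := (holds_form I.form _ _).1 ((hiff _).2 (hBX j))
    have h6' : tau X (sX I.n I.m j) = tau (yX y) s' := h6
    have h7 := tau_eq h6'
    rw [← h7, tau_sX, tau_sX] at h6'
    exact (uu_injective (by linarith)).symm
  have hE : ∀ j : Fin I.n, y (iE I.n I.m I.l (sX I.n I.m j)) = 1 := by
    intro j
    obtain ⟨_, ⟨s', h5, h6⟩, _⟩ := (holds_form I.form _ _).1 ((hiff _).2 (hBX j))
    rw [tau_eq (show tau X (sX I.n I.m j) = tau (yX y) s' from h6)]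
    exact h5
  have h4 := h3.resolve_left (by
    rintro ⟨j, hj⟩
    rw [hE j] at hj
    exact absurd hj (by norm_num))
  refine ⟨fun h => y (iZ I.n I.m I.l h), ?_⟩
  have e2 : (fun j : Fin I.m => y (iE I.n I.m I.l (sB I.n I.m j.castSucc))) = Y := by
    funext j
    rcases h1 (sB I.n I.m j.castSucc) with h' | h'
    · rcases hY j with h | h
      · rw [h', h]
      · exfalso
        have h5 : B (sB I.n I.m j.castSucc) := by
          intro j' hj'
          have h6 : j.1 + I.n = j'.1 + I.n := congrArg Fin.val hj'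
          have h7 : j = j' := Fin.ext (by omega)
          rw [← h7]
          exact h
        obtain ⟨_, ⟨s', h6, h7⟩, _⟩ := (holds_form I.form _ _).1 ((hiff _).2 h5)
        rw [← tau_eq (show tau X (sB I.n I.m j.castSucc) = tau (yX y) s' from h7), h'] at h6
        exact absurd h6 (by norm_num)
    · have h5 : (form I.form).Holds (Sum.elim (con (tau X (sB I.n I.m j.castSucc))) y) := by
        refine (holds_form I.form _ _).2 ⟨h1, ⟨_, h', ?_⟩, Or.inr h4⟩
        rw [hX']
        rfl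
      rw [h', (hiff _).1 h5 j rfl]
  rw [hX', e2] at h4
  exact h4

theorem sets_small' (I : Sent) (y : Fin (par I.n I.m I.l) → ℝ) :
    {x | (form I.form).Holds (Sum.elim x y)}.Finite ∧
      {x | (form I.form).Holds (Sum.elim x y)}.ncard ≤ I.n + (I.m + 1) := by
  classical
  have h : {x | (form I.form).Holds (Sum.elim x y)} ⊆
      (((Finset.univ : Finset (Fin (I.n + (I.m + 1)))).image fun s =>
      con (tau (yX y) s) : Finset (Fin 1 → ℝ)) : Set (Fin 1 → ℝ)) := by
    intro x hx
    obtain ⟨_, ⟨s, _, h3⟩, _⟩ := (holds_form I.form _ _).1 hx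
    rw [Finset.mem_coe, Finset.mem_image]
    refine ⟨s, Finset.mem_univ _, ?_⟩
    rw [eq_con x, h3]
  refine ⟨(Finset.finite_toSet _).subset h, ?_⟩
  refine (Set.ncard_le_ncard h (Finset.finite_toSet _)).trans ?_
  rw [Set.ncard_coe_finset]
  refine Finset.card_image_le.trans ?_
  rw [Finset.card_univ, Fintype.card_fin]

theorem sets_small (I : Sent) : (red1 I).n = 1 ∧ ∀ y : Fin (red1 I).m → ℝ,
    ((red1 I).S y).Finite ∧ ((red1 I).S y).ncard ≤ (red1 I).k :=
  ⟨rfl, fun y => sets_small' I y⟩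

end R1

end Pool.Agent.Lib.MP_77492d_lc
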