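import Pool.Agent.Lib.MP_77492d_lc.Basic

set_option autoImplicit false

/-!
# From VC-SEMIALG to sentences with a Boolean universal block, and from these to sentences with a
real universal block
-/

namespace Pool.Agent.Lib.MP_77492d_lc

open Pool.Agent.Lib.PT

namespace R2

/-- The index of the coordinate `j` of the point `i`. -/
def ix (n k : ℕ) (j : Fin n) (i : Fin k) : Fin (n * k) := ⟨j.1 * k + i.1, by
  have h1 : (j.1 + 1) * k ≤ n * k := Nat.mul_le_mul_right k j.2
  have h2 := i.2
  rw [Nat.succ_mul] at h1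
  omega⟩

/-- The renaming of the copy `i`. -/
def ren (n m k : ℕ) (i : Fin k) : Fin n ⊕ Fin m → Fin (n * k) ⊕ Fin k ⊕ Fin m :=
  Sum.elim (fun j => Sum.inl (ix n k j i)) (fun h => Sum.inr (Sum.inr h))

/-- The bit `i` is `1`. -/
def bit (n m k : ℕ) (i : Fin k) : Form (Fin (n * k) ⊕ Fin k ⊕ Fin m) :=
  .eq (.var (Sum.inr (Sum.inl i))) (.const 1)

/-- The new formula. -/
def form {n m : ℕ} (k : ℕ) (A : Form (Fin n ⊕ Fin m)) : Form (Fin (n * k) ⊕ Fin k ⊕ Fin m) :=
  bigAnd ((List.finRange k).map fun i =>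
    .or (.and (A.map (ren n m k i)) (bit n m k i))
      (.and (.not (A.map (ren n m k i))) (.not (bit n m k i))))

end R2

/-- The reduction. -/
def red2 (I : VCInst) : Sent where
  n := I.n * I.k
  m := I.k
  l := I.m
  form := R2.form I.k I.form

namespace R2

/-- The substitution of letters. -/
def g (k i : ℕ) : Letter → List Letter
  | .sX => List.replicate k .sX
  | .eX => List.replicate i .sX ++ [.eX]
  | .sY => [.sZ]
  | .eY => [.eZ]
  | a => [a]

/-- The word of the copy `i`. -/
def cA (w : List Letter) (i : ℕ) : List Letter := (body w).flatMap (g (cnt .d3 w) i)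

/-- The word of the bit `i`. -/
def cb (i : ℕ) : List Letter := Letter.eq :: (vY i ++ intCode 1)

/-- The reduction on words. -/
def F (w : List Letter) : List Letter :=
  dims (cnt .d1 w * cnt .d3 w) (cnt .d3 w) (cnt .d2 w) ++
    (((List.range (cnt .d3 w)).flatMap fun i => Letter.and :: Letter.or ::
      (Letter.and :: (cA w i ++ cb i) ++
        Letter.and :: (Letter.not :: cA w i ++ Letter.not :: cb i))) ++ ttc)

theorem g_vX (k i j : ℕ) : (vX j).flatMap (g k i) = vX (j * k + i) := by
  rw [vX, vX, List.flatMap_append, List.flatMap_replicate]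
  simp only [g, List.flatten_replicate_replicate, List.flatMap_singleton]
  rw [List.replicate_add, List.append_assoc]

theorem g_vY (k i h : ℕ) : (vY h).flatMap (g k i) = vZ h := by
  rw [vY, vZ, List.flatMap_append, List.flatMap_replicate]
  simp [g]

theorem g_fix (k i : ℕ) (a : Letter) (h : isVar a = false) : g k i a = [a] := by
  cases a <;> first | rfl | exact absurd h (by decide)

theorem isD_inst (I : VCInst) : ∀ a ∈ I.form.code (Sum.elim (fun i : Fin I.n => vX i)
    (fun j : Fin I.m => vY j)), isD a = false := by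
  refine Form.isD_code ?_ I.form
  rintro (i | j)
  · exact isD_vX _
  · exact isD_vY _

theorem F_code (I : VCInst) : F I.code = (red2 I).code := by
  obtain ⟨h1, h2, h3, h4⟩ := read (a := I.n) (b := I.m) (c := I.k) (isD_inst I)
  have h5 : ∀ i : Fin I.k, cA I.code i.1 = (I.form.map (ren I.n I.m I.k i)).code
      (Sum.elim (fun i : Fin (I.n * I.k) => vX i)
        (Sum.elim (fun j : Fin I.k => vY j) (fun h : Fin I.m => vZ h))) := by
    intro i
    rw [cA, VCInst.code, h3, h4]
    refine Form.code_map (g_fix I.k i.1) ?_ I.form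
    rintro (j | h)
    · exact g_vX _ _ _
    · exact g_vY _ _ _
  have h6 : ∀ i : Fin I.k, cb i.1 = (bit I.n I.m I.k i).code
      (Sum.elim (fun i : Fin (I.n * I.k) => vX i)
        (Sum.elim (fun j : Fin I.k => vY j) (fun h : Fin I.m => vZ h))) := fun i => rfl
  have e1 : cnt .d1 I.code = I.n := h1
  have e2 : cnt .d2 I.code = I.m := h2
  have e3 : cnt .d3 I.code = I.k := h3
  rw [F, e1, e2, e3]
  have h7 : (red2 I).code = dims (I.n * I.k) I.k I.m ++ (form I.k I.form).code
      (Sum.elim (fun i : Fin (I.n * I.k) => vX i)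
        (Sum.elim (fun j : Fin I.k => vY j) (fun h : Fin I.m => vZ h))) := rfl
  rw [h7, form, code_bigAnd, List.flatMap_map]
  congr 2
  rw [← flatMap_finRange I.k fun i => Letter.and :: Letter.or ::
      (Letter.and :: (cA I.code i ++ cb i) ++
        Letter.and :: (Letter.not :: cA I.code i ++ Letter.not :: cb i))]
  refine List.flatMap_congr fun i _ => ?_
  rw [h5 i, h6 i]
  rfl

theorem ptime_F : PTime F := by
  have h1 : PTime fun p : (List Letter × ℕ) × Letter => g (cnt .d3 p.1.1) p.1.2 p.2 := by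
    refine PTime.finCases (g := fun p : (List Letter × ℕ) × Letter => p.2)
      (h := fun p a => g (cnt .d3 p.1.1) p.1.2 a) (by fun_prop) fun a => ?_
    cases a <;> simp only [g] <;> fun_prop
  have h2 : PTime fun p : List Letter × ℕ => cA p.1 p.2 :=
    PTime.flatMap (l := fun p : List Letter × ℕ => body p.1)
      (f := fun p a => g (cnt .d3 p.1) p.2 a) (by fun_prop) h1
  have h3 : PTime cb := by
    unfold cb
    fun_prop
  have h4 : PTime fun p : List Letter × ℕ => cb p.2 := h3.comp (by fun_prop)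
  have h5 : PTime fun w : List Letter => (List.range (cnt .d3 w)).flatMap fun i =>
      Letter.and :: Letter.or :: (Letter.and :: (cA w i ++ cb i) ++
        Letter.and :: (Letter.not :: cA w i ++ Letter.not :: cb i)) :=
    PTime.flatMap (f := fun (w : List Letter) (i : ℕ) =>
      Letter.and :: Letter.or :: (Letter.and :: (cA w i ++ cb i) ++
        Letter.and :: (Letter.not :: cA w i ++ Letter.not :: cb i))) (by fun_prop)
      (by fun_prop)
  unfold F
  fun_prop

theorem tm : Nonempty (Turing.TM2ComputableInPolyTime VCInst.code Sent.code red2) :=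
  ptime_tm' tr_letter_injective ptime_F F_code

/-! ### Correctness -/

theorem holds_form {n m k : ℕ} (A : Form (Fin n ⊕ Fin m)) (X : Fin (n * k) → ℝ)
    (Y : Fin k → ℝ) (Z : Fin m → ℝ) : (form k A).Holds (Sum.elim X (Sum.elim Y Z)) ↔
    ∀ i : Fin k, (A.Holds (Sum.elim (fun j => X (ix n k j i)) Z) ↔ Y i = 1) := by
  rw [form, holds_bigAnd]
  simp only [List.mem_map, List.mem_finRange, true_and, forall_exists_index,
    forall_apply_eq_imp_iff]
  refine forall_congr' fun i => ?_
  have h1 : (A.map (ren n m k i)).Holds (Sum.elim X (Sum.elim Y Z)) ↔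
      A.Holds (Sum.elim (fun j => X (ix n k j i)) Z) := by
    rw [Form.holds_map]
    have : (fun v => Sum.elim X (Sum.elim Y Z) (ren n m k i v)) =
        Sum.elim (fun j => X (ix n k j i)) Z := by
      funext v
      rcases v with j | h <;> rfl
    rw [this]
  have h2 : (bit n m k i).Holds (Sum.elim X (Sum.elim Y Z)) ↔ Y i = 1 := by
    simp only [bit, Form.Holds, Term.val, Sum.elim_inr, Sum.elim_inl, Int.cast_one]
  simp only [Form.Holds, h1, h2]
  tauto

theorem trueB_iff (I : VCInst) : (red2 I).TrueB ↔ ∃ X : Fin (I.n * I.k) → ℝ,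
    ∀ Y : Fin I.k → ℝ, (∀ j, Y j = 0 ∨ Y j = 1) → ∃ Z : Fin I.m → ℝ,
      (form I.k I.form).Holds (Sum.elim X (Sum.elim Y Z)) := Iff.rfl

theorem true_of_yes {I : VCInst} (h : I.Yes) : (red2 I).TrueB := by
  classical
  rw [trueB_iff]
  obtain ⟨P, hc, hs⟩ := h
  let e : P ≃ Fin I.k := P.equivFinOfCardEq hc
  let p : Fin I.k → Fin I.n → ℝ := fun i => (e.symm i).1
  have hp : ∀ i, p i ∈ P := fun i => (e.symm i).2
  have hinj : Function.Injective p := fun i i' h => e.symm.injective (Subtype.ext h)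
  have hk := I.pos
  let X : Fin (I.n * I.k) → ℝ := fun t => p ⟨t.1 % I.k, Nat.mod_lt _ hk⟩
    ⟨t.1 / I.k, (Nat.div_lt_iff_lt_mul hk).2 t.2⟩
  have hX : ∀ (i : Fin I.k) (j : Fin I.n), X (ix I.n I.k j i) = p i j := by
    intro i j
    have e1 : (ix I.n I.k j i).1 = j.1 * I.k + i.1 := rfl
    have e2 : (j.1 * I.k + i.1) % I.k = i.1 := by
      rw [Nat.add_comm, Nat.add_mul_mod_self_right, Nat.mod_eq_of_lt i.2]
    have e3 : (j.1 * I.k + i.1) / I.k = j.1 := by
      rw [Nat.add_comm, Nat.add_mul_div_right _ _ hk, Nat.div_eq_of_lt i.2, Nat.zero_add]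
    simp only [X, e1, e2, e3]
  refine ⟨X, fun Y hY => ?_⟩
  obtain ⟨y, hy⟩ := hs ((Finset.univ.filter fun i => Y i = 1).image p) (by
    intro x hx
    rw [Finset.mem_image] at hx
    obtain ⟨i, _, rfl⟩ := hx
    exact hp i)
  refine ⟨y, (holds_form I.form X Y y).2 fun i => ?_⟩
  have e1 : (fun j => X (ix I.n I.k j i)) = p i := funext fun j => hX i j
  rw [e1]
  have e2 : I.form.Holds (Sum.elim (p i) y) ↔ p i ∈ I.S y ∩ (P : Set (Fin I.n → ℝ)) :=
    ⟨fun h => ⟨h, hp i⟩, fun h => h.1⟩
  rw [e2, hy, Finset.mem_coe, Finset.mem_image]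
  constructor
  · rintro ⟨i', h1, h2⟩
    rw [← hinj h2]
    exact (Finset.mem_filter.1 h1).2
  · intro h
    exact ⟨i, Finset.mem_filter.2 ⟨Finset.mem_univ _, h⟩, rfl⟩

theorem yes_of_true {I : VCInst} (h : (red2 I).TrueB) : I.Yes := by
  classical
  rw [trueB_iff] at h
  obtain ⟨X, hX⟩ := h
  have hX' : ∀ Y : Fin I.k → ℝ, (∀ j, Y j = 0 ∨ Y j = 1) → ∃ Z : Fin I.m → ℝ,
      ∀ i : Fin I.k, (I.form.Holds (Sum.elim (fun j => X (ix I.n I.k j i)) Z) ↔ Y i = 1) := by
    intro Y hY
    obtain ⟨Z, hZ⟩ := hX Y hY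
    exact ⟨Z, (holds_form I.form X Y Z).1 hZ⟩
  let p : Fin I.k → Fin I.n → ℝ := fun i j => X (ix I.n I.k j i)
  have hinj : Function.Injective p := by
    intro i i' h
    obtain ⟨Z, hZ⟩ := hX' (fun t => if t = i then 1 else 0) (by
      intro t
      by_cases ht : t = i
      · exact Or.inr (if_pos ht)
      · exact Or.inl (if_neg ht))
    have h1 := (hZ i).2 (if_pos rfl)
    have h2 : I.form.Holds (Sum.elim (p i') Z) := by
      rw [← h]
      exact h1
    have h3 := (hZ i').1 h2
    by_contra hne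
    rw [if_neg (Ne.symm hne)] at h3
    exact absurd h3 (by norm_num)
  refine ⟨Finset.univ.image p, ?_, ?_⟩
  · rw [Finset.card_image_of_injective _ hinj, Finset.card_univ, Fintype.card_fin]
  · intro P' hP'
    obtain ⟨Z, hZ⟩ := hX' (fun t => if p t ∈ P' then 1 else 0) (by
      intro t
      by_cases ht : p t ∈ P'
      · exact Or.inr (if_pos ht)
      · exact Or.inl (if_neg ht))
    refine ⟨Z, ?_⟩
    ext x
    constructor
    · rintro ⟨h1, h2⟩
      rw [Finset.mem_coe, Finset.mem_image] at h2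
      obtain ⟨i, _, rfl⟩ := h2
      have h3 := (hZ i).1 h1
      by_contra h
      rw [Finset.mem_coe] at h
      rw [if_neg h] at h3
      exact absurd h3 (by norm_num)
    · intro hx
      have h2 := hP' hx
      refine ⟨?_, h2⟩
      rw [Finset.mem_image] at h2
      obtain ⟨i, _, rfl⟩ := h2
      exact (hZ i).2 (if_pos hx)

end R2

/-! ### From a Boolean to a real universal block -/

namespace R3

/-- The variables of the second block are `0` or `1`. -/
def bits (n m l : ℕ) : Form (Fin n ⊕ Fin m ⊕ Fin l) :=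
  bigAnd ((List.finRange m).map fun j =>
    .or (.eq (.var (Sum.inr (Sum.inl j))) (.const 0))
      (.eq (.var (Sum.inr (Sum.inl j))) (.const 1)))

end R3

/-- The reduction. -/
def red3 (I : Sent) : Sent where
  n := I.n
  m := I.m
  l := I.l
  form := .or (.not (R3.bits I.n I.m I.l)) I.form

namespace R3

/-- The word of `bits`. -/
def cB (m : ℕ) : List Letter :=
  ((List.range m).flatMap fun j => Letter.and :: Letter.or ::
    (Letter.eq :: (vY j ++ intCode 0) ++ Letter.eq :: (vY j ++ intCode 1))) ++ ttc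

/-- The reduction on words. -/
def F (w : List Letter) : List Letter :=
  dims (cnt .d1 w) (cnt .d2 w) (cnt .d3 w) ++
    (Letter.or :: (Letter.not :: cB (cnt .d2 w) ++ body w))

theorem isD_sent (I : Sent) : ∀ a ∈ I.form.code (Sum.elim (fun i : Fin I.n => vX i)
    (Sum.elim (fun j : Fin I.m => vY j) (fun h : Fin I.l => vZ h))), isD a = false := by
  refine Form.isD_code ?_ I.form
  rintro (i | j | h)
  · exact isD_vX _
  · exact isD_vY _
  · exact isD_vZ _

theorem F_code (I : Sent) : F I.code = (red3 I).code := by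
  obtain ⟨h1, h2, h3, h4⟩ := read (a := I.n) (b := I.m) (c := I.l) (isD_sent I)
  have h5 : (bits I.n I.m I.l).code (Sum.elim (fun i : Fin I.n => vX i)
      (Sum.elim (fun j : Fin I.m => vY j) (fun h : Fin I.l => vZ h))) = cB I.m := by
    rw [bits, code_bigAnd, List.flatMap_map, cB,
      ← flatMap_finRange I.m fun j => Letter.and :: Letter.or ::
      (Letter.eq :: (vY j ++ intCode 0) ++ Letter.eq :: (vY j ++ intCode 1))]
    rfl
  rw [F, Sent.code, h1, h2, h3, h4, ← h5]
  rfl

theorem ptime_F : PTime F := by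
  have h1 : PTime cB := by
    unfold cB
    have : PTime fun m : ℕ => (List.range m).flatMap fun j => Letter.and ::
        Letter.or :: (Letter.eq :: (vY j ++ intCode 0) ++ Letter.eq ::
          (vY j ++ intCode 1)) :=
      PTime.flatMap (f := fun (_ : ℕ) (j : ℕ) => Letter.and ::
        Letter.or :: (Letter.eq :: (vY j ++ intCode 0) ++ Letter.eq ::
          (vY j ++ intCode 1))) (by fun_prop) (by fun_prop)
    fun_prop
  have h2 : PTime fun w : List Letter => cB (cnt .d2 w) := h1.comp (by fun_prop)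
  unfold F
  fun_prop

theorem tm : Nonempty (Turing.TM2ComputableInPolyTime Sent.code Sent.code red3) :=
  ptime_tm' tr_letter_injective ptime_F F_code

theorem holds_bits {n m l : ℕ} (X : Fin n → ℝ) (Y : Fin m → ℝ) (Z : Fin l → ℝ) :
    (bits n m l).Holds (Sum.elim X (Sum.elim Y Z)) ↔ ∀ j, Y j = 0 ∨ Y j = 1 := by
  rw [bits, holds_bigAnd]
  simp only [List.mem_map, List.mem_finRange, true_and, forall_exists_index,
    forall_apply_eq_imp_iff, Form.Holds, Term.val, Sum.elim_inr, Sum.elim_inl, Int.cast_zero,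
    Int.cast_one]

theorem correct (I : Sent) : I.TrueB ↔ (red3 I).TrueR := by
  have h : (red3 I).TrueR ↔ ∃ X : Fin I.n → ℝ, ∀ Y : Fin I.m → ℝ, ∃ Z : Fin I.l → ℝ,
      (¬ (bits I.n I.m I.l).Holds (Sum.elim X (Sum.elim Y Z)) ∨
        I.form.Holds (Sum.elim X (Sum.elim Y Z))) := Iff.rfl
  rw [h, Sent.TrueB]
  refine exists_congr fun X => forall_congr' fun Y => ?_
  simp only [holds_bits]
  constructor
  · intro h1
    by_cases h2 : ∀ j, Y j = 0 ∨ Y j = 1
    · obtain ⟨Z, hZ⟩ := h1 h2
      exact ⟨Z, Or.inr hZ⟩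
    · exact ⟨fun _ => 0, Or.inl h2⟩
  · rintro ⟨Z, hZ⟩ h2
    exact ⟨Z, hZ.resolve_left (not_not_intro h2)⟩

end R3

end Pool.Agent.Lib.MP_77492d_lc
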