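import Pool.Agent.Lib.MP_77492d_lc.LineN35
import Pool.Agent.Lib.PolyFun.Code36

/-!
# Sentences and instances as words; the two maps are computable in polynomial time
-/

set_option autoImplicit false

namespace Pool.Agent.Lib.MP_77492d_lc.TK

open Pool.Agent.Lib.PolyFun

/-! ### Symbols -/

/-- A symbol: its kind, its number, its digits. -/
abbrev Tok : Type := ℕ × (ℕ × List Bool)

/-- the symbol of the integer constant `z`: a sign and the binary digits of `|z|` -/
def cTok (z : ℤ) : Tok := (1, ((if z < 0 then 1 else 0), z.natAbs.bits))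

/-- The symbols of a term with numbered variables, in postfix order. -/
def tmW : Tm ℕ → List Tok
  | .var v => [(0, (v, []))]
  | .const z => [cTok z]
  | .add s t => tmW s ++ (tmW t ++ [(2, (0, []))])
  | .mul s t => tmW s ++ (tmW t ++ [(3, (0, []))])

/-- The symbols of a formula with numbered variables, in postfix order. -/
def fmlW : Fml ℕ → List Tok
  | .eq s t => tmW s ++ (tmW t ++ [(4, (0, []))])
  | .lt s t => tmW s ++ (tmW t ++ [(5, (0, []))])
  | .not φ => fmlW φ ++ [(6, (0, []))]
  | .and φ ψ => fmlW φ ++ (fmlW ψ ++ [(7, (0, []))])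
  | .or φ ψ => fmlW φ ++ (fmlW ψ ++ [(8, (0, []))])

/-! ### Sentences and instances -/

/-- A sentence `∃ X ∈ ℝ ^ a, ∀ b ∈ {0, 1} ^ k, ∃ Z ∈ ℝ ^ c, Φ (X, b, Z)`. -/
structure Sentence where
  /-- the number of variables of the first block -/
  a : ℕ
  /-- the number of variables of the Boolean block -/
  k : ℕ
  /-- the number of variables of the last block -/
  c : ℕ
  /-- the matrix -/
  Φ : Fml (Fin a ⊕ (Fin k ⊕ Fin c))

/-- An instance of VC-SEMIALG: a formula `φ (x, y)`, `x ∈ ℝ ^ n`, `y ∈ ℝ ^ m`, and a number `k`. -/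
structure Instance where
  /-- the dimension of the space -/
  n : ℕ
  /-- the number of parameters -/
  m : ℕ
  /-- the threshold -/
  k : ℕ
  /-- the formula -/
  φ : Fml (Fin n ⊕ Fin m)

/-- The sentence is true. -/
def Sentence.Holds (s : Sentence) : Prop := EBE s.Φ

/-- The Vapnik-Chervonenkis dimension of the family is at least `k`. -/
def Instance.Yes (s : Instance) : Prop := VCGe s.φ s.k

/-- the numbers of the variables of a sentence -/
def enumS (a k c : ℕ) : Fin a ⊕ (Fin k ⊕ Fin c) → ℕ :=
  Sum.elim (fun j => j) (Sum.elim (fun i => a + i) fun l => a + (k + l))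

/-- the numbers of the variables of an instance -/
def enumI (n m : ℕ) : Fin n ⊕ Fin m → ℕ := Sum.elim (fun j => j) fun i => n + i

/-- the symbols of the matrix of a sentence -/
def Sentence.word (s : Sentence) : List Tok := fmlW (s.Φ.map (enumS s.a s.k s.c))

/-- the symbols of the formula of an instance -/
def Instance.word (s : Instance) : List Tok := fmlW (s.φ.map (enumI s.n s.m))

instance : TEnc Sentence := ⟨fun s => TEnc.enc (s.a, (s.k, (s.c, s.word)))⟩

instance : TEnc Instance := ⟨fun s => TEnc.enc (s.n, (s.m, (s.k, s.word)))⟩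

/-! ### Rules for `PT` -/

section

variable {α β γ : Type} [TEnc α] [TEnc β] [TEnc γ]

theorem ptc {f : α → β} {h : α → γ} (hh : PT h) (e : ∀ x, code (f x) = code (h x)) : PT f := by
  obtain ⟨c, p, H⟩ := hh
  exact ⟨c, p, fun x m => by rw [e]; exact H x m⟩

theorem pt_var {v : α → ℕ} (hv : PT v) : PT fun x => tmW (.var (v x)) :=
  PT.cons (PT.pair (PT.const 0) (PT.pair hv (PT.const []))) (PT.const [])

theorem pt_const (z : ℤ) : PT fun _ : α => tmW (.const z) := PT.const _

theorem pt_add {s t : α → Tm ℕ} (hs : PT fun x => tmW (s x)) (ht : PT fun x => tmW (t x)) :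
    PT fun x => tmW (.add (s x) (t x)) := PT.append hs (PT.append ht (PT.const _))

theorem pt_mul {s t : α → Tm ℕ} (hs : PT fun x => tmW (s x)) (ht : PT fun x => tmW (t x)) :
    PT fun x => tmW (.mul (s x) (t x)) := PT.append hs (PT.append ht (PT.const _))

theorem pt_eq {s t : α → Tm ℕ} (hs : PT fun x => tmW (s x)) (ht : PT fun x => tmW (t x)) :
    PT fun x => fmlW (.eq (s x) (t x)) := PT.append hs (PT.append ht (PT.const _))

theorem pt_lt {s t : α → Tm ℕ} (hs : PT fun x => tmW (s x)) (ht : PT fun x => tmW (t x)) :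
    PT fun x => fmlW (.lt (s x) (t x)) := PT.append hs (PT.append ht (PT.const _))

theorem pt_not {φ : α → Fml ℕ} (hφ : PT fun x => fmlW (φ x)) :
    PT fun x => fmlW (.not (φ x)) := PT.append hφ (PT.const _)

theorem pt_and {φ ψ : α → Fml ℕ} (hφ : PT fun x => fmlW (φ x)) (hψ : PT fun x => fmlW (ψ x)) :
    PT fun x => fmlW (.and (φ x) (ψ x)) := PT.append hφ (PT.append hψ (PT.const _))

theorem pt_or {φ ψ : α → Fml ℕ} (hφ : PT fun x => fmlW (φ x)) (hψ : PT fun x => fmlW (ψ x)) :
    PT fun x => fmlW (.or (φ x) (ψ x)) := PT.append hφ (PT.append hψ (PT.const _))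

theorem numT_word (j : ℕ) : tmW (LN.numT j) =
    tmW (.add (.const 1) (.const (-1))) ++ (List.range j).flatMap fun _ =>
      [cTok 1, (2, (0, []))] := by
  induction j with
  | zero => rfl
  | succ j ih =>
    rw [LN.numT, tmW, ih, List.range_succ, List.flatMap_append]
    simp [tmW]

theorem pt_num {n : α → ℕ} (hn : PT n) : PT fun x => tmW (LN.numT (n x)) :=
  (PT.append (PT.const _) (PT.flatMap (PT.range hn)
    (g := fun _ => [cTok 1, (2, (0, []))]) (PT.const _))).congr fun _ => numT_word _

theorem bigAnd_word (l : List (Fml ℕ)) : fmlW (bigAnd l) =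
    l.flatMap fmlW ++ (fmlW (bigAnd []) ++ List.replicate l.length (7, (0, []))) := by
  induction l with
  | nil => simp
  | cons φ l ih =>
    have h : fmlW (bigAnd (φ :: l)) = fmlW φ ++ (fmlW (bigAnd l) ++ [(7, (0, []))]) := rfl
    rw [h, ih, List.length_cons, List.replicate_succ', List.flatMap_cons]
    simp only [List.append_assoc]

theorem bigOr_word (l : List (Fml ℕ)) : fmlW (bigOr l) =
    l.flatMap fmlW ++ (fmlW (bigOr []) ++ List.replicate l.length (8, (0, []))) := by
  induction l with
  | nil => simp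
  | cons φ l ih =>
    have h : fmlW (bigOr (φ :: l)) = fmlW φ ++ (fmlW (bigOr l) ++ [(8, (0, []))]) := rfl
    rw [h, ih, List.length_cons, List.replicate_succ', List.flatMap_cons]
    simp only [List.append_assoc]

theorem pt_bigAnd {n : α → ℕ} (hn : PT n) {f : α × ℕ → Fml ℕ} (hf : PT fun p => fmlW (f p)) :
    PT fun x => fmlW (bigAnd ((List.range (n x)).map fun i => f (x, i))) :=
  (PT.append (PT.flatMap (PT.range hn) hf) (PT.append (PT.const (fmlW (bigAnd [])))
    (PT.replicate hn (PT.const (7, (0, [])))))).congr fun x => by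
      rw [bigAnd_word, List.flatMap_map, List.length_map, List.length_range]

theorem pt_bigOr {n : α → ℕ} (hn : PT n) {f : α × ℕ → Fml ℕ} (hf : PT fun p => fmlW (f p)) :
    PT fun x => fmlW (bigOr ((List.range (n x)).map fun i => f (x, i))) :=
  (PT.append (PT.flatMap (PT.range hn) hf) (PT.append (PT.const (fmlW (bigOr [])))
    (PT.replicate hn (PT.const (8, (0, [])))))).congr fun x => by
      rw [bigOr_word, List.flatMap_map, List.length_map, List.length_range]

/-- renumbering of the variables -/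
def relab (r : ℕ → ℕ) (t : Tok) : Tok := if t.1 = 0 then (t.1, (r t.2.1, t.2.2)) else t

theorem tmW_map (r : ℕ → ℕ) (t : Tm ℕ) : tmW (t.map r) = (tmW t).map (relab r) := by
  induction t with
  | var v => rfl
  | const z => rfl
  | add s t hs ht => simp only [Tm.map, tmW, hs, ht, List.map_append]; rfl
  | mul s t hs ht => simp only [Tm.map, tmW, hs, ht, List.map_append]; rfl

theorem fmlW_map (r : ℕ → ℕ) (φ : Fml ℕ) : fmlW (φ.map r) = (fmlW φ).map (relab r) := by
  induction φ with
  | eq s t => simp only [Fml.map, fmlW, tmW_map, List.map_append]; rfl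
  | lt s t => simp only [Fml.map, fmlW, tmW_map, List.map_append]; rfl
  | not φ h => simp only [Fml.map, fmlW, h, List.map_append]; rfl
  | and φ ψ h1 h2 => simp only [Fml.map, fmlW, h1, h2, List.map_append]; rfl
  | or φ ψ h1 h2 => simp only [Fml.map, fmlW, h1, h2, List.map_append]; rfl

theorem pt_map {φ : α → Fml ℕ} (hφ : PT fun x => fmlW (φ x)) {r : α × ℕ → ℕ} (hr : PT r) :
    PT fun x => fmlW ((φ x).map fun v => r (x, v)) := by
  have h : PT fun x => (fmlW (φ x)).map fun t => relab (fun v => r (x, v)) t := by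
    refine PT.map hφ (g := fun p : α × Tok => relab (fun v => r (p.1, v)) p.2) ?_
    have h1 : PT fun p : α × Tok => decide (p.2.1 = 0) := PT.isZero (PT.fst.comp PT.snd)
    exact PT.ite h1 (PT.pair (PT.fst.comp PT.snd) (PT.pair
      (hr.comp (PT.pair PT.fst (PT.fst.comp (PT.snd.comp PT.snd))))
      (PT.snd.comp (PT.snd.comp PT.snd)))) PT.snd
  exact h.congr fun x => fmlW_map _ _

end

/-! ### Renaming -/

theorem tm_map_map {U V W : Type} (f : U → V) (g : V → W) (t : Tm U) :
    (t.map f).map g = t.map fun v => g (f v) := by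
  induction t with
  | var v => rfl
  | const z => rfl
  | add s t hs ht => simp only [Tm.map, hs, ht]
  | mul s t hs ht => simp only [Tm.map, hs, ht]

theorem fml_map_map {U V W : Type} (f : U → V) (g : V → W) (φ : Fml U) :
    (φ.map f).map g = φ.map fun v => g (f v) := by
  induction φ with
  | eq s t => simp only [Fml.map, tm_map_map]
  | lt s t => simp only [Fml.map, tm_map_map]
  | not φ h => simp only [Fml.map, h]
  | and φ ψ h1 h2 => simp only [Fml.map, h1, h2]
  | or φ ψ h1 h2 => simp only [Fml.map, h1, h2]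

theorem bigAnd_map {V W : Type} (f : V → W) (l : List (Fml V)) :
    (bigAnd l).map f = bigAnd (l.map fun φ => φ.map f) := by
  induction l with
  | nil => rfl
  | cons φ l ih => simp only [bigAnd, Fml.map, ih, List.map_cons]

theorem bigOr_map {V W : Type} (f : V → W) (l : List (Fml V)) :
    (bigOr l).map f = bigOr (l.map fun φ => φ.map f) := by
  induction l with
  | nil => rfl
  | cons φ l ih => simp only [bigOr, Fml.map, ih, List.map_cons]

theorem numT_map {V W : Type} (f : V → W) (j : ℕ) : (LN.numT j).map f = LN.numT j := by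
  induction j with
  | zero => rfl
  | succ j ih => simp only [LN.numT, Tm.map, ih]

theorem finRange_map {β : Type} (n : ℕ) (f : Fin n → β) (g : ℕ → β)
    (h : ∀ i : Fin n, f i = g i) : (List.finRange n).map f = (List.range n).map g := by
  rw [← List.map_coe_finRange_eq_range, List.map_map]
  exact List.map_congr_left fun i _ => h i

/-! ### The sentence of an instance -/

/-- The sentence of an instance of VC-SEMIALG. -/
def sentenceOf (s : Instance) : Sentence := ⟨s.k * s.n, s.k, s.m, toEBE s.φ s.k⟩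

/-- the matrix of `sentenceOf s`, with numbered variables -/
def ebeN (n k : ℕ) (ψ : Fml ℕ) : Fml ℕ :=
  bigAnd ((List.range k).map fun i =>
    .or (.and (ψ.map fun v => if v < n then v + n * i else k * n + (k + (v - n)))
        (.eq (.var (k * n + i)) (.const 1)))
      (.and (.not (ψ.map fun v => if v < n then v + n * i else k * n + (k + (v - n))))
        (.not (.eq (.var (k * n + i)) (.const 1)))))

theorem toEBE_map {n m : ℕ} (φ : Fml (Fin n ⊕ Fin m)) (k : ℕ) :
    (toEBE φ k).map (enumS (k * n) k m) = ebeN n k (φ.map (enumI n m)) := by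
  rw [toEBE, ebeN, bigAnd_map, List.map_map]
  congr 1
  refine finRange_map k _ _ fun i => ?_
  have h : (φ.map (Sum.elim (fun l => Sum.inl (finProdFinEquiv (i, l)))
      fun v => (Sum.inr (Sum.inr v) : Fin (k * n) ⊕ (Fin k ⊕ Fin m)))).map (enumS (k * n) k m) =
      (φ.map (enumI n m)).map
        fun v => if v < n then v + n * (i : ℕ) else k * n + (k + (v - n)) := by
    rw [fml_map_map, fml_map_map]
    congr 1
    funext v
    rcases v with l | v
    · have h1 : (enumI n m (Sum.inl l)) = (l : ℕ) := rfl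
      rw [h1, if_pos l.2]
      rfl
    · have h1 : (enumI n m (Sum.inr v)) = n + (v : ℕ) := rfl
      rw [h1, if_neg (by omega), Nat.add_sub_cancel_left]
      rfl
  simp only [Function.comp_apply, Fml.map, h, Tm.map]
  rfl

theorem pt_sentenceOf : PT sentenceOf := by
  have h0 : PT fun s : Instance => (s.n, (s.m, (s.k, s.word))) := PT.of_code fun _ => rfl
  have hn : PT fun s : Instance => s.n := PT.fst.comp h0
  have hm : PT fun s : Instance => s.m := PT.fst.comp (PT.snd.comp h0)
  have hk : PT fun s : Instance => s.k := PT.fst.comp (PT.snd.comp (PT.snd.comp h0))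
  have hw : PT fun s : Instance => fmlW (s.φ.map (enumI s.n s.m)) :=
    PT.snd.comp (PT.snd.comp (PT.snd.comp h0))
  have hkn : PT fun s : Instance => s.k * s.n := PT.mul hk hn
  have hr : PT fun q : (Instance × ℕ) × ℕ =>
      if q.2 < q.1.1.n then q.2 + q.1.1.n * q.1.2
      else q.1.1.k * q.1.1.n + (q.1.1.k + (q.2 - q.1.1.n)) := by
    have a1 : PT fun q : (Instance × ℕ) × ℕ => q.1.1 := PT.fst.comp PT.fst
    refine PT.ite (PT.lt PT.snd (hn.comp a1))
      (PT.add PT.snd (PT.mul (hn.comp a1) (PT.snd.comp PT.fst)))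
      (PT.add (hkn.comp a1) (PT.add (hk.comp a1) (PT.sub PT.snd (hn.comp a1))))
  have hψ : PT fun p : Instance × ℕ => fmlW ((p.1.φ.map (enumI p.1.n p.1.m)).map fun v =>
      if v < p.1.n then v + p.1.n * p.2 else p.1.k * p.1.n + (p.1.k + (v - p.1.n))) :=
    pt_map (φ := fun p : Instance × ℕ => p.1.φ.map (enumI p.1.n p.1.m)) (hw.comp PT.fst)
      (r := fun q : (Instance × ℕ) × ℕ => if q.2 < q.1.1.n then q.2 + q.1.1.n * q.1.2
        else q.1.1.k * q.1.1.n + (q.1.1.k + (q.2 - q.1.1.n))) hr
  have hb : PT fun p : Instance × ℕ => fmlW (.eq (.var (p.1.k * p.1.n + p.2)) (.const 1)) :=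
    pt_eq (pt_var (PT.add (hkn.comp PT.fst) PT.snd)) (pt_const 1)
  have h1 : PT fun s : Instance => fmlW (ebeN s.n s.k (s.φ.map (enumI s.n s.m))) :=
    pt_bigAnd hk (pt_or (pt_and hψ hb) (pt_and (pt_not hψ) (pt_not hb)))
  refine ptc (PT.pair hkn (PT.pair hk (PT.pair hm h1))) fun s => ?_
  have h2 : (sentenceOf s).word = fmlW (ebeN s.n s.k (s.φ.map (enumI s.n s.m))) :=
    congrArg fmlW (toEBE_map s.φ s.k)
  have h3 : code (sentenceOf s) = code (s.k * s.n, (s.k, (s.m, (sentenceOf s).word))) := rfl
  rw [h3, h2]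

/-! ### The instance of a sentence -/

/-- The instance of VC-SEMIALG of a sentence. -/
def instanceOf (s : Sentence) : Instance :=
  ⟨1, LN.parNum s.a s.k s.c, s.k + (s.a + 1), LN.toLine s.Φ⟩

/-- the numbers of the variables of the matrix in the instance -/
def renN (a k v : ℕ) : ℕ :=
  if v < a then 1 + (k + ((a + 1) + ((a + 1) + v)))
  else if v < a + k then 1 + (v - a)
  else 1 + (k + ((a + 1) + ((a + 1) + ((a + 1) + (v - (a + k))))))

/-- the formula of `instanceOf s`, with numbered variables -/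
def lineN (a k : ℕ) (ψ : Fml ℕ) : Fml ℕ :=
  .and
    (.and
      (bigAnd ((List.range k).map fun i =>
        .or (.eq (.var (1 + i)) (LN.numT 0)) (.eq (.var (1 + i)) (.const 1))))
      (bigAnd ((List.range (a + 1)).map fun j =>
        .and (.lt (LN.numT j) (.var (1 + (k + ((a + 1) + j)))))
          (.lt (.var (1 + (k + ((a + 1) + j)))) (LN.numT (j + 1))))))
    (.and
      (.or
        (bigOr ((List.range (a + 1)).map fun j => .not (.eq (.var (1 + (k + j))) (.const 1))))
        (.and
          (bigAnd ((List.range (a + 1)).map fun j =>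
            .eq (.mul (.var (1 + (k + ((a + 1) + ((a + 1) + j)))))
                (.mul (.add (.var (1 + (k + ((a + 1) + j)))) (.mul (.const (-1)) (LN.numT j)))
                  (.add (LN.numT (j + 1)) (.mul (.const (-1)) (.var (1 + (k + ((a + 1) + j))))))))
              (.add (.add (.var (1 + (k + ((a + 1) + j)))) (.mul (.const (-1)) (LN.numT j)))
                (.add (.add (.var (1 + (k + ((a + 1) + j)))) (.mul (.const (-1)) (LN.numT j)))
                  (.const (-1))))))
          (ψ.map fun v => renN a k v)))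
      (.or
        (bigOr ((List.range k).map fun i =>
          .and (.eq (.var (1 + i)) (.const 1)) (.eq (.var 0) (LN.numT i))))
        (bigOr ((List.range (a + 1)).map fun j =>
          .and (.eq (.var (1 + (k + j))) (.const 1))
            (.eq (.var 0) (.var (1 + (k + ((a + 1) + j)))))))))

theorem toLine_map {a k c : ℕ} (Φ : Fml (Fin a ⊕ (Fin k ⊕ Fin c))) :
    (LN.toLine Φ).map (enumI 1 (LN.parNum a k c)) = lineN a k (Φ.map (enumS a k c)) := by
  have h : ((Φ.map LN.ren).map fun v => enumI 1 (LN.parNum a k c)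
      (Sum.map id (LN.parEquiv a k c) v)) = (Φ.map (enumS a k c)).map fun v => renN a k v := by
    rw [fml_map_map, fml_map_map]
    congr 1
    funext v
    rcases v with j | i | l
    · have h1 : enumS a k c (Sum.inl j) = (j : ℕ) := rfl
      rw [h1, renN, if_pos j.2]
      rfl
    · have h1 : enumS a k c (Sum.inr (Sum.inl i)) = a + (i : ℕ) := rfl
      rw [h1, renN, if_neg (by omega), if_pos (by omega), Nat.add_sub_cancel_left]
      rfl
    · have h1 : enumS a k c (Sum.inr (Sum.inr l)) = a + (k + (l : ℕ)) := rfl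
      rw [h1, renN, if_neg (by omega), if_neg (by omega)]
      have h2 : a + (k + (l : ℕ)) - (a + k) = l := by omega
      rw [h2]
      rfl
  rw [LN.toLine, fml_map_map, LN.lineF, lineN]
  simp only [Fml.map, h]
  simp only [LN.bitsF, LN.slotsF, LN.offF, LN.relF, LN.memBF, LN.memDF, bigAnd_map, bigOr_map,
    List.map_map]
  refine congrArg₂ Fml.and
    (congrArg₂ Fml.and (congrArg bigAnd (finRange_map _ _ _ fun i => ?_))
      (congrArg bigAnd (finRange_map _ _ _ fun i => ?_)))
    (congrArg₂ Fml.and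
      (congrArg₂ Fml.or (congrArg bigOr (finRange_map _ _ _ fun i => ?_))
        (congrArg₂ Fml.and (congrArg bigAnd (finRange_map _ _ _ fun i => ?_)) rfl))
      (congrArg₂ Fml.or (congrArg bigOr (finRange_map _ _ _ fun i => ?_))
        (congrArg bigOr (finRange_map _ _ _ fun i => ?_)))) <;>
    simp only [Function.comp_apply, Fml.map, Tm.map, LN.sT, LN.rT, numT_map] <;> rfl

theorem pt_instanceOf : PT instanceOf := by
  have h0 : PT fun s : Sentence => (s.a, (s.k, (s.c, s.word))) := PT.of_code fun _ => rfl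
  have ha : PT fun s : Sentence => s.a := PT.fst.comp h0
  have hk : PT fun s : Sentence => s.k := PT.fst.comp (PT.snd.comp h0)
  have hc : PT fun s : Sentence => s.c := PT.fst.comp (PT.snd.comp (PT.snd.comp h0))
  have hw : PT fun s : Sentence => fmlW (s.Φ.map (enumS s.a s.k s.c)) :=
    PT.snd.comp (PT.snd.comp (PT.snd.comp h0))
  have ha1 : PT fun s : Sentence => s.a + 1 := PT.succ ha
  have a1 : PT fun p : Sentence × ℕ => p.1 := PT.fst
  have v1 : PT fun p : Sentence × ℕ => 1 + p.2 := PT.add (PT.const 1) PT.snd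
  have vd : PT fun p : Sentence × ℕ => 1 + (p.1.k + p.2) :=
    PT.add (PT.const 1) (PT.add (hk.comp a1) PT.snd)
  have vu : PT fun p : Sentence × ℕ => 1 + (p.1.k + ((p.1.a + 1) + p.2)) :=
    PT.add (PT.const 1) (PT.add (hk.comp a1) (PT.add (ha1.comp a1) PT.snd))
  have vx : PT fun p : Sentence × ℕ => 1 + (p.1.k + ((p.1.a + 1) + ((p.1.a + 1) + p.2))) :=
    PT.add (PT.const 1) (PT.add (hk.comp a1) (PT.add (ha1.comp a1) (PT.add (ha1.comp a1) PT.snd)))
  have n0 : PT fun p : Sentence × ℕ => tmW (LN.numT p.2) := pt_num PT.snd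
  have n1 : PT fun p : Sentence × ℕ => tmW (LN.numT (p.2 + 1)) := pt_num (PT.succ PT.snd)
  have hr : PT fun q : Sentence × ℕ => renN q.1.a q.1.k q.2 := by
    refine PT.ite (PT.lt PT.snd (ha.comp PT.fst)) ?_ (PT.ite (PT.lt PT.snd
      (PT.add (ha.comp PT.fst) (hk.comp PT.fst))) ?_ ?_)
    · exact vx
    · exact PT.add (PT.const 1) (PT.sub PT.snd (ha.comp PT.fst))
    · exact PT.add (PT.const 1) (PT.add (hk.comp PT.fst) (PT.add (ha1.comp PT.fst)
        (PT.add (ha1.comp PT.fst) (PT.add (ha1.comp PT.fst) (PT.sub PT.snd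
          (PT.add (ha.comp PT.fst) (hk.comp PT.fst)))))))
  have hψ : PT fun s : Sentence => fmlW ((s.Φ.map (enumS s.a s.k s.c)).map
      fun v => renN s.a s.k v) :=
    pt_map (φ := fun s : Sentence => s.Φ.map (enumS s.a s.k s.c)) hw
      (r := fun q : Sentence × ℕ => renN q.1.a q.1.k q.2) hr
  have hs : PT fun p : Sentence × ℕ => tmW (.add (.var (1 + (p.1.k + ((p.1.a + 1) + p.2))))
      (.mul (.const (-1)) (LN.numT p.2))) := pt_add (pt_var vu) (pt_mul (pt_const _) n0)
  have h1 : PT fun s : Sentence => fmlW (lineN s.a s.k (s.Φ.map (enumS s.a s.k s.c))) := by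
    refine pt_and (pt_and ?_ ?_) (pt_and (pt_or ?_ (pt_and ?_ hψ)) (pt_or ?_ ?_))
    · exact pt_bigAnd hk (pt_or (pt_eq (pt_var v1) (pt_num (PT.const 0)))
        (pt_eq (pt_var v1) (pt_const 1)))
    · exact pt_bigAnd ha1 (pt_and (pt_lt n0 (pt_var vu)) (pt_lt (pt_var vu) n1))
    · exact pt_bigOr ha1 (pt_not (pt_eq (pt_var vd) (pt_const 1)))
    · exact pt_bigAnd ha1 (pt_eq (pt_mul (pt_var vx) (pt_mul hs
        (pt_add n1 (pt_mul (pt_const _) (pt_var vu))))) (pt_add hs (pt_add hs (pt_const _))))
    · exact pt_bigOr hk (pt_and (pt_eq (pt_var v1) (pt_const 1)) (pt_eq (pt_var (PT.const 0)) n0))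
    · exact pt_bigOr ha1 (pt_and (pt_eq (pt_var vd) (pt_const 1))
        (pt_eq (pt_var (PT.const 0)) (pt_var vu)))
  have hm : PT fun s : Sentence => LN.parNum s.a s.k s.c :=
    PT.add hk (PT.add ha1 (PT.add ha1 (PT.add ha1 hc)))
  refine ptc (PT.pair (PT.const 1) (PT.pair hm (PT.pair (PT.add hk ha1) h1))) fun s => ?_
  have h2 : (instanceOf s).word = fmlW (lineN s.a s.k (s.Φ.map (enumS s.a s.k s.c))) :=
    congrArg fmlW (toLine_map s.Φ)
  have h3 : code (instanceOf s) =
      code (1, (LN.parNum s.a s.k s.c, (s.k + (s.a + 1), (instanceOf s).word))) := rfl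
  rw [h3, h2]

end Pool.Agent.Lib.MP_77492d_lc.TK
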