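import Pool.Agent.Lib.MP_77492d_lc.Conf36

/-!
# Test points for linear universal blocks
-/

set_option autoImplicit false

namespace Pool.Agent.Lib.MP_77492d_lc.Cf

open Module

/-- the same sign -/
def SE (x y : ℝ) : Prop := (0 < x ↔ 0 < y) ∧ (x < 0 ↔ y < 0)

theorem SE.symm {x y : ℝ} (h : SE x y) : SE y x := ⟨h.1.symm, h.2.symm⟩

/-- the kernel -/
def Ker {N l : ℕ} (d : Fin N → Fin l → ℝ) : Submodule ℝ (Fin N → ℝ) where
  carrier := {lam | ∀ q, ∑ t, lam t * d t q = 0}
  zero_mem' := fun q => by simp
  add_mem' := fun {a b} ha hb q => by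
    simp only [Set.mem_setOf_eq, Pi.add_apply, add_mul, Finset.sum_add_distrib] at *
    rw [ha q, hb q, add_zero]
  smul_mem' := fun r v hv q => by
    simp only [Set.mem_setOf_eq, Pi.smul_apply, smul_eq_mul, mul_assoc] at *
    rw [← Finset.mul_sum, hv q, mul_zero]

/-- the coordinates -/
def coordK {N l : ℕ} (d : Fin N → Fin l → ℝ) (t : Fin N) : Ker d →ₗ[ℝ] ℝ :=
  (LinearMap.proj t).comp (Ker d).subtype

theorem coordK_apply {N l : ℕ} (d : Fin N → Fin l → ℝ) (t : Fin N) (v : Ker d) :
    coordK d t v = v.1 t := rfl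

theorem coordK_sep {N l : ℕ} (d : Fin N → Fin l → ℝ) (v : Ker d) (h : ∀ t, coordK d t v = 0) :
    v = 0 := Subtype.ext (funext h)

/-- the signs realised by the last block depend only on the signs of the elementary combinations -/
theorem realise {N l : ℕ} (d : Fin N → Fin l → ℝ) (a a' : Fin N → ℝ)
    (h : ∀ lam : Ker d, Elem (coordK d) lam → SE (∑ t, lam.1 t * a t) (∑ t, lam.1 t * a' t))
    (Z : Fin l → ℝ) : ∃ Z' : Fin l → ℝ, ∀ t,
      SE (∑ q, d t q * Z q + a t) (∑ q, d t q * Z' q + a' t) := by
  classical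
  set s : Fin N → ℝ := fun t => ∑ q, d t q * Z q + a t with hs
  set P : Fin N → ℝ := fun t => if s t < 0 then 0 else 1 with hP
  set Q : Fin N → ℝ := fun t => if 0 < s t then 0 else 1 with hQ
  set g : Fin N ⊕ Fin N → Motz.Con l := Sum.elim
    (fun t => ⟨fun q => P t * d t q, P t * a' t, 0 < s t⟩)
    (fun t => ⟨fun q => -Q t * d t q, -Q t * a' t, s t < 0⟩) with hg
  by_cases hsat : ∃ Z' : Fin l → ℝ, ∀ x, (g x).Sat Z'
  · obtain ⟨Z', hZ'⟩ := hsat
    refine ⟨Z', fun t => ?_⟩
    have e : ∀ r : ℝ, ∑ q, r * d t q * Z' q + r * a' t = r * (∑ q, d t q * Z' q + a' t) := by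
      intro r
      simp only [mul_add, Finset.mul_sum, mul_assoc]
    have h1 := hZ' (.inl t)
    have h2 := hZ' (.inr t)
    simp only [hg, Sum.elim_inl, Sum.elim_inr, Motz.Con.Sat, e] at h1 h2
    change SE (s t) _
    generalize ∑ q, d t q * Z' q + a' t = y at h1 h2 ⊢
    simp only [hP, hQ] at h1 h2
    rcases lt_trichotomy (s t) 0 with h0 | h0 | h0
    · rw [if_pos h0] at h1
      rw [if_neg (not_lt.2 h0.le)] at h2
      have h3 := h2.2 h0
      exact ⟨⟨fun h4 => by linarith, fun h4 => by linarith⟩, fun _ => by linarith, fun _ => h0⟩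
    · rw [if_neg (by rw [h0]; exact lt_irrefl _)] at h1 h2
      have h3 := h1.1
      have h4 := h2.1
      have h5 : y = 0 := by linarith
      rw [h0, h5]
      exact ⟨Iff.rfl, Iff.rfl⟩
    · rw [if_neg (not_lt.2 h0.le)] at h1
      rw [if_pos h0] at h2
      have h3 := h1.2 h0
      exact ⟨⟨fun _ => by linarith, fun _ => h0⟩, fun h4 => by linarith, fun h4 => by linarith⟩
  · exfalso
    obtain ⟨μ, hμ0, hμv, hμc⟩ := (Motz.motzkin g).1 hsat
    set lam : Fin N → ℝ := fun t => μ (.inl t) * P t - μ (.inr t) * Q t with hlam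
    have hsum : ∀ x : Fin N → ℝ, ∑ t, μ (.inl t) * (P t * x t) + ∑ t, μ (.inr t) * (-Q t * x t) =
        ∑ t, lam t * x t := by
      intro x
      rw [← Finset.sum_add_distrib]
      exact Finset.sum_congr rfl fun t _ => by simp only [hlam]; ring
    have hker : ∀ q, ∑ t, lam t * d t q = 0 := by
      intro q
      rw [← hsum]
      have := hμv q
      rw [Fintype.sum_sum_type] at this
      simpa only [hg, Sum.elim_inl, Sum.elim_inr] using this
    have hc : ∑ x, μ x * (g x).c = ∑ t, lam t * a' t := by
      rw [← hsum, Fintype.sum_sum_type]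
      simp only [hg, Sum.elim_inl, Sum.elim_inr]
    rw [hc] at hμc
    have hcp : ∀ t, 0 < s t → 0 ≤ lam t ∧ lam t = μ (.inl t) := by
      intro t ht
      have h1 : P t = 1 := by simp only [hP]; rw [if_neg (not_lt.2 ht.le)]
      have h2 : Q t = 0 := by simp only [hQ]; rw [if_pos ht]
      have h3 : lam t = μ (.inl t) := by simp only [hlam, h1, h2]; ring
      exact ⟨h3 ▸ hμ0 _, h3⟩
    have hcn : ∀ t, s t < 0 → lam t ≤ 0 ∧ lam t = -μ (.inr t) := by
      intro t ht
      have h1 : P t = 0 := by simp only [hP]; rw [if_pos ht]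
      have h2 : Q t = 1 := by simp only [hQ]; rw [if_neg (not_lt.2 ht.le)]
      have h3 : lam t = -μ (.inr t) := by simp only [hlam, h1, h2]; ring
      exact ⟨by rw [h3]; linarith [hμ0 (.inr t)], h3⟩
    obtain ⟨e, he1, he2, he3⟩ := decomp (coordK d) (coordK_sep d) _ (⟨lam, hker⟩ : Ker d) le_rfl
    have hsm : ∀ t, ∑ j, (e j).1 t = lam t := by
      intro t
      have h1 := congrArg (coordK d t) he3
      rw [map_sum] at h1
      exact h1
    have hterm : ∀ j t, 0 ≤ (e j).1 t * s t := by
      intro j t
      have h1 := he2 j t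
      simp only [coordK_apply] at h1
      rcases lt_trichotomy (s t) 0 with h0 | h0 | h0
      · have h2 := (hcn t h0).1
        have h3 : (e j).1 t ≤ 0 := by
          rcases h2.lt_or_eq with h4 | h4
          · by_contra hh
            push Not at hh
            have := h1.1
            nlinarith
          · exact (h1.2 h4).le
        nlinarith
      · rw [h0, mul_zero]
      · have h2 := (hcp t h0).1
        have h3 : 0 ≤ (e j).1 t := by
          rcases h2.lt_or_eq with h4 | h4
          · by_contra hh
            push Not at hh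
            have := h1.1
            nlinarith
          · exact (h1.2 h4.symm).ge
        exact mul_nonneg h3 h0.le
    have hG : ∀ j, ∑ t, (e j).1 t * a t = ∑ t, (e j).1 t * s t := by
      intro j
      have h1 : ∑ t, (e j).1 t * s t = ∑ t, (e j).1 t * a t + ∑ q, Z q * ∑ t, (e j).1 t * d t q := by
        simp only [hs, mul_add, Finset.sum_add_distrib, Finset.mul_sum]
        rw [Finset.sum_comm, add_comm]
        congr 1
        exact Finset.sum_congr rfl fun q _ => Finset.sum_congr rfl fun t _ => by ring
      rw [h1]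
      have h2 : ∀ q, ∑ t, (e j).1 t * d t q = 0 := (e j).2
      simp only [h2, mul_zero, Finset.sum_const_zero, add_zero]
    have hG' : ∀ j, 0 ≤ ∑ t, (e j).1 t * a' t ∧
        ((∃ t, s t ≠ 0 ∧ (e j).1 t ≠ 0) → 0 < ∑ t, (e j).1 t * a' t) := by
      intro j
      rcases he1 j with h0 | h0
      · rw [h0]
        refine ⟨by simp, ?_⟩
        rintro ⟨t, -, ht⟩
        exact (ht rfl).elim
      · have hse := h (e j) h0
        rw [hG j] at hse
        have hnn : 0 ≤ ∑ t, (e j).1 t * s t := Finset.sum_nonneg fun t _ => hterm j t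
        refine ⟨?_, ?_⟩
        · by_contra hh
          push Not at hh
          exact absurd (hse.2.2 hh) (not_lt.2 hnn)
        · rintro ⟨t, ht1, ht2⟩
          refine hse.1.1 ?_
          refine Finset.sum_pos' (fun t _ => hterm j t) ⟨t, Finset.mem_univ _, ?_⟩
          exact lt_of_le_of_ne (hterm j t) (mul_ne_zero ht2 ht1).symm
    have htot : ∑ t, lam t * a' t = ∑ j, ∑ t, (e j).1 t * a' t := by
      rw [Finset.sum_comm]
      exact Finset.sum_congr rfl fun t _ => by rw [← Finset.sum_mul, hsm]
    have hnn : 0 ≤ ∑ t, lam t * a' t := htot ▸ Finset.sum_nonneg fun j _ => (hG' j).1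
    have hstrict : ∀ t, s t ≠ 0 → lam t ≠ 0 → 0 < ∑ t, lam t * a' t := by
      intro t h1 h2
      have h3 : ∃ j, (e j).1 t ≠ 0 := by
        by_contra hh
        push Not at hh
        exact h2 (by rw [← hsm t]; exact Finset.sum_eq_zero fun j _ => hh j)
      obtain ⟨j, hj⟩ := h3
      rw [htot]
      exact Finset.sum_pos' (fun j _ => (hG' j).1) ⟨j, Finset.mem_univ _, (hG' j).2 ⟨t, h1, hj⟩⟩
    rcases hμc with h1 | ⟨h1, x, hx, hx0⟩
    · linarith
    · rcases x with t | t
      · simp only [hg, Sum.elim_inl] at hx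
        have h2 := hstrict t (ne_of_gt hx) (by rw [(hcp t hx).2]; exact ne_of_gt hx0)
        linarith
      · simp only [hg, Sum.elim_inr] at hx
        have h2 := hstrict t (ne_of_lt hx) (by rw [(hcn t hx).2]; exact neg_ne_zero.2 (ne_of_gt hx0))
        linarith

/-! ### Test points -/

section test

variable {N m l : ℕ}

/-- the conditions on the multipliers -/
def Lam (d : Fin N → Fin l → ℝ) (S T : Fin N → Bool) (lam : Fin N → ℝ) : Prop :=
  (∀ t, S t = false → lam t = 0) ∧ (∀ t, T t = true → lam t = 1) ∧ ∀ q, ∑ t, lam t * d t q = 0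

/-- the coefficients of a functional -/
noncomputable def coef (c : Fin N → Fin (m + 1) → ℝ) (lam : Fin N → ℝ) (C : Fin (m + 1) → Bool)
    (i : Fin (m + 1)) : ℝ := ∑ t, lam t * c t i + (if C i = true then 1 else 0)

/-- the value of the functional with number `k` on a ray -/
noncomputable def rhs (p n : Bool) (k : Fin (m + 1)) : ℝ :=
  if k = Fin.last m then (if p = true then 1 else 0) - (if n = true then 1 else 0) else 0

/-- the conditions on a ray -/
def Ray (c : Fin N → Fin (m + 1) → ℝ) (lam : Fin (m + 1) → Fin N → ℝ)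
    (C : Fin (m + 1) → Fin (m + 1) → Bool) (p n : Bool) (e : Fin (m + 1) → ℝ) : Prop :=
  ∀ k, ∑ i, coef c (lam k) (C k) i * e i = rhs p n k

/-- the values of the affine functions -/
noncomputable def alp (c : Fin N → Fin (m + 1) → ℝ) (d : Fin N → Fin l → ℝ) (Y : Fin m → ℝ)
    (Z : Fin l → ℝ) (t : Fin N) : ℝ :=
  ∑ q, d t q * Z q + (∑ i : Fin m, c t i.castSucc * Y i + c t (Fin.last m))

/-- the statement for one code -/
def El (c : Fin N → Fin (m + 1) → ℝ) (d : Fin N → Fin l → ℝ)
    (S T : Fin (m + 1) → Fin (m + 1) → Fin N → Bool)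
    (C : Fin (m + 1) → Fin (m + 1) → Fin (m + 1) → Bool) (p n : Fin (m + 1) → Bool)
    (P : (Fin N → ℝ) → Prop) : Prop :=
  (∃ j k, ¬ ∃ lam, Lam d (S j k) (T j k) lam) ∨
    ∃ lam : Fin (m + 1) → Fin (m + 1) → Fin N → ℝ, (∀ j k, Lam d (S j k) (T j k) (lam j k)) ∧
      ((∃ j, ¬ ∃ e, Ray c (lam j) (C j) (p j) (n j) e) ∨
        ∃ e : Fin (m + 1) → Fin (m + 1) → ℝ, (∀ j, Ray c (lam j) (C j) (p j) (n j) (e j)) ∧
          (∑ j, e j (Fin.last m) ≤ 0 ∨ ∃ (Y : Fin m → ℝ) (Z : Fin l → ℝ),
            (∀ i, (∑ j, e j (Fin.last m)) * Y i = ∑ j, e j i.castSucc) ∧ P (alp c d Y Z)))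

/-- the functional with given coefficients -/
def lin (w : Fin (m + 1) → ℝ) : (Fin (m + 1) → ℝ) →ₗ[ℝ] ℝ where
  toFun u := ∑ i, w i * u i
  map_add' u v := by simp only [Pi.add_apply, mul_add, Finset.sum_add_distrib]
  map_smul' r u := by
    simp only [Pi.smul_apply, smul_eq_mul, RingHom.id_apply, Finset.mul_sum]
    exact Finset.sum_congr rfl fun i _ => by ring

theorem lin_apply (w u : Fin (m + 1) → ℝ) : lin w u = ∑ i, w i * u i := rfl

/-- indices of functionals -/
abbrev Idx (N m : ℕ) : Type := ((Fin N → Bool) × (Fin N → Bool)) ⊕ Fin (m + 1)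

open Classical in
/-- the multipliers of an index -/
noncomputable def mult (d : Fin N → Fin l → ℝ) (x : (Fin N → Bool) × (Fin N → Bool)) : Fin N → ℝ :=
  if h : ∃! lam, Lam d x.1 x.2 lam then h.choose else 0

/-- the functional of an index -/
noncomputable def fn (c : Fin N → Fin (m + 1) → ℝ) (d : Fin N → Fin l → ℝ) :
    Idx N m → (Fin (m + 1) → ℝ) →ₗ[ℝ] ℝ :=
  Sum.elim (fun x => lin fun i => ∑ t, mult d x t * c t i) fun i => LinearMap.proj i

open Classical in
/-- the code of an index -/
noncomputable def cod (d : Fin N → Fin l → ℝ) :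
    Idx N m → ((Fin N → Bool) × (Fin N → Bool)) × (Fin (m + 1) → Bool) :=
  Sum.elim (fun x => if ∃! lam, Lam d x.1 x.2 lam then (x, fun _ => false)
    else ((fun _ => false, fun _ => false), fun _ => false))
    fun i => ((fun _ => false, fun _ => false), fun i' => decide (i' = i))

theorem lam_zero (d : Fin N → Fin l → ℝ) (lam : Fin N → ℝ) :
    Lam d (fun _ => false) (fun _ => false) lam ↔ lam = 0 := by
  constructor
  · intro h
    exact funext fun t => h.1 t rfl
  · rintro rfl
    exact ⟨fun _ _ => rfl, fun t ht => by simp at ht, fun q => by simp⟩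

theorem cod_exists (c : Fin N → Fin (m + 1) → ℝ) (d : Fin N → Fin l → ℝ) (x : Idx N m) :
    ∃ lam, Lam d (cod d x).1.1 (cod d x).1.2 lam := by
  rcases x with x | i
  · by_cases h : ∃! lam, Lam d x.1 x.2 lam
    · simp only [cod, Sum.elim_inl, if_pos h]
      exact h.exists
    · simp only [cod, Sum.elim_inl, if_neg h]
      exact ⟨0, (lam_zero d 0).2 rfl⟩
  · exact ⟨0, (lam_zero d 0).2 rfl⟩

theorem cod_spec (c : Fin N → Fin (m + 1) → ℝ) (d : Fin N → Fin l → ℝ) (x : Idx N m)
    (lam : Fin N → ℝ) (h : Lam d (cod d x).1.1 (cod d x).1.2 lam) (u : Fin (m + 1) → ℝ) :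
    ∑ i, coef c lam (cod d x).2 i * u i = fn c d x u := by
  rcases x with x | i
  · by_cases hx : ∃! lam, Lam d x.1 x.2 lam
    · simp only [cod, Sum.elim_inl, if_pos hx] at h ⊢
      have h1 : lam = mult d x := by
        rw [mult, dif_pos hx]
        exact hx.unique h hx.choose_spec.1
      simp only [fn, Sum.elim_inl, lin_apply, coef, h1, Bool.false_eq_true, if_false, add_zero]
    · simp only [cod, Sum.elim_inl, if_neg hx] at h ⊢
      rw [lam_zero] at h
      have h1 : mult d x = 0 := by rw [mult, dif_neg hx]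
      simp only [fn, Sum.elim_inl, lin_apply, coef, h1, h, Bool.false_eq_true, if_false, add_zero,
        Pi.zero_apply, zero_mul, Finset.sum_const_zero]
  · simp only [cod, Sum.elim_inr] at h ⊢
    rw [lam_zero] at h
    simp only [fn, Sum.elim_inr, coef, h, Pi.zero_apply, zero_mul, Finset.sum_const_zero, zero_add,
      decide_eq_true_eq, ite_mul, one_mul, Finset.sum_ite_eq', Finset.mem_univ, if_true,
      LinearMap.proj_apply]

theorem fn_sep (c : Fin N → Fin (m + 1) → ℝ) (d : Fin N → Fin l → ℝ) (v : Fin (m + 1) → ℝ)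
    (h : ∀ x, fn c d x v = 0) : v = 0 := funext fun i => h (.inr i)

theorem fn_trivial (c : Fin N → Fin (m + 1) → ℝ) (d : Fin N → Fin l → ℝ) :
    fn c d (.inl (fun _ => false, fun _ => false)) = 0 := by
  have h1 : mult d ((fun _ => false, fun _ => false) : (Fin N → Bool) × (Fin N → Bool)) = 0 := by
    have hx : ∃! lam, Lam d (fun _ => false) (fun _ => false) lam :=
      ⟨0, (lam_zero d 0).2 rfl, fun lam h => (lam_zero d lam).1 h⟩
    rw [mult, dif_pos hx]
    exact (lam_zero d _).1 hx.choose_spec.1
  refine LinearMap.ext fun u => ?_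
  simp only [fn, Sum.elim_inl, lin_apply, h1, Pi.zero_apply, zero_mul, Finset.sum_const_zero,
    LinearMap.zero_apply]

/-- few functionals suffice -/
theorem select {ι : Type} (f : ι → (Fin (m + 1) → ℝ) →ₗ[ℝ] ℝ) (i0 : ι) (hi0 : f i0 = 0)
    (e : Fin (m + 1) → ℝ) (he : e ≠ 0) :
    ∃ g : Fin m → ι, (∀ k, f (g k) e = 0) ∧ ∀ v, (∀ k, f (g k) v = 0) → Sb f v e := by
  classical
  set s : Set (Dual ℝ (Fin (m + 1) → ℝ)) := {φ | (∃ i, f i = φ) ∧ φ e = 0} with hs
  obtain ⟨φ, h1, h2, -⟩ := Submodule.exists_fun_fin_finrank_span_eq ℝ s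
  have hle : finrank ℝ (Submodule.span ℝ s) ≤ m := by
    have h3 : Submodule.span ℝ s ≤ (Submodule.span ℝ {e}).dualAnnihilator := by
      rw [Submodule.span_le]
      rintro φ ⟨-, hφ⟩
      rw [SetLike.mem_coe, Submodule.mem_dualAnnihilator]
      intro w hw
      obtain ⟨r, rfl⟩ := Submodule.mem_span_singleton.1 hw
      rw [map_smul, hφ, smul_zero]
    have h4 := Submodule.finrank_mono h3
    have h5 := Subspace.finrank_add_finrank_dualAnnihilator_eq (Submodule.span ℝ {e})
    rw [finrank_span_singleton he, Module.finrank_fin_fun] at h5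
    omega
  choose g hg using fun k => (h1 k).1
  refine ⟨fun k => if h : (k : ℕ) < finrank ℝ (Submodule.span ℝ s) then g ⟨k, h⟩ else i0,
    fun k => ?_, fun v hv i hi => ?_⟩
  · simp only
    split_ifs with h
    · rw [hg]; exact (h1 _).2
    · rw [hi0]; rfl
  · have h3 : f i ∈ Submodule.span ℝ (Set.range φ) := by
      rw [h2]
      exact Submodule.subset_span ⟨⟨i, rfl⟩, hi⟩
    have h4 : ∀ ψ ∈ Submodule.span ℝ (Set.range φ), ψ v = 0 := by
      intro ψ hψ
      induction hψ using Submodule.span_induction with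
      | mem x hx =>
        obtain ⟨k, rfl⟩ := hx
        have h5 := hv ⟨k, lt_of_lt_of_le k.2 hle⟩
        simp only [k.2, dif_pos] at h5
        rw [hg] at h5
        exact h5
      | zero => rfl
      | add x y _ _ hx hy => rw [LinearMap.add_apply, hx, hy, add_zero]
      | smul r x _ hx => rw [LinearMap.smul_apply, hx, smul_zero]
    exact h4 _ h3

/-- every piece is a positive multiple of the unique solution of the equations of a code -/
theorem exists_code (c : Fin N → Fin (m + 1) → ℝ) (d : Fin N → Fin l → ℝ) (e : Fin (m + 1) → ℝ)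
    (he : e = 0 ∨ Elem (fn c d) e) : ∃ (idx : Fin (m + 1) → Idx N m) (p n : Bool) (r : ℝ),
      0 < r ∧ (∀ k, fn c d (idx k) (r • e) = rhs p n k) ∧
        ∀ v, (∀ k, fn c d (idx k) v = rhs p n k) → v = r • e := by
  classical
  rcases he with rfl | he
  · refine ⟨fun k => .inr k, false, false, 1, one_pos, fun k => ?_, fun v hv => ?_⟩
    · rw [smul_zero, map_zero]
      simp [rhs]
    · rw [smul_zero]
      funext i
      have := hv i
      simpa [rhs, fn] using this
  · obtain ⟨g, hg1, hg2⟩ := select (fn c d) _ (fn_trivial c d) e he.1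
    have hex : ∃ x, fn c d x e ≠ 0 := by
      by_contra h
      push Not at h
      exact he.1 (fn_sep c d e h)
    obtain ⟨x, hx⟩ := hex
    have habs : 0 < |fn c d x e| := abs_pos.2 hx
    have hval : ∀ y : ℝ, y ≠ 0 → (if decide (0 < y) = true then (1 : ℝ) else 0) -
        (if decide (y < 0) = true then 1 else 0) = |y|⁻¹ * y := by
      intro y hy
      rcases lt_or_gt_of_ne hy with h | h
      · rw [abs_of_neg h]
        simp only [decide_eq_true_eq, if_neg (not_lt.2 h.le), if_pos h]
        field_simp
        ring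
      · rw [abs_of_pos h]
        simp only [decide_eq_true_eq, if_neg (not_lt.2 h.le), if_pos h]
        field_simp
        ring
    refine ⟨Fin.snoc g x, decide (0 < fn c d x e), decide (fn c d x e < 0), |fn c d x e|⁻¹,
      inv_pos.2 habs, fun k => ?_, fun v hv => ?_⟩
    · refine Fin.lastCases ?_ (fun k => ?_) k
      · rw [Fin.snoc_last, rhs, if_pos rfl, map_smul, smul_eq_mul, hval _ hx]
      · rw [Fin.snoc_castSucc, rhs, if_neg (Fin.castSucc_lt_last k).ne, map_smul, hg1 k, smul_zero]
    · have h1 : ∀ k, fn c d (g k) v = 0 := fun k => by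
        have := hv k.castSucc
        rwa [Fin.snoc_castSucc, rhs, if_neg (Fin.castSucc_lt_last k).ne] at this
      have h2 := hv (Fin.last m)
      rw [Fin.snoc_last, rhs, if_pos rfl, hval _ hx] at h2
      obtain ⟨r, rfl⟩ := he.2 v (hg2 v h1)
      rw [map_smul, smul_eq_mul] at h2
      rw [mul_right_cancel₀ hx h2]

theorem se_sum {V ι κ : Type} [AddCommGroup V] [Module ℝ V] [Fintype κ] (f : ι → V →ₗ[ℝ] ℝ)
    (e : κ → V) (r : κ → ℝ) (hr : ∀ j, 0 < r j) (hc : ∀ j, Conf f (e j) (∑ j, e j)) (i : ι) :
    SE (f i (∑ j, r j • e j)) (f i (∑ j, e j)) := by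
  have h1 : f i (∑ j, r j • e j) = ∑ j, r j * f i (e j) := by
    rw [map_sum]
    exact Finset.sum_congr rfl fun j _ => by rw [map_smul, smul_eq_mul]
  have h2 : f i (∑ j, e j) = ∑ j, f i (e j) := map_sum _ _ _
  rcases lt_trichotomy (f i (∑ j, e j)) 0 with h0 | h0 | h0
  · have h3 : ∀ j, f i (e j) ≤ 0 := fun j => by
      by_contra hh
      push Not at hh
      have := (hc j i).1
      nlinarith
    have h4 : ∃ j, f i (e j) < 0 := by
      by_contra hh
      push Not at hh
      have : 0 ≤ ∑ j, f i (e j) := Finset.sum_nonneg fun j _ => hh j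
      rw [← h2] at this
      linarith
    obtain ⟨j, hj⟩ := h4
    have h5 : ∑ j, r j * f i (e j) < 0 := by
      have h6 : 0 < ∑ j, r j * -f i (e j) :=
        Finset.sum_pos' (fun j _ => mul_nonneg (hr j).le (neg_nonneg.2 (h3 j)))
          ⟨j, Finset.mem_univ _, mul_pos (hr j) (neg_pos.2 hj)⟩
      simp only [mul_neg, Finset.sum_neg_distrib] at h6
      linarith
    rw [h1]
    exact ⟨⟨fun h => by linarith, fun h => by linarith⟩, fun _ => h0, fun _ => h5⟩
  · have h3 : ∀ j, f i (e j) = 0 := fun j => (hc j i).2 h0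
    rw [h1, h0]
    simp only [h3, mul_zero, Finset.sum_const_zero]
    exact ⟨Iff.rfl, Iff.rfl⟩
  · have h3 : ∀ j, 0 ≤ f i (e j) := fun j => by
      by_contra hh
      push Not at hh
      have := (hc j i).1
      nlinarith
    have h4 : ∃ j, 0 < f i (e j) := by
      by_contra hh
      push Not at hh
      have : ∑ j, f i (e j) ≤ 0 := Finset.sum_nonpos fun j _ => hh j
      rw [← h2] at this
      linarith
    obtain ⟨j, hj⟩ := h4
    have h5 : 0 < ∑ j, r j * f i (e j) :=
      Finset.sum_pos' (fun j _ => mul_nonneg (hr j).le (h3 j))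
        ⟨j, Finset.mem_univ _, mul_pos (hr j) hj⟩
    rw [h1]
    exact ⟨⟨fun _ => h0, fun _ => h5⟩, fun h => by linarith, fun h => by linarith⟩

theorem SE.mul {x y : ℝ} (h : SE x y) {a b : ℝ} (ha : 0 < a) (hb : 0 < b) : SE (a * x) (b * y) := by
  refine ⟨?_, ?_⟩
  · rw [mul_pos_iff_of_pos_left ha, mul_pos_iff_of_pos_left hb]; exact h.1
  · have h1 : ∀ {a x : ℝ}, 0 < a → (a * x < 0 ↔ x < 0) := fun {a x} ha =>
      ⟨fun h => by by_contra hh; push Not at hh; have := mul_nonneg ha.le hh; linarith,
        fun h => mul_neg_of_pos_of_neg ha h⟩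
    rw [h1 ha, h1 hb]; exact h.2

theorem SE.neg {x y : ℝ} (h : SE x y) : SE (-x) (-y) :=
  ⟨by rw [neg_pos, neg_pos]; exact h.2, by rw [neg_lt_zero, neg_lt_zero]; exact h.1⟩

/-- **Test points.** -/
theorem test_iff (c : Fin N → Fin (m + 1) → ℝ) (d : Fin N → Fin l → ℝ) (P : (Fin N → ℝ) → Prop)
    (hP : ∀ v v' : Fin N → ℝ, (∀ t, SE (v t) (v' t)) → P v → P v') :
    (∀ Y : Fin m → ℝ, ∃ Z : Fin l → ℝ, P (alp c d Y Z)) ↔
      ∀ (S T : Fin (m + 1) → Fin (m + 1) → Fin N → Bool)
        (C : Fin (m + 1) → Fin (m + 1) → Fin (m + 1) → Bool) (p n : Fin (m + 1) → Bool),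
        El c d S T C p n P := by
  classical
  constructor
  · intro h S T C p n
    by_cases h1 : ∃ j k, ¬ ∃ lam, Lam d (S j k) (T j k) lam
    · exact Or.inl h1
    · push Not at h1
      choose lam hlam using h1
      refine Or.inr ⟨lam, hlam, ?_⟩
      by_cases h2 : ∃ j, ¬ ∃ e, Ray c (lam j) (C j) (p j) (n j) e
      · exact Or.inl h2
      · push Not at h2
        choose e he using h2
        refine Or.inr ⟨e, he, ?_⟩
        by_cases h3 : ∑ j, e j (Fin.last m) ≤ 0
        · exact Or.inl h3
        · push Not at h3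
          obtain ⟨Z, hZ⟩ := h fun i => (∑ j, e j i.castSucc) / ∑ j, e j (Fin.last m)
          exact Or.inr ⟨_, Z, fun i => mul_div_cancel₀ _ h3.ne', hZ⟩
  · intro h Y0
    set u0 : Fin (m + 1) → ℝ := Fin.snoc Y0 1 with hu0
    obtain ⟨e, he1, he2, he3⟩ := decomp (fn c d) (fn_sep c d) (m + 1) u0
      ((Submodule.finrank_le _).trans (by rw [Module.finrank_fin_fun]))
    choose idx p n r hr hcode huniq using fun j => exists_code c d (e j) (he1 j)
    have hE := h (fun j k => (cod d (idx j k)).1.1) (fun j k => (cod d (idx j k)).1.2)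
      (fun j k => (cod d (idx j k)).2) p n
    rcases hE with ⟨j, k, hjk⟩ | ⟨lam, hlam, hE⟩
    · exact (hjk (cod_exists c d (idx j k))).elim
    · have hray : ∀ j v, Ray c (lam j) (fun k => (cod d (idx j k)).2) (p j) (n j) v ↔
          ∀ k, fn c d (idx j k) v = rhs (p j) (n j) k := by
        intro j v
        refine forall_congr' fun k => ?_
        rw [cod_spec c d (idx j k) (lam j k) (hlam j k)]
      rcases hE with ⟨j, hj⟩ | ⟨e', he', hE⟩
      · exact (hj ⟨r j • e j, (hray j _).2 (hcode j)⟩).elim
      · have hee : ∀ j, e' j = r j • e j := fun j => huniq j _ ((hray j _).1 (he' j))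
        set u1 : Fin (m + 1) → ℝ := ∑ j, r j • e j with hu1
        have hse : ∀ x, SE (fn c d x u1) (fn c d x u0) := by
          intro x
          have := se_sum (fn c d) e r hr (fun j => by rw [he3]; exact he2 j) x
          rwa [he3] at this
        have hsum : ∀ i, ∑ j, e' j i = u1 i := by
          intro i
          rw [hu1, Finset.sum_apply]
          exact Finset.sum_congr rfl fun j _ => by rw [hee j]
        simp only [hsum] at hE
        have hlast : 0 < u1 (Fin.last m) := by
          have h1 := (hse (.inr (Fin.last m))).1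
          have h2 : fn c d (.inr (Fin.last m)) u0 = 1 := by
            change u0 (Fin.last m) = 1
            rw [hu0, Fin.snoc_last]
          rw [h2] at h1
          exact h1.2 one_pos
        rcases hE with hE | ⟨Y, Z, hY, hPZ⟩
        · exact absurd hlast (not_lt.2 hE)
        · -- the values at the two points
          have hval0 : ∀ t, ∑ i : Fin m, c t i.castSucc * Y0 i + c t (Fin.last m) =
              ∑ i, c t i * u0 i := by
            intro t
            rw [Fin.sum_univ_castSucc]
            simp only [hu0, Fin.snoc_castSucc, Fin.snoc_last, mul_one]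
          have hval1 : ∀ t, ∑ i : Fin m, c t i.castSucc * Y i + c t (Fin.last m) =
              (u1 (Fin.last m))⁻¹ * ∑ i, c t i * u1 i := by
            intro t
            rw [Fin.sum_univ_castSucc, mul_add, Finset.mul_sum]
            congr 1
            · refine Finset.sum_congr rfl fun i _ => ?_
              rw [← hY i]
              field_simp
            · field_simp
          have hk : ∀ lam : Ker d, Elem (coordK d) lam → SE
              (∑ t, lam.1 t * (∑ i : Fin m, c t i.castSucc * Y i + c t (Fin.last m)))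
              (∑ t, lam.1 t * (∑ i : Fin m, c t i.castSucc * Y0 i + c t (Fin.last m))) := by
            intro lam hl
            simp only [hval0, hval1]
            -- the functional of the elementary vector
            have hex : ∃ t, lam.1 t ≠ 0 := by
              by_contra hh
              push Not at hh
              exact hl.1 (Subtype.ext (funext hh))
            obtain ⟨t0, ht0⟩ := hex
            set S0 : Fin N → Bool := fun t => decide (lam.1 t ≠ 0) with hS0
            set T0 : Fin N → Bool := fun t => decide (t = t0) with hT0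
            have hex : ∃! lam', Lam d S0 T0 lam' := by
              refine ⟨fun t => (lam.1 t0)⁻¹ * lam.1 t, ⟨fun t ht => ?_, fun t ht => ?_, fun q => ?_⟩,
                fun lam' h' => ?_⟩
              · simp only [hS0, decide_eq_false_iff_not, not_not] at ht
                simp only [ht, mul_zero]
              · simp only [hT0, decide_eq_true_eq] at ht
                subst ht
                exact inv_mul_cancel₀ ht0
              · simp only [mul_assoc]
                rw [← Finset.mul_sum, lam.2 q, mul_zero]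
              · obtain ⟨r', hr'⟩ := hl.2 ⟨lam', h'.2.2⟩ fun t ht => by
                  rw [coordK_apply] at ht ⊢
                  exact h'.1 t (by simp only [hS0, decide_eq_false_iff_not, not_not]; exact ht)
                have h1 : ∀ t, lam' t = r' * lam.1 t := fun t => congrFun (congrArg Subtype.val hr') t
                have h2 := h'.2.1 t0 (by simp [hT0])
                rw [h1] at h2
                funext t
                rw [h1 t]
                congr 1
                field_simp
                try linarith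
            have hmult : mult d (S0, T0) = fun t => (lam.1 t0)⁻¹ * lam.1 t := by
              have h1 : Lam d S0 T0 (mult d (S0, T0)) := by
                rw [mult, dif_pos hex]
                exact hex.choose_spec.1
              refine hex.unique h1 ⟨fun t ht => ?_, fun t ht => ?_, fun q => ?_⟩
              · simp only [hS0, decide_eq_false_iff_not, not_not] at ht
                simp only [ht, mul_zero]
              · simp only [hT0, decide_eq_true_eq] at ht
                subst ht
                exact inv_mul_cancel₀ ht0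
              · simp only [mul_assoc]
                rw [← Finset.mul_sum, lam.2 q, mul_zero]
            have hG : ∀ u : Fin (m + 1) → ℝ, ∑ t, lam.1 t * ∑ i, c t i * u i =
                lam.1 t0 * fn c d (.inl (S0, T0)) u := by
              intro u
              simp only [fn, Sum.elim_inl, lin_apply, hmult, Finset.mul_sum, Finset.sum_mul]
              rw [Finset.sum_comm]
              refine Finset.sum_congr rfl fun i _ => Finset.sum_congr rfl fun t _ => ?_
              field_simp
            have h1 : ∑ t, lam.1 t * ((u1 (Fin.last m))⁻¹ * ∑ i, c t i * u1 i) =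
                (u1 (Fin.last m))⁻¹ * (lam.1 t0 * fn c d (.inl (S0, T0)) u1) := by
              rw [← hG, Finset.mul_sum]
              exact Finset.sum_congr rfl fun t _ => by ring
            rw [h1, hG]
            have h2 := hse (.inl (S0, T0))
            have h3 : SE (lam.1 t0 * fn c d (.inl (S0, T0)) u1)
                (lam.1 t0 * fn c d (.inl (S0, T0)) u0) := by
              rcases lt_or_gt_of_ne ht0 with h4 | h4
              · have h5 := (h2.mul (neg_pos.2 h4) (neg_pos.2 h4)).neg
                simpa only [neg_mul, neg_neg] using h5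
              · exact h2.mul h4 h4
            have h4 := h3.mul (inv_pos.2 hlast) one_pos
            rwa [one_mul] at h4
          obtain ⟨Z0, hZ0⟩ := realise d
            (fun t => ∑ i : Fin m, c t i.castSucc * Y i + c t (Fin.last m))
            (fun t => ∑ i : Fin m, c t i.castSucc * Y0 i + c t (Fin.last m)) hk Z
          exact ⟨Z0, hP _ _ hZ0 hPZ⟩

end test

end Pool.Agent.Lib.MP_77492d_lc.Cf
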