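import Pool.Agent.Lib.MP_77492d_lc.Defs35
import Pool.Agent.Lib.PolyFun.Code36

/-!
# Words for formulas, and the map from families to sentences in polynomial time

A formula is written in postfix notation; a symbol is a triple (kind, index, binary digits).
-/

set_option autoImplicit false

namespace Pool.Agent.Lib.MP_77492d_lc.Tk

open Pool.Agent.Lib.MP_77492d_lc Pool.Agent.Lib.PolyFun Turing

/-- Symbols: (kind, index, binary digits). Kinds: `0` variable, `1` constant (index = sign),
`2` sum, `3` product, `4` equality, `5` less than, `6` negation, `7` conjunction,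
`8` disjunction. -/
abbrev Tok : Type := ℕ × (ℕ × List Bool)

/-- the symbols of a term, in postfix notation; `e` numbers the variables -/
def tmToks {V : Type} (e : V → ℕ) : Tm V → List Tok
  | .var v => [(0, (e v, []))]
  | .const z => [(1, ((if z < 0 then 1 else 0), z.natAbs.bits))]
  | .add s t => tmToks e s ++ tmToks e t ++ [(2, (0, []))]
  | .mul s t => tmToks e s ++ tmToks e t ++ [(3, (0, []))]

/-- the symbols of a formula, in postfix notation -/
def fToks {V : Type} (e : V → ℕ) : Fml V → List Tok
  | .eq s t => tmToks e s ++ tmToks e t ++ [(4, (0, []))]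
  | .lt s t => tmToks e s ++ tmToks e t ++ [(5, (0, []))]
  | .not φ => fToks e φ ++ [(6, (0, []))]
  | .and φ ψ => fToks e φ ++ fToks e ψ ++ [(7, (0, []))]
  | .or φ ψ => fToks e φ ++ fToks e ψ ++ [(8, (0, []))]

/-- the numbering of the variables of an instance -/
def enI (n m : ℕ) : Fin n ⊕ Fin m → ℕ := Sum.elim (fun j => (j : ℕ)) fun i => n + (i : ℕ)

/-- the numbering of the variables of a sentence -/
def enS (a k c : ℕ) : Fin a ⊕ (Fin k ⊕ Fin c) → ℕ :=
  Sum.elim (fun j => (j : ℕ)) (Sum.elim (fun i => a + (i : ℕ)) fun l => a + k + (l : ℕ))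

/-- A sentence `∃ X ∈ ℝ ^ a, ∀ b ∈ {0, 1} ^ k, ∃ Z ∈ ℝ ^ c, F (X, b, Z)`. -/
structure SentenceI : Type where
  /-- the number of variables of the first block -/
  a : ℕ
  /-- the number of Boolean variables -/
  k : ℕ
  /-- the number of variables of the last block -/
  c : ℕ
  /-- the formula -/
  F : Fml (Fin a ⊕ (Fin k ⊕ Fin c))

/-- An instance `(F, k)` of the problem, with `F = F (x, y)`, `x ∈ ℝ ^ n`, `y ∈ ℝ ^ m`. -/
structure InstanceI : Type where
  /-- the dimension of the space -/
  n : ℕ
  /-- the number of parameters -/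
  m : ℕ
  /-- the number of points -/
  k : ℕ
  /-- the formula -/
  F : Fml (Fin n ⊕ Fin m)

/-- the word of a sentence -/
def SentenceI.w (s : SentenceI) : ℕ × (ℕ × (ℕ × List Tok)) :=
  (s.a, (s.k, (s.c, fToks (enS s.a s.k s.c) s.F)))

/-- the word of an instance -/
def InstanceI.w (s : InstanceI) : ℕ × (ℕ × (ℕ × List Tok)) :=
  (s.n, (s.m, (s.k, fToks (enI s.n s.m) s.F)))

instance : TEnc SentenceI := ⟨fun s => TEnc.enc s.w⟩

instance : TEnc InstanceI := ⟨fun s => TEnc.enc s.w⟩

theorem code_sentence (s : SentenceI) : code s = code s.w := rfl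

theorem code_instance (s : InstanceI) : code s = code s.w := rfl

/-! ### Renaming -/

/-- renaming of a symbol -/
def rel (g : ℕ → ℕ) (t : Tok) : Tok := if t.1 = 0 then (0, (g t.2.1, [])) else t

theorem tmToks_map {V W : Type} (f : V → W) (e : W → ℕ) (t : Tm V) :
    tmToks e (t.map f) = tmToks (fun v => e (f v)) t := by
  induction t with
  | var v => rfl
  | const z => rfl
  | add s t hs ht => simp only [Tm.map, tmToks, hs, ht]
  | mul s t hs ht => simp only [Tm.map, tmToks, hs, ht]

theorem fToks_map {V W : Type} (f : V → W) (e : W → ℕ) (φ : Fml V) :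
    fToks e (φ.map f) = fToks (fun v => e (f v)) φ := by
  induction φ with
  | eq s t => simp only [Fml.map, fToks, tmToks_map]
  | lt s t => simp only [Fml.map, fToks, tmToks_map]
  | not φ h => simp only [Fml.map, fToks, h]
  | and φ ψ h1 h2 => simp only [Fml.map, fToks, h1, h2]
  | or φ ψ h1 h2 => simp only [Fml.map, fToks, h1, h2]

theorem tmToks_rel {V : Type} (g : ℕ → ℕ) (e : V → ℕ) (t : Tm V) :
    tmToks (fun v => g (e v)) t = (tmToks e t).map (rel g) := by
  induction t with
  | var v => rfl
  | const z => rfl
  | add s t hs ht => simp only [tmToks, List.map_append, hs, ht]; rfl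
  | mul s t hs ht => simp only [tmToks, List.map_append, hs, ht]; rfl

theorem fToks_rel {V : Type} (g : ℕ → ℕ) (e : V → ℕ) (φ : Fml V) :
    fToks (fun v => g (e v)) φ = (fToks e φ).map (rel g) := by
  induction φ with
  | eq s t => simp only [fToks, List.map_append, tmToks_rel]; rfl
  | lt s t => simp only [fToks, List.map_append, tmToks_rel]; rfl
  | not φ h => simp only [fToks, List.map_append, h]; rfl
  | and φ ψ h1 h2 => simp only [fToks, List.map_append, h1, h2]; rfl
  | or φ ψ h1 h2 => simp only [fToks, List.map_append, h1, h2]; rfl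

/-- renaming of a formula, as a map on the symbols -/
theorem fToks_map_rel {V W : Type} (f : V → W) (e : V → ℕ) (e' : W → ℕ) (g : ℕ → ℕ)
    (h : ∀ v, e' (f v) = g (e v)) (φ : Fml V) :
    fToks e' (φ.map f) = (fToks e φ).map (rel g) := by
  rw [fToks_map, ← fToks_rel]
  congr 1
  funext v
  exact h v

/-! ### Conjunctions and disjunctions -/

theorem fToks_bigAnd {V : Type} (e : V → ℕ) (l : List (Fml V)) :
    fToks e (bigAnd l) = l.flatMap (fToks e) ++ (tmToks e (.const 0) ++ tmToks e (.const 0) ++
      [(4, (0, []))]) ++ List.replicate l.length (7, (0, [])) := by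
  induction l with
  | nil => simp [bigAnd, fToks]
  | cons φ l h =>
    rw [bigAnd, fToks, h, List.flatMap_cons, List.length_cons, List.replicate_succ']
    simp only [List.append_assoc]

theorem fToks_bigOr {V : Type} (e : V → ℕ) (l : List (Fml V)) :
    fToks e (bigOr l) = l.flatMap (fToks e) ++ (tmToks e (.const 0) ++ tmToks e (.const 0) ++
      [(5, (0, []))]) ++ List.replicate l.length (8, (0, [])) := by
  induction l with
  | nil => simp [bigOr, fToks]
  | cons φ l h =>
    rw [bigOr, fToks, h, List.flatMap_cons, List.length_cons, List.replicate_succ']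
    simp only [List.append_assoc]

end Pool.Agent.Lib.MP_77492d_lc.Tk
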