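import Pool.Agent.Lib.MP_77492d_lc.Defs35
import Pool.Agent.Lib.MP_77492d_lc.Abs35

/-!
# Words, formulas in reverse Polish notation, the two languages
-/

set_option autoImplicit false

namespace Pool.Agent.Lib.MP_77492d_lc.W35

open Pool.Agent.Lib.MP_77492d_lc

/-! ### Words and lists of numbers -/

/-- one step of the reading of a word: `1` adds one to the current number, `0` ends it -/
def nstep (q : ℕ × List ℕ) (b : Bool) : ℕ × List ℕ := if b then (q.1 + 1, q.2) else (0, q.1 :: q.2)

/-- The word `1…10 1…10 …` is read as the list of the lengths of its blocks `1…1`. -/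
def nums (w : List Bool) : List ℕ := (w.foldl nstep (0, [])).2.reverse

/-- The word of a list of numbers. -/
def unum (l : List ℕ) : List Bool := l.flatMap fun n => List.replicate n true ++ [false]

theorem foldl_replicate (n c : ℕ) (l : List ℕ) :
    (List.replicate n true).foldl nstep (c, l) = (c + n, l) := by
  induction n generalizing c with
  | zero => rfl
  | succ n ih => rw [List.replicate_succ, List.foldl_cons, nstep, if_pos rfl, ih]; congr 1; omega

theorem foldl_unum (l r : List ℕ) : (unum l).foldl nstep (0, r) = (0, l.reverse ++ r) := by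
  induction l generalizing r with
  | nil => rfl
  | cons n l ih =>
    rw [unum, List.flatMap_cons, List.foldl_append, List.foldl_append, foldl_replicate,
      List.foldl_cons, List.foldl_nil]
    change (unum l).foldl nstep (nstep (0 + n, r) false) = _
    rw [nstep, if_neg (by simp), Nat.zero_add, ih]
    simp

theorem nums_unum (l : List ℕ) : nums (unum l) = l := by
  rw [nums, foldl_unum, List.append_nil, List.reverse_reverse]

/-! ### Formulas -/

/-- The two stacks. -/
abbrev St := List (Tm ℕ) × List (Fml ℕ)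

/-- One letter of the reverse Polish notation: `0` is `=`, `1` is `<`, `2` is `not`, `3` is `and`,
`4` is `or`, `5` is `+`, `6` is `*`, `7` is the constant `1`, `8` is the constant `-1`, `v + 9` is
the variable number `v`. -/
def step (x : St) (t : ℕ) : Option St :=
  match t, x with
  | 0, (t2 :: t1 :: s, p) => some (s, .eq t1 t2 :: p)
  | 1, (t2 :: t1 :: s, p) => some (s, .lt t1 t2 :: p)
  | 2, (s, f :: p) => some (s, .not f :: p)
  | 3, (s, g :: f :: p) => some (s, .and f g :: p)
  | 4, (s, g :: f :: p) => some (s, .or f g :: p)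
  | 5, (t2 :: t1 :: s, p) => some (.add t1 t2 :: s, p)
  | 6, (t2 :: t1 :: s, p) => some (.mul t1 t2 :: s, p)
  | 7, (s, p) => some (.const 1 :: s, p)
  | 8, (s, p) => some (.const (-1) :: s, p)
  | v + 9, (s, p) => some (.var v :: s, p)
  | _, _ => none

/-- Reading a list of letters. -/
def run : List ℕ → St → Option St
  | [], x => some x
  | t :: l, x => (step x t).bind (run l)

/-- The formula that is written in reverse Polish notation. -/
def parse (l : List ℕ) : Option (Fml ℕ) :=
  match run l ([], []) with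
  | some ([], [φ]) => some φ
  | _ => none

theorem run_append (l₁ l₂ : List ℕ) (x : St) : run (l₁ ++ l₂) x = (run l₁ x).bind (run l₂) := by
  induction l₁ generalizing x with
  | nil => rfl
  | cons t l ih =>
    rw [List.cons_append, run, run]
    cases step x t with
    | none => rfl
    | some y => exact ih y

/-! ### The languages -/

/-- `y` and then `x`: the value of the variable number `i` (zero after the two blocks). -/
def env2 {m n : ℕ} (y : Fin m → ℝ) (x : Fin n → ℝ) (i : ℕ) : ℝ :=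
  if h : i < m then y ⟨i, h⟩ else if h : i - m < n then x ⟨i - m, h⟩ else 0

/-- `X`, then `b`, then `Z`. -/
def env3 {a k c : ℕ} (X : Fin a → ℝ) (b : Fin k → ℝ) (Z : Fin c → ℝ) (i : ℕ) : ℝ :=
  if h : i < a then X ⟨i, h⟩ else env2 b Z (i - a)

/-- The family of the sets `{x ∈ ℝ ^ n | φ (y, x)}`, `y ∈ ℝ ^ m`, has Vapnik-Chervonenkis dimension
at least `k`. -/
def VC (n m k : ℕ) (φ : Fml ℕ) : Prop :=
  ∃ P : Finset (Fin n → ℝ), P.card = k ∧
    ∀ P' ⊆ P, ∃ y : Fin m → ℝ, ∀ x ∈ P, φ.Holds (env2 y x) ↔ x ∈ P'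

/-- `∃ X ∈ ℝ ^ a, ∀ b ∈ {0, 1} ^ k, ∃ Z ∈ ℝ ^ c, φ (X, b, Z)`. -/
def EB (a k c : ℕ) (φ : Fml ℕ) : Prop :=
  ∃ X : Fin a → ℝ, ∀ β : Fin k → Bool, ∃ Z : Fin c → ℝ,
    φ.Holds (env3 X (fun i => if β i = true then 1 else 0) Z)

/-- The number number `i` of a word. -/
def arg (i : ℕ) (w : List Bool) : ℕ := (nums w).getD i 0

/-- The formula of a word. -/
def form (w : List Bool) : Option (Fml ℕ) := parse ((nums w).drop 3)

/-- The words `(n, m, k, φ)` such that the family of the sets `{x ∈ ℝ ^ n | φ (y, x)}`, `y ∈ ℝ ^ m`,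
has Vapnik-Chervonenkis dimension at least `k`. -/
def VCSemialg : Set (List Bool) := {w | ∃ φ, form w = some φ ∧ VC (arg 0 w) (arg 1 w) (arg 2 w) φ}

/-- The words `(a, k, c, φ)` such that
`∃ X ∈ ℝ ^ a, ∀ b ∈ {0, 1} ^ k, ∃ Z ∈ ℝ ^ c, φ (X, b, Z)` is true. -/
def EBTrue : Set (List Bool) := {w | ∃ φ, form w = some φ ∧ EB (arg 0 w) (arg 1 w) (arg 2 w) φ}

/-! ### Writing formulas -/

/-- the letters of a term -/
def tt : Tm ℕ → List ℕ
  | .var v => [v + 9]
  | .const z => if z = 1 then [7] else [8]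
  | .add s t => tt s ++ tt t ++ [5]
  | .mul s t => tt s ++ tt t ++ [6]

/-- the letters of a formula -/
def ft : Fml ℕ → List ℕ
  | .eq s t => tt s ++ tt t ++ [0]
  | .lt s t => tt s ++ tt t ++ [1]
  | .not φ => ft φ ++ [2]
  | .and φ ψ => ft φ ++ ft ψ ++ [3]
  | .or φ ψ => ft φ ++ ft ψ ++ [4]

/-- only the constants `1` and `-1` occur -/
def okT : Tm ℕ → Prop
  | .var _ => True
  | .const z => z = 1 ∨ z = -1
  | .add s t => okT s ∧ okT t
  | .mul s t => okT s ∧ okT t

/-- only the constants `1` and `-1` occur -/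
def okF : Fml ℕ → Prop
  | .eq s t => okT s ∧ okT t
  | .lt s t => okT s ∧ okT t
  | .not φ => okF φ
  | .and φ ψ => okF φ ∧ okF ψ
  | .or φ ψ => okF φ ∧ okF ψ

theorem run_tt {t : Tm ℕ} (h : okT t) (l : List ℕ) (s : List (Tm ℕ)) (p : List (Fml ℕ)) :
    run (tt t ++ l) (s, p) = run l (t :: s, p) := by
  induction t generalizing l s with
  | var v => rfl
  | const z =>
    rcases h with rfl | rfl <;> rfl
  | add t₁ t₂ h₁ h₂ =>
    rw [tt, List.append_assoc, List.append_assoc, h₁ h.1, h₂ h.2]
    rfl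
  | mul t₁ t₂ h₁ h₂ =>
    rw [tt, List.append_assoc, List.append_assoc, h₁ h.1, h₂ h.2]
    rfl

theorem run_ft {φ : Fml ℕ} (h : okF φ) (l : List ℕ) (s : List (Tm ℕ)) (p : List (Fml ℕ)) :
    run (ft φ ++ l) (s, p) = run l (s, φ :: p) := by
  induction φ generalizing l p with
  | eq s t =>
    rw [ft, List.append_assoc, List.append_assoc, run_tt h.1, run_tt h.2]
    rfl
  | lt s t =>
    rw [ft, List.append_assoc, List.append_assoc, run_tt h.1, run_tt h.2]
    rfl
  | not φ ih =>
    rw [ft, List.append_assoc, ih h]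
    rfl
  | and φ ψ ih₁ ih₂ =>
    rw [ft, List.append_assoc, List.append_assoc, ih₁ h.1, ih₂ h.2]
    rfl
  | or φ ψ ih₁ ih₂ =>
    rw [ft, List.append_assoc, List.append_assoc, ih₁ h.1, ih₂ h.2]
    rfl

/-! ### Chains -/

theorem run_and (F : ℕ → Fml ℕ) (hF : ∀ j, okF (F j)) (l r : List ℕ) (s : List (Tm ℕ))
    (φ : Fml ℕ) (p : List (Fml ℕ)) :
    run (l.flatMap (fun j => ft (F j) ++ [3]) ++ r) (s, φ :: p) =
      run r (s, l.foldl (fun ψ j => .and ψ (F j)) φ :: p) := by
  induction l generalizing φ with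
  | nil => rfl
  | cons j l ih =>
    rw [List.flatMap_cons, List.append_assoc, List.append_assoc, run_ft (hF j), List.foldl_cons,
      ← ih]
    rfl

theorem run_or (F : ℕ → Fml ℕ) (hF : ∀ j, okF (F j)) (l r : List ℕ) (s : List (Tm ℕ))
    (φ : Fml ℕ) (p : List (Fml ℕ)) :
    run (l.flatMap (fun j => ft (F j) ++ [4]) ++ r) (s, φ :: p) =
      run r (s, l.foldl (fun ψ j => .or ψ (F j)) φ :: p) := by
  induction l generalizing φ with
  | nil => rfl
  | cons j l ih =>
    rw [List.flatMap_cons, List.append_assoc, List.append_assoc, run_ft (hF j), List.foldl_cons,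
      ← ih]
    rfl

theorem holds_and (F : ℕ → Fml ℕ) (ρ : ℕ → ℝ) (l : List ℕ) (φ : Fml ℕ) :
    (l.foldl (fun ψ j => .and ψ (F j)) φ).Holds ρ ↔ φ.Holds ρ ∧ ∀ j ∈ l, (F j).Holds ρ := by
  induction l generalizing φ with
  | nil => simp
  | cons j l ih =>
    rw [List.foldl_cons, ih]
    simp only [Fml.Holds, List.mem_cons, forall_eq_or_imp, and_assoc]

theorem holds_or (F : ℕ → Fml ℕ) (ρ : ℕ → ℝ) (l : List ℕ) (φ : Fml ℕ) :
    (l.foldl (fun ψ j => .or ψ (F j)) φ).Holds ρ ↔ φ.Holds ρ ∨ ∃ j ∈ l, (F j).Holds ρ := by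
  induction l generalizing φ with
  | nil => simp
  | cons j l ih =>
    rw [List.foldl_cons, ih]
    simp only [Fml.Holds, List.mem_cons, exists_eq_or_imp, or_assoc]

/-! ### Renaming of the variables -/

/-- renaming of the variables in the letters -/
def ren (f : ℕ → ℕ) (t : ℕ) : ℕ := if t < 9 then t else f (t - 9) + 9

theorem step_ren (f : ℕ → ℕ) (s : List (Tm ℕ)) (p : List (Fml ℕ)) (t : ℕ) :
    step (s.map (Tm.map f), p.map (Fml.map f)) (ren f t) =
      (step (s, p) t).map fun x => (x.1.map (Tm.map f), x.2.map (Fml.map f)) := by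
  by_cases ht : t < 9
  · rw [ren, if_pos ht]
    interval_cases t <;>
      (rcases s with _ | ⟨t2, _ | ⟨t1, s⟩⟩ <;> rcases p with _ | ⟨g, _ | ⟨h, p⟩⟩ <;>
        simp [step, Tm.map, Fml.map])
  · rw [ren, if_neg ht]
    obtain ⟨v, rfl⟩ : ∃ v, t = v + 9 := ⟨t - 9, by omega⟩
    rw [Nat.add_sub_cancel]
    rfl

theorem run_ren (f : ℕ → ℕ) (l : List ℕ) (s : List (Tm ℕ)) (p : List (Fml ℕ)) :
    run (l.map (ren f)) (s.map (Tm.map f), p.map (Fml.map f)) =
      (run l (s, p)).map fun x => (x.1.map (Tm.map f), x.2.map (Fml.map f)) := by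
  induction l generalizing s p with
  | nil => rfl
  | cons t l ih =>
    rw [List.map_cons, run, run, step_ren]
    cases h : step (s, p) t with
    | none => rfl
    | some y => exact ih y.1 y.2

theorem step_weak {x y : St} {t : ℕ} (h : step x t = some y) (s : List (Tm ℕ))
    (p : List (Fml ℕ)) : step (x.1 ++ s, x.2 ++ p) t = some (y.1 ++ s, y.2 ++ p) := by
  obtain ⟨s', p'⟩ := x
  by_cases ht : t < 9
  · interval_cases t <;>
      (rcases s' with _ | ⟨t2, _ | ⟨t1, s'⟩⟩ <;> rcases p' with _ | ⟨g, _ | ⟨f, p'⟩⟩ <;>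
        simp only [step, reduceCtorEq, Option.some.injEq] at h <;>
        (try subst h) <;> rfl)
  · obtain ⟨v, rfl⟩ : ∃ v, t = v + 9 := ⟨t - 9, by omega⟩
    have : some ((Tm.var v :: s', p') : St) = some y := h
    cases this
    rfl

theorem run_weak {l : List ℕ} {x y : St} (h : run l x = some y) (s : List (Tm ℕ))
    (p : List (Fml ℕ)) : run l (x.1 ++ s, x.2 ++ p) = some (y.1 ++ s, y.2 ++ p) := by
  induction l generalizing x with
  | nil =>
    cases h
    rfl
  | cons t l ih =>
    rw [run] at h ⊢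
    cases hs : step x t with
    | none => rw [hs] at h; exact absurd h (by simp)
    | some z =>
      rw [hs] at h
      rw [step_weak hs s p]
      exact ih h

theorem parse_eq_some {l : List ℕ} {φ : Fml ℕ} : parse l = some φ ↔ run l ([], []) = some ([], [φ]) := by
  unfold parse
  constructor
  · intro h
    split at h
    · rename_i ψ hψ
      cases h
      exact hψ
    · exact absurd h (by simp)
  · intro h
    rw [h]

end Pool.Agent.Lib.MP_77492d_lc.W35
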